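import Pool.Agent.Helper98.CopG.Resample

set_option autoImplicit false

/-! # The main finite volume inequality -/

namespace H98G

open MeasureTheory ProbabilityTheory Filter Topology Matrix
open H98Cop (pj gm gauss_ibp integrable_of_le_lin integrable_of_le_exp integrable_exp_abs transport)

variable {ι : Type*} [Fintype ι] [DecidableEq ι]

/-- scales -/
noncomputable def sc (δ : ℝ) (j : ℕ) : ℝ := 2^j * δ

theorem sc_pos {δ : ℝ} (hδ : 0 < δ) (j : ℕ) : 0 < sc δ j := by unfold sc; positivity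

omit [DecidableEq ι] in
theorem Zq_mono_field {q : Finset ι → ℝ} (hq : ∀ A, 0 ≤ q A) {x y : ι → ℝ}
    (h : ∀ i, x i ≤ y i) : Zq q x ≤ Zq q y :=
  Finset.sum_le_sum fun A _ => mul_le_mul_of_nonneg_left
    (Real.exp_le_exp.2 (Finset.sum_le_sum fun i _ => h i)) (hq A)

/-- local Lipschitz bound for partition functions -/
theorem Zq_local {q : Finset ι → ℝ} (hq : ∀ A, 0 ≤ q A) (N : Finset ι) (x y : ι → ℝ)
    (h : ∀ i, i ∉ N → x i = y i) : Zq q x ≤ Real.exp (∑ i ∈ N, |x i - y i|) * Zq q y := by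
  unfold Zq
  rw [Finset.mul_sum]
  apply Finset.sum_le_sum
  intro A _
  have h1 : ∑ i ∈ A, x i ≤ ∑ i ∈ N, |x i - y i| + ∑ i ∈ A, y i := by
    have h2 : ∑ i ∈ A, x i - ∑ i ∈ A, y i ≤ ∑ i ∈ N, |x i - y i| := by
      rw [← Finset.sum_sub_distrib]
      calc ∑ i ∈ A, (x i - y i) ≤ ∑ i ∈ A, |x i - y i| :=
            Finset.sum_le_sum fun i _ => le_abs_self _
        _ = ∑ i ∈ A ∩ N, |x i - y i| := by
            symm
            apply Finset.sum_subset Finset.inter_subset_left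
            intro i hi hi'
            have : i ∉ N := fun hN => hi' (Finset.mem_inter.2 ⟨hi, hN⟩)
            rw [h i this, sub_self, abs_zero]
        _ ≤ ∑ i ∈ N, |x i - y i| :=
            Finset.sum_le_sum_of_subset_of_nonneg Finset.inter_subset_right fun i _ _ => abs_nonneg _
    linarith
  calc q A * Real.exp (∑ i ∈ A, x i)
      ≤ q A * Real.exp (∑ i ∈ N, |x i - y i| + ∑ i ∈ A, y i) :=
        mul_le_mul_of_nonneg_left (Real.exp_le_exp.2 h1) (hq A)
    _ = _ := by rw [Real.exp_add]; ring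

/-- hypotheses of quasi-monotonicity -/
structure QMH (p : Finset ι → ℝ) (N : ι → Finset ι) (bulk : Finset ι) (ν : ℕ) (CQ Γ : ℝ) : Prop where
  CQ1 : 1 ≤ CQ
  Γ0 : 0 ≤ Γ
  card : ∀ i, (N i).card ≤ ν
  qm : ∀ y2 y1 : ι → ℝ, (∀ m, y2 m ≤ y1 m) → ∀ i ∈ bulk,
    Pr p i y2 ≤ CQ * Real.exp (Γ * ∑ m ∈ N i, (|y1 m| + |y2 m|)) * Pr p i y1

/-- the overlap constant -/
noncomputable def c2c (CQ Γ V β : ℝ) (ν : ℕ) : ℝ :=
  CQ⁻¹ * Real.exp (-(2 * Γ * V * ν)) * rhoc (2 * Γ * β) (4 * β) ^ ν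

theorem c2c_pos {CQ : ℝ} (hCQ : 1 ≤ CQ) (Γ V β : ℝ) (ν : ℕ) : 0 < c2c CQ Γ V β ν := by
  unfold c2c
  have := rhoc_pos (2 * Γ * β) (4 * β)
  positivity

namespace PN

variable {p : Finset ι → ℝ} (hp : PN p)
include hp

theorem Pr_local (i : ι) (N : Finset ι) (x y : ι → ℝ) (h : ∀ i, i ∉ N → x i = y i) :
    Pr p i x ≤ Real.exp (2 * ∑ i ∈ N, |x i - y i|) * Pr p i y := by
  have h1 := Zq_local (qi_nonneg hp.nonneg i) N x y h
  have h2 := Zq_local hp.nonneg N y x (fun i hi => (h i hi).symm)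
  have e : ∑ i ∈ N, |y i - x i| = ∑ i ∈ N, |x i - y i| :=
    Finset.sum_congr rfl fun i _ => abs_sub_comm _ _
  rw [e] at h2
  have hx := hp.Zpos x
  have hy := hp.Zpos y
  have hq := Zq_nonneg (qi_nonneg hp.nonneg i) y
  unfold Pr
  rw [← mul_div_assoc, div_le_div_iff₀ hx hy]
  set E := ∑ i ∈ N, |x i - y i|
  calc Zq (qi p i) x * Zq p y ≤ (Real.exp E * Zq (qi p i) y) * (Real.exp E * Zq p x) :=
        mul_le_mul h1 h2 hy.le (by positivity)
    _ = _ := by rw [two_mul, Real.exp_add]; ring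

/-- the field at scale `j` -/
noncomputable def Xj {δ : ℝ} (hδ : 0 < δ) (β v0 : ℝ) (j : ℕ) (x : ι → ℝ) (i : ι) : ℝ :=
  hp.Xf (sc_pos hδ j) (bs β (v0 + δ + sc δ j) x) i

/-- the derivative matrix at scale `j` -/
noncomputable def Hj {δ : ℝ} (hδ : 0 < δ) (β v0 : ℝ) (j : ℕ) (x : ι → ℝ) : Matrix ι ι ℝ :=
  hp.Hm (sc_pos hδ j) (bs β (v0 + δ + sc δ j) x)

/-- the multiscale field -/
noncomputable def SF {δ : ℝ} (hδ : 0 < δ) (β v0 c : ℝ) (J : ℕ) (x : ι → ℝ) : ι → ℝ :=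
  fun i => ∑ j ∈ Finset.range J, c * hp.Xj hδ β v0 j x i

/-- its derivative -/
noncomputable def AF {δ : ℝ} (hδ : 0 < δ) (β v0 c : ℝ) (J : ℕ) (x : ι → ℝ) : Matrix ι ι ℝ :=
  ∑ j ∈ Finset.range J, (c * β) • hp.Hj hδ β v0 j x

theorem AF_apply {δ : ℝ} (hδ : 0 < δ) (β v0 c : ℝ) (J : ℕ) (x : ι → ℝ) (i m : ι) :
    hp.AF hδ β v0 c J x i m = ∑ j ∈ Finset.range J, (c * β) * hp.Hj hδ β v0 j x i m := by
  unfold AF
  rw [Matrix.sum_apply]
  apply Finset.sum_congr rfl
  intro j _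
  rw [Matrix.smul_apply, smul_eq_mul]

theorem SF_hasFDerivAt {δ : ℝ} (hδ : 0 < δ) (β v0 c : ℝ) (J : ℕ) (x : ι → ℝ) (i : ι) :
    HasFDerivAt (fun x => hp.SF hδ β v0 c J x i)
      (∑ m, hp.AF hδ β v0 c J x i m • (pj m : (ι → ℝ) →L[ℝ] ℝ)) x := by
  unfold SF
  simp_rw [hp.AF_apply]
  have h1 : ∀ j, HasFDerivAt (fun x => c * hp.Xj hδ β v0 j x i)
      (∑ m, ((c * β) * hp.Hj hδ β v0 j x i m) • (pj m : (ι → ℝ) →L[ℝ] ℝ)) x := by
    intro j
    have h := ((hp.hasFDerivAt_Xf (sc_pos hδ j) (bs β (v0 + δ + sc δ j) x) i).comp x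
      (hasFDerivAt_bs β (v0 + δ + sc δ j) x)).const_mul c
    refine h.congr_fderiv ?_
    ext w
    unfold Hj
    simp only [ContinuousLinearMap.comp_apply, _root_.smul_apply, ContinuousLinearMap.id_apply]
    simp
    rw [Finset.mul_sum, Finset.mul_sum]
    apply Finset.sum_congr rfl
    intro j _; ring
  have h2 := HasFDerivAt.fun_sum (fun j (_ : j ∈ Finset.range J) => h1 j)
  refine h2.congr_fderiv ?_
  rw [Finset.sum_comm]
  apply Finset.sum_congr rfl
  intro m _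
  rw [Finset.sum_smul]

theorem Xj_nonneg {δ : ℝ} (hδ : 0 < δ) (β v0 : ℝ) (j : ℕ) (x : ι → ℝ) (i : ι) :
    0 ≤ hp.Xj hδ β v0 j x i := hp.Xf_nonneg _ _ _

theorem Xj_le_one {δ : ℝ} (hδ : 0 < δ) (β v0 : ℝ) (j : ℕ) (x : ι → ℝ) (i : ι) :
    hp.Xj hδ β v0 j x i ≤ 1 := hp.Xf_le_one _ _ _

theorem continuous_Xj {δ : ℝ} (hδ : 0 < δ) (β v0 : ℝ) (j : ℕ) (i : ι) :
    Continuous (fun x => hp.Xj hδ β v0 j x i) :=
  (hp.continuous_Xf (sc_pos hδ j) i).comp (continuous_bs β _)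

theorem continuous_Hj {δ : ℝ} (hδ : 0 < δ) (β v0 : ℝ) (j : ℕ) (i m : ι) :
    Continuous (fun x => hp.Hj hδ β v0 j x i m) :=
  (hp.continuous_Hm (sc_pos hδ j) i m).comp (continuous_bs β _)

theorem SF_nonneg {δ : ℝ} (hδ : 0 < δ) (β v0 : ℝ) {c : ℝ} (hc : 0 ≤ c) (J : ℕ) (x : ι → ℝ) (i : ι) :
    0 ≤ hp.SF hδ β v0 c J x i :=
  Finset.sum_nonneg fun j _ => mul_nonneg hc (hp.Xj_nonneg hδ β v0 j x i)

theorem SF_le {δ : ℝ} (hδ : 0 < δ) (β v0 : ℝ) {c : ℝ} (hc : 0 ≤ c) (J : ℕ) (x : ι → ℝ) (i : ι) :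
    hp.SF hδ β v0 c J x i ≤ J * c := by
  unfold SF
  calc _ ≤ ∑ j ∈ Finset.range J, c := Finset.sum_le_sum fun j _ =>
        mul_le_of_le_one_right hc (hp.Xj_le_one hδ β v0 j x i)
    _ = _ := by rw [Finset.sum_const, Finset.card_range, nsmul_eq_mul]

theorem AF_psd {δ : ℝ} (hδ : 0 < δ) {β : ℝ} (hβ : 0 ≤ β) (v0 : ℝ) {c : ℝ} (hc : 0 ≤ c) (J : ℕ)
    (x : ι → ℝ) : (hp.AF hδ β v0 c J x).PosSemidef := by
  unfold AF
  apply Matrix.posSemidef_sum
  intro j _
  exact (hp.resolv (sc_pos hδ j) _).2.2.2.1.smul (mul_nonneg hc hβ)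

theorem AF_entry {δ : ℝ} (hδ : 0 < δ) {β : ℝ} (hβ : 0 ≤ β) (v0 : ℝ) {c : ℝ} (hc : 0 ≤ c) (J : ℕ)
    (x : ι → ℝ) (i m : ι) : |hp.AF hδ β v0 c J x i m| ≤ J * (c * β * δ⁻¹) := by
  rw [hp.AF_apply]
  refine (Finset.abs_sum_le_sum_abs _ _).trans ?_
  calc _ ≤ ∑ j ∈ Finset.range J, (c * β * δ⁻¹) := by
        apply Finset.sum_le_sum
        intro j _
        rw [abs_mul, abs_of_nonneg (mul_nonneg hc hβ)]
        apply mul_le_mul_of_nonneg_left _ (mul_nonneg hc hβ)
        refine (hp.Hm_entry (sc_pos hδ j) _ i m).trans ?_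
        apply inv_anti₀ hδ
        unfold sc
        have : (1:ℝ) ≤ 2 ^ j := one_le_pow₀ (by norm_num)
        nlinarith
    _ = _ := by rw [Finset.sum_const, Finset.card_range, nsmul_eq_mul]

theorem AF_continuous {δ : ℝ} (hδ : 0 < δ) (β v0 c : ℝ) (J : ℕ) (i m : ι) :
    Continuous (fun x => hp.AF hδ β v0 c J x i m) := by
  simp_rw [hp.AF_apply]
  exact continuous_finsetSum _ fun j _ => (hp.continuous_Hj hδ β v0 j i m).const_mul _

theorem SF_mono {δ : ℝ} (hδ : 0 < δ) {β : ℝ} (hβ : 0 < β) (v0 : ℝ) {c : ℝ} (hc : 0 ≤ c) (J : ℕ)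
    (x y : ι → ℝ) :
    0 ≤ ∑ i, (hp.SF hδ β v0 c J x i - hp.SF hδ β v0 c J y i) * (x i - y i) := by
  have e : ∑ i, (hp.SF hδ β v0 c J x i - hp.SF hδ β v0 c J y i) * (x i - y i)
      = ∑ j ∈ Finset.range J, (c / β) * ∑ i, (hp.Xj hδ β v0 j x i - hp.Xj hδ β v0 j y i)
          * (bs β (v0 + δ + sc δ j) x i - bs β (v0 + δ + sc δ j) y i) := by
    unfold SF
    simp_rw [← Finset.sum_sub_distrib, Finset.sum_mul]
    rw [Finset.sum_comm]
    apply Finset.sum_congr rfl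
    intro j _
    rw [Finset.mul_sum]
    apply Finset.sum_congr rfl
    intro i _
    unfold bs
    field_simp
    ring
  rw [e]
  exact Finset.sum_nonneg fun j _ => mul_nonneg (div_nonneg hc hβ.le)
    (hp.Xf_mono (sc_pos hδ j) _ _)

/-- pointwise bound on the trace of the square -/
theorem AF_trace {δ : ℝ} (hδ : 0 < δ) (β v0 c : ℝ) (J : ℕ) (x : ι → ℝ) :
    (hp.AF hδ β v0 c J x * hp.AF hδ β v0 c J x).trace
      ≤ (c * β)^2 * ∑ j ∈ Finset.range J, 4 * (((∑ i, hp.Xj hδ β v0 j x i) / δ) * ((1:ℝ)/2)^j) := by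
  set T : ℕ → ℕ → ℝ := fun j k => (hp.Hj hδ β v0 j x * hp.Hj hδ β v0 k x).trace with hT
  have e : (hp.AF hδ β v0 c J x * hp.AF hδ β v0 c J x).trace
      = (c * β)^2 * ∑ j ∈ Finset.range J, ∑ k ∈ Finset.range J, T j k := by
    unfold AF
    rw [Finset.sum_mul_sum, Matrix.trace_sum, Finset.mul_sum]
    apply Finset.sum_congr rfl
    intro j _
    rw [Matrix.trace_sum, Finset.mul_sum]
    apply Finset.sum_congr rfl
    intro k _
    rw [Matrix.smul_mul, Matrix.mul_smul, Matrix.trace_smul, Matrix.trace_smul, hT]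
    simp only [smul_eq_mul]
    ring
  rw [e]
  apply mul_le_mul_of_nonneg_left _ (sq_nonneg _)
  apply double_sum_le J T (fun j => (∑ i, hp.Xj hδ β v0 j x i) / δ)
  · intro j
    exact div_nonneg (Finset.sum_nonneg fun i _ => hp.Xj_nonneg hδ β v0 j x i) hδ.le
  · intro j k
    rw [hT]; simp only
    exact Matrix.trace_mul_comm _ _
  · intro j k _
    rw [hT]; simp only
    have h := hp.Hm_trace_mul (sc_pos hδ j) (sc_pos hδ k) (bs β (v0 + δ + sc δ j) x)
      (bs β (v0 + δ + sc δ k) x)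
    refine h.trans (le_of_eq ?_)
    unfold Xj
    unfold sc
    rw [one_div, inv_pow, mul_inv]
    ring

/-- the mass of the field at scale `j` -/
theorem Xj_sum_le {δ : ℝ} (hδ : 0 < δ) (β v0 : ℝ) (j : ℕ) (x : ι → ℝ) :
    ∑ i, hp.Xj hδ β v0 j x i ≤ (Real.log (Zq p (bs β (v0 + 2 ^ (j + 2) * δ) x)) -
      Real.log (Zq p (bs β (v0 + δ) x))) / (2 ^ j * δ) := by
  have hs := sc_pos hδ j
  have hs' : sc δ j = 2 ^ j * δ := rfl
  set b := bs β (v0 + δ + sc δ j) x with hb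
  set z := hp.prox hs b with hz
  rw [le_div_iff₀ (by positivity), ← hs']
  have h1 := hp.log_convex z (sh z (sc δ j))
  have e1 : ∑ i, Pr p i z * (sh z (sc δ j) i - z i) = (∑ i, hp.Xj hδ β v0 j x i) * sc δ j := by
    rw [Finset.sum_mul]
    apply Finset.sum_congr rfl
    intro i _
    unfold sh
    rw [show z i + sc δ j - z i = sc δ j by ring]
    rfl
  rw [e1] at h1
  have hzi : ∀ i, z i = b i - sc δ j * hp.Xf hs b i := fun i => hp.prox_eq hs b i
  have h2 : Real.log (Zq p (sh z (sc δ j))) ≤ Real.log (Zq p (bs β (v0 + 2 ^ (j + 2) * δ) x)) := by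
    apply Real.log_le_log (hp.Zpos _)
    apply Zq_mono_field hp.nonneg
    intro i
    unfold sh
    rw [hzi i, hb]
    unfold bs
    have h3 := mul_nonneg hs.le (hp.Xf_nonneg hs (bs β (v0 + δ + sc δ j) x) i)
    unfold bs at h3
    have h4 : δ + sc δ j + sc δ j ≤ 2 ^ (j + 2) * δ := by
      rw [hs']
      have h5 : (1:ℝ) ≤ 2 ^ j := one_le_pow₀ (by norm_num)
      have h6 : (2:ℝ) ^ (j + 2) = 4 * 2 ^ j := by rw [pow_add]; norm_num; ring
      rw [h6]
      nlinarith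
    linarith
  have h3 : Real.log (Zq p (bs β (v0 + δ) x)) ≤ Real.log (Zq p z) := by
    apply Real.log_le_log (hp.Zpos _)
    apply Zq_mono_field hp.nonneg
    intro i
    rw [hzi i, hb]
    have h4 := hp.Xf_le_one hs (bs β (v0 + δ + sc δ j) x) i
    have h5 := mul_le_mul_of_nonneg_left h4 hs.le
    unfold bs at *
    linarith
  linarith

/-- overlap of the field at scale `j` with the contact probability -/
theorem overlap_j {N : ι → Finset ι} {bulk : Finset ι} {ν : ℕ} {CQ Γ : ℝ}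
    (hQ : QMH p N bulk ν CQ Γ) {β δ v0 V : ℝ} (hβ : 0 ≤ β) (hδ : 0 < δ) (j : ℕ)
    (hV1 : |v0 + δ| ≤ V) (hV2 : |v0 + δ + sc δ j| ≤ V) (i : ι) (hi : i ∈ bulk) :
    c2c CQ Γ V β ν * ∫ x, Pr p i (bs β (v0 + δ) x) ^ 2 ∂(gm ι) ≤
      ∫ x, Pr p i (bs β (v0 + δ) x) * hp.Xj hδ β v0 j x i ∂(gm ι) := by
  have hCQ := hQ.CQ1
  have hΓ := hQ.Γ0
  have hs := sc_pos hδ j
  have hV : 0 ≤ V := (abs_nonneg _).trans hV1
  have hcard : ((N i).card : ℝ) ≤ ν := by exact_mod_cast hQ.card i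
  -- pointwise bound
  have hpt : ∀ x : ι → ℝ, CQ⁻¹ * Real.exp (-(2 * Γ * V * ν)) *
      (Real.exp (-(2 * Γ * β) * ∑ m ∈ N i, |x m|) * Pr p i (bs β (v0 + δ) x) ^ 2) ≤
      Pr p i (bs β (v0 + δ) x) * hp.Xj hδ β v0 j x i := by
    intro x
    set b := bs β (v0 + δ + sc δ j) x with hb
    set z := hp.prox hs b with hz
    have hX : hp.Xj hδ β v0 j x i = Pr p i z := rfl
    have hzi : ∀ i, z i = b i - sc δ j * hp.Xf hs b i := fun i => hp.prox_eq hs b i
    have hX0 : ∀ i, 0 ≤ hp.Xf hs b i := fun i => hp.Xf_nonneg hs b i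
    have hX1 : ∀ i, hp.Xf hs b i ≤ 1 := fun i => hp.Xf_le_one hs b i
    have hle : ∀ m, bs β (v0 + δ) x m ≤ z m := by
      intro m
      have e1 : b m = bs β (v0 + δ) x m + sc δ j := by rw [hb]; unfold bs; ring
      rw [hzi m, e1]
      have := mul_le_mul_of_nonneg_left (hX1 m) hs.le
      linarith
    have hqm := hQ.qm (bs β (v0 + δ) x) z hle i hi
    have hsum : ∑ m ∈ N i, (|z m| + |bs β (v0 + δ) x m|) ≤ 2 * β * ∑ m ∈ N i, |x m| + 2 * V * ν := by
      calc ∑ m ∈ N i, (|z m| + |bs β (v0 + δ) x m|) ≤ ∑ m ∈ N i, (2 * β * |x m| + 2 * V) := by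
            apply Finset.sum_le_sum
            intro m _
            have a1 : |bs β (v0 + δ) x m| ≤ β * |x m| + V := by
              unfold bs
              calc |β * x m + (v0 + δ)| ≤ |β * x m| + |v0 + δ| := abs_add_le _ _
                _ ≤ _ := by rw [abs_mul, abs_of_nonneg hβ]; linarith
            have a2 : |z m| ≤ β * |x m| + V := by
              have l1 := hle m
              have l2 : z m ≤ bs β (v0 + δ + sc δ j) x m := by
                rw [hzi m, hb]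
                have := mul_nonneg hs.le (hX0 m)
                linarith
              have l3 := neg_abs_le (bs β (v0 + δ) x m)
              have l4 : |bs β (v0 + δ + sc δ j) x m| ≤ β * |x m| + V := by
                unfold bs
                calc |β * x m + (v0 + δ + sc δ j)| ≤ |β * x m| + |v0 + δ + sc δ j| := abs_add_le _ _
                  _ ≤ _ := by rw [abs_mul, abs_of_nonneg hβ]; linarith
              have l5 := le_abs_self (bs β (v0 + δ + sc δ j) x m)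
              rw [abs_le]
              constructor <;> linarith
            linarith
        _ = 2 * β * ∑ m ∈ N i, |x m| + (N i).card * (2 * V) := by
            rw [Finset.sum_add_distrib, ← Finset.mul_sum, Finset.sum_const, nsmul_eq_mul]
        _ ≤ _ := by nlinarith
    have hPr0 := hp.Pr_nonneg i (bs β (v0 + δ) x)
    have hPz := hp.Pr_nonneg i z
    have h2 : Pr p i (bs β (v0 + δ) x) ≤
        CQ * Real.exp (Γ * (2 * β * ∑ m ∈ N i, |x m| + 2 * V * ν)) * Pr p i z := by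
      refine hqm.trans ?_
      apply mul_le_mul_of_nonneg_right _ hPz
      apply mul_le_mul_of_nonneg_left _ (by linarith)
      exact Real.exp_le_exp.2 (mul_le_mul_of_nonneg_left hsum hΓ)
    have h3 : CQ⁻¹ * Real.exp (-(2 * Γ * V * ν)) * Real.exp (-(2 * Γ * β) * ∑ m ∈ N i, |x m|) *
        Pr p i (bs β (v0 + δ) x) ≤ Pr p i z := by
      have hpos : 0 ≤ CQ⁻¹ * Real.exp (-(2 * Γ * V * ν)) *
        Real.exp (-(2 * Γ * β) * ∑ m ∈ N i, |x m|) := by positivity
      have h4 := mul_le_mul_of_nonneg_left h2 hpos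
      refine h4.trans (le_of_eq ?_)
      have e1 : CQ⁻¹ * Real.exp (-(2 * Γ * V * ν)) * Real.exp (-(2 * Γ * β) * ∑ m ∈ N i, |x m|) *
          (CQ * Real.exp (Γ * (2 * β * ∑ m ∈ N i, |x m| + 2 * V * ν)) * Pr p i z) =
          (CQ⁻¹ * CQ) * (Real.exp (-(2 * Γ * V * ν)) * Real.exp (-(2 * Γ * β) * ∑ m ∈ N i, |x m|) *
            Real.exp (Γ * (2 * β * ∑ m ∈ N i, |x m| + 2 * V * ν))) * Pr p i z := by ring
      rw [e1, inv_mul_cancel₀ (by linarith), ← Real.exp_add, ← Real.exp_add]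
      rw [show -(2 * Γ * V * ν) + -(2 * Γ * β) * ∑ m ∈ N i, |x m| +
        Γ * (2 * β * ∑ m ∈ N i, |x m| + 2 * V * ν) = 0 by ring, Real.exp_zero]
      ring
    rw [hX]
    calc _ = Pr p i (bs β (v0 + δ) x) * (CQ⁻¹ * Real.exp (-(2 * Γ * V * ν)) *
          Real.exp (-(2 * Γ * β) * ∑ m ∈ N i, |x m|) * Pr p i (bs β (v0 + δ) x)) := by ring
      _ ≤ _ := mul_le_mul_of_nonneg_left h3 hPr0
  -- resampling
  have hres := resample (N i) (fun x => Pr p i (bs β (v0 + δ) x) ^ 2)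
    (((hp.continuous_Pr i).comp (continuous_bs β _)).pow 2).measurable
    (a := 2 * Γ * β) (c := 4 * β) (by positivity) (by positivity)
    (fun x => sq_nonneg _)
    (fun x => by
      have a1 := hp.Pr_nonneg i (bs β (v0 + δ) x)
      have a2 := hp.Pr_le_one i (bs β (v0 + δ) x)
      nlinarith)
    (fun x x' h => by
      have a1 := hp.Pr_local i (N i) (bs β (v0 + δ) x) (bs β (v0 + δ) x')
        (fun m hm => by unfold bs; rw [h m hm])
      have e : ∑ m ∈ N i, |bs β (v0 + δ) x m - bs β (v0 + δ) x' m| = β * ∑ m ∈ N i, |x m - x' m| := by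
        rw [Finset.mul_sum]
        apply Finset.sum_congr rfl
        intro m _
        unfold bs
        rw [show β * x m + (v0 + δ) - (β * x' m + (v0 + δ)) = β * (x m - x' m) by ring, abs_mul,
          abs_of_nonneg hβ]
      rw [e] at a1
      have a2 := pow_le_pow_left₀ (hp.Pr_nonneg i (bs β (v0 + δ) x)) a1 2
      refine a2.trans (le_of_eq ?_)
      rw [mul_pow, ← Real.exp_nat_mul]
      congr 2
      push_cast; ring)
  have hρ1 := rhoc_le_one (a := 2 * Γ * β) (c := 4 * β) (by positivity) (by positivity)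
  have hρ0 := rhoc_pos (2 * Γ * β) (4 * β)
  have hI0 : 0 ≤ ∫ x, Pr p i (bs β (v0 + δ) x) ^ 2 ∂(gm ι) := integral_nonneg fun x => sq_nonneg _
  have hρ : rhoc (2 * Γ * β) (4 * β) ^ ν ≤ rhoc (2 * Γ * β) (4 * β) ^ (N i).card :=
    pow_le_pow_of_le_one hρ0.le hρ1 (hQ.card i)
  have hPm : Measurable (fun x => Pr p i (bs β (v0 + δ) x)) :=
    ((hp.continuous_Pr i).comp (continuous_bs β _)).measurable
  have hint1 : Integrable (fun x => CQ⁻¹ * Real.exp (-(2 * Γ * V * ν)) *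
      (Real.exp (-(2 * Γ * β) * ∑ m ∈ N i, |x m|) * Pr p i (bs β (v0 + δ) x) ^ 2)) (gm ι) := by
    apply Integrable.const_mul
    refine (integrable_expN (-(2 * Γ * β)) (N i)).mono'
      ((meas_expN _ _).mul (hPm.pow_const 2)).aestronglyMeasurable
      (Filter.Eventually.of_forall fun x => ?_)
    rw [Real.norm_eq_abs, abs_of_nonneg (by positivity)]
    have a1 := hp.Pr_nonneg i (bs β (v0 + δ) x)
    have a2 := hp.Pr_le_one i (bs β (v0 + δ) x)
    apply mul_le_of_le_one_right (Real.exp_pos _).le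
    nlinarith
  have hint2 : Integrable (fun x => Pr p i (bs β (v0 + δ) x) * hp.Xj hδ β v0 j x i) (gm ι) := by
    refine integrable_of_le_lin _ (((hp.continuous_Pr i).comp (continuous_bs β _)).mul
      (hp.continuous_Xj hδ β v0 j i)).aestronglyMeasurable 1 0 zero_le_one le_rfl (fun x => ?_)
    have a1 := hp.Pr_nonneg i (bs β (v0 + δ) x)
    have a2 := hp.Pr_le_one i (bs β (v0 + δ) x)
    have a3 := hp.Xj_nonneg hδ β v0 j x i
    have a4 := hp.Xj_le_one hδ β v0 j x i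
    rw [abs_of_nonneg (mul_nonneg a1 a3)]
    nlinarith
  have hfin := integral_mono hint1 hint2 hpt
  rw [integral_const_mul] at hfin
  refine le_trans ?_ hfin
  unfold c2c
  calc CQ⁻¹ * Real.exp (-(2 * Γ * V * ν)) * rhoc (2 * Γ * β) (4 * β) ^ ν *
        ∫ x, Pr p i (bs β (v0 + δ) x) ^ 2 ∂(gm ι)
      ≤ CQ⁻¹ * Real.exp (-(2 * Γ * V * ν)) * rhoc (2 * Γ * β) (4 * β) ^ (N i).card *
        ∫ x, Pr p i (bs β (v0 + δ) x) ^ 2 ∂(gm ι) := by gcongr
    _ = CQ⁻¹ * Real.exp (-(2 * Γ * V * ν)) * (rhoc (2 * Γ * β) (4 * β) ^ (N i).card *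
        ∫ x, Pr p i (bs β (v0 + δ) x) ^ 2 ∂(gm ι)) := by ring
    _ ≤ _ := mul_le_mul_of_nonneg_left hres (by positivity)

/-- **Main finite volume inequality.** -/
theorem fv_main {N : ι → Finset ι} {bulk : Finset ι} {ν : ℕ} {CQ Γ : ℝ}
    (hQ : QMH p N bulk ν CQ Γ) {β θ δ κ v0 V : ℝ} (hβ : 0 < β) (hθ : 0 < θ) (hδ : 0 < δ)
    (hκ : 0 < κ) {J : ℕ} (hJ : 1 ≤ J) (hV1 : |v0 + δ| ≤ V) (hV2 : ∀ j < J, |v0 + δ + sc δ j| ≤ V)
    (hov : δ * R1 p β (v0 + δ) ≤ β * κ * c2c CQ Γ V β ν * R2 p β (v0 + δ)) :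
    θ * L p β (v0 + δ) ≤ Real.log (∫ x, Real.exp (θ * Real.log (Zq p (bs β v0 x))) ∂(gm ι))
      + (κ / J * β)^2 / 2 * (∑ j ∈ Finset.range J, 4 *
          ((((L p β (v0 + 2 ^ (j + 2) * δ) - L p β (v0 + δ)) / (2 ^ j * δ)) / δ) * ((1:ℝ)/2)^j))
      + κ ^ 2 / J / 2 * (∑ j ∈ Finset.range J,
          (L p β (v0 + 2 ^ (j + 2) * δ) - L p β (v0 + δ)) / (2 ^ j * δ))
      + θ * (β * κ * c2c CQ Γ V β ν * (bulkᶜ).card) := by
  have hJ' : (0:ℝ) < J := by exact_mod_cast hJ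
  set c := κ / J with hc
  have hc0 : 0 < c := div_pos hκ hJ'
  have hJc : J * c = κ := by rw [hc]; field_simp
  set S := hp.SF hδ β v0 c J with hS
  set A := hp.AF hδ β v0 c J with hA
  set c2 := c2c CQ Γ V β ν with hc2
  have hc20 : 0 < c2 := c2c_pos hQ.CQ1 Γ V β ν
  have hScont : ∀ i, Continuous (fun x => S x i) := fun i =>
    continuous_iff_continuousAt.2 fun x => (hp.SF_hasFDerivAt hδ β v0 c J x i).continuousAt
  have hScont' : Continuous S := continuous_pi hScont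
  have hgcont : Continuous (fun x => θ * Real.log (Zq p (bs β v0 x))) :=
    (hp.continuous_logZ.comp (continuous_bs β v0)).const_mul θ
  have hS0 : ∀ x i, 0 ≤ S x i := fun x i => hp.SF_nonneg hδ β v0 hc0.le J x i
  have hSκ : ∀ x i, S x i ≤ κ := fun x i => by
    rw [← hJc]; exact hp.SF_le hδ β v0 hc0.le J x i
  have hgT : Integrable (fun x => θ * Real.log (Zq p (bs β v0 (x + S x)))) (gm ι) := by
    apply Integrable.const_mul
    refine integrable_of_le_lin _ ((hp.continuous_logZ.comp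
      ((continuous_bs β v0).comp (continuous_id.add hScont'))).aestronglyMeasurable)
      ((|Real.log (Zq p 0)| + Fintype.card ι * |v0|) + β * (Fintype.card ι * κ)) β (by positivity) hβ.le
      (fun x => ?_)
    have h1 := hp.abs_logZ_bs β v0 (x + S x)
    have h2 : ∑ i, |(x + S x) i| ≤ ∑ i, |x i| + Fintype.card ι * κ := by
      rw [← nsmul_eq_mul, ← Finset.card_univ, ← Finset.sum_const, ← Finset.sum_add_distrib]
      apply Finset.sum_le_sum
      intro i _
      calc |(x + S x) i| ≤ |x i| + |S x i| := abs_add_le _ _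
        _ ≤ |x i| + κ := by rw [abs_of_nonneg (hS0 x i)]; linarith [hSκ x i]
    rw [abs_of_pos hβ] at h1
    have h3 := mul_le_mul_of_nonneg_left h2 hβ.le
    calc _ ≤ _ := h1
      _ ≤ _ := by linarith
  have htr := transport S A (κ + J * (c * β * δ⁻¹)) (fun x i => hp.SF_hasFDerivAt hδ β v0 c J x i)
    (fun x => hp.AF_psd hδ hβ.le v0 hc0.le J x) (fun x y => hp.SF_mono hδ hβ v0 hc0.le J x y)
    (fun x i => by
      rw [abs_of_nonneg (hS0 x i)]
      have := hSκ x i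
      have : 0 ≤ J * (c * β * δ⁻¹) := by positivity
      linarith)
    (fun x i j => by
      have := hp.AF_entry hδ hβ.le v0 hc0.le J x i j
      linarith)
    (fun i j => hp.AF_continuous hδ β v0 c J i j)
    (fun x => θ * Real.log (Zq p (bs β v0 x))) hgcont (hp.integrable_exp_logZ θ β v0) hgT
  -- products with the contact probabilities
  have hPX : ∀ i j, Integrable (fun x => Pr p i (bs β (v0 + δ) x) * hp.Xj hδ β v0 j x i) (gm ι) := by
    intro i j
    refine integrable_of_le_lin _ (((hp.continuous_Pr i).comp (continuous_bs β _)).mul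
      (hp.continuous_Xj hδ β v0 j i)).aestronglyMeasurable 1 0 zero_le_one le_rfl (fun x => ?_)
    have a1 := hp.Pr_nonneg i (bs β (v0 + δ) x)
    have a2 := hp.Pr_le_one i (bs β (v0 + δ) x)
    have a3 := hp.Xj_nonneg hδ β v0 j x i
    have a4 := hp.Xj_le_one hδ β v0 j x i
    rw [abs_of_nonneg (mul_nonneg a1 a3)]
    nlinarith
  have hPS : ∀ i, Integrable (fun x => Pr p i (bs β (v0 + δ) x) * S x i) (gm ι) := by
    intro i
    refine integrable_of_le_lin _ (((hp.continuous_Pr i).comp (continuous_bs β _)).mul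
      (hScont i)).aestronglyMeasurable κ 0 hκ.le le_rfl (fun x => ?_)
    have a1 := hp.Pr_nonneg i (bs β (v0 + δ) x)
    have a2 := hp.Pr_le_one i (bs β (v0 + δ) x)
    have a3 := hS0 x i
    have a4 := hSκ x i
    rw [abs_of_nonneg (mul_nonneg a1 a3), zero_mul, add_zero]
    calc _ ≤ 1 * κ := mul_le_mul a2 a4 a3 zero_le_one
      _ = κ := one_mul κ
  -- lower bound on the overlap
  have hover : κ * c2 * (R2 p β (v0 + δ) - (bulkᶜ).card) ≤
      ∫ x, ∑ i, Pr p i (bs β (v0 + δ) x) * S x i ∂(gm ι) := by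
    rw [integral_finsetSum _ (fun i _ => hPS i)]
    have h1 : ∀ i ∈ bulk, κ * c2 * ∫ x, Pr p i (bs β (v0 + δ) x) ^ 2 ∂(gm ι) ≤
        ∫ x, Pr p i (bs β (v0 + δ) x) * S x i ∂(gm ι) := by
      intro i hi
      have e : ∀ x, Pr p i (bs β (v0 + δ) x) * S x i =
          ∑ j ∈ Finset.range J, c * (Pr p i (bs β (v0 + δ) x) * hp.Xj hδ β v0 j x i) := by
        intro x
        rw [hS]
        unfold SF
        rw [Finset.mul_sum]
        apply Finset.sum_congr rfl
        intro j _; ring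
      simp_rw [e]
      rw [integral_finsetSum _ (fun j _ => (hPX i j).const_mul c)]
      simp_rw [integral_const_mul]
      calc κ * c2 * ∫ x, Pr p i (bs β (v0 + δ) x) ^ 2 ∂(gm ι)
          = ∑ j ∈ Finset.range J, c * (c2 * ∫ x, Pr p i (bs β (v0 + δ) x) ^ 2 ∂(gm ι)) := by
            rw [Finset.sum_const, Finset.card_range, nsmul_eq_mul, ← hJc]; ring
        _ ≤ _ := by
            apply Finset.sum_le_sum
            intro j hj
            apply mul_le_mul_of_nonneg_left _ hc0.le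
            exact hp.overlap_j hQ hβ.le hδ j hV1 (hV2 j (Finset.mem_range.1 hj)) i hi
    have h2 : ∀ i, ∫ x, Pr p i (bs β (v0 + δ) x) ^ 2 ∂(gm ι) ≤ 1 := by
      intro i
      have : ∫ x, Pr p i (bs β (v0 + δ) x) ^ 2 ∂(gm ι) ≤ ∫ _x : ι → ℝ, (1:ℝ) ∂(gm ι) := by
        apply integral_mono (hp.integrable_P2 i β (v0 + δ)) (integrable_const _)
        intro x
        have a1 := hp.Pr_nonneg i (bs β (v0 + δ) x)
        have a2 := hp.Pr_le_one i (bs β (v0 + δ) x)
        simp only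
        nlinarith
      simpa using this
    have h3 : R2 p β (v0 + δ) - (bulkᶜ).card ≤ ∑ i ∈ bulk, ∫ x, Pr p i (bs β (v0 + δ) x) ^ 2 ∂(gm ι) := by
      unfold R2
      rw [integral_finsetSum _ (fun i _ => hp.integrable_P2 i β (v0 + δ)),
        ← Finset.sum_add_sum_compl bulk]
      have h4 : ∑ i ∈ bulkᶜ, ∫ x, Pr p i (bs β (v0 + δ) x) ^ 2 ∂(gm ι) ≤ (bulkᶜ).card := by
        calc _ ≤ ∑ i ∈ bulkᶜ, (1:ℝ) := Finset.sum_le_sum fun i _ => h2 i
          _ = _ := by simp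
      linarith
    calc κ * c2 * (R2 p β (v0 + δ) - (bulkᶜ).card)
        ≤ κ * c2 * ∑ i ∈ bulk, ∫ x, Pr p i (bs β (v0 + δ) x) ^ 2 ∂(gm ι) :=
          mul_le_mul_of_nonneg_left h3 (by positivity)
      _ = ∑ i ∈ bulk, κ * c2 * ∫ x, Pr p i (bs β (v0 + δ) x) ^ 2 ∂(gm ι) := Finset.mul_sum _ _ _
      _ ≤ ∑ i ∈ bulk, ∫ x, Pr p i (bs β (v0 + δ) x) * S x i ∂(gm ι) := Finset.sum_le_sum h1
      _ ≤ ∑ i, ∫ x, Pr p i (bs β (v0 + δ) x) * S x i ∂(gm ι) := by
          apply Finset.sum_le_sum_of_subset_of_nonneg (Finset.subset_univ _)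
          intro i _ _
          exact integral_nonneg fun x => mul_nonneg (hp.Pr_nonneg i _) (hS0 x i)
  -- gain
  have hgain : θ * L p β (v0 + δ) - θ * (β * κ * c2 * (bulkᶜ).card) ≤
      ∫ x, θ * Real.log (Zq p (bs β v0 (x + S x))) ∂(gm ι) := by
    have hpt : ∀ x : ι → ℝ, Real.log (Zq p (bs β (v0 + δ) x)) +
        (β * ∑ i, Pr p i (bs β (v0 + δ) x) * S x i - δ * ∑ i, Pr p i (bs β (v0 + δ) x)) ≤
        Real.log (Zq p (bs β v0 (x + S x))) := by
      intro x
      have h := hp.log_convex (bs β (v0 + δ) x) (bs β v0 (x + S x))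
      have e : β * ∑ i, Pr p i (bs β (v0 + δ) x) * S x i - δ * ∑ i, Pr p i (bs β (v0 + δ) x)
          = ∑ i, Pr p i (bs β (v0 + δ) x) * (bs β v0 (x + S x) i - bs β (v0 + δ) x i) := by
        rw [Finset.mul_sum, Finset.mul_sum, ← Finset.sum_sub_distrib]
        apply Finset.sum_congr rfl
        intro i _
        unfold bs; simp only [Pi.add_apply]; ring
      linarith
    have i1 := hp.integrable_logZ β (v0 + δ)
    have i2 := hp.integrable_sumP β (v0 + δ)
    have i3 : Integrable (fun x => ∑ i, Pr p i (bs β (v0 + δ) x) * S x i) (gm ι) :=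
      integrable_finsetSum _ fun i _ => hPS i
    have h := integral_mono (i1.add ((i3.const_mul β).sub (i2.const_mul δ)))
      ((integrable_const_mul_iff (isUnit_iff_ne_zero.2 hθ.ne') _).1 hgT) hpt
    rw [integral_add' i1 ((i3.const_mul β).sub (i2.const_mul δ)),
      integral_sub' (i3.const_mul β) (i2.const_mul δ), integral_const_mul, integral_const_mul] at h
    have h5 : L p β (v0 + δ) + (β * (∫ x, ∑ i, Pr p i (bs β (v0 + δ) x) * S x i ∂(gm ι)) -
        δ * R1 p β (v0 + δ)) ≤ ∫ x, Real.log (Zq p (bs β v0 (x + S x))) ∂(gm ι) := h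
    rw [integral_const_mul, ← mul_sub]
    apply mul_le_mul_of_nonneg_left _ hθ.le
    have h6 := mul_le_mul_of_nonneg_left hover hβ.le
    have h7 : β * (κ * c2 * (R2 p β (v0 + δ) - (bulkᶜ).card)) =
        β * κ * c2 * R2 p β (v0 + δ) - β * κ * c2 * (bulkᶜ).card := by ring
    rw [h7] at h6
    linarith
  -- masses
  have hXi : ∀ j, Integrable (fun x => ∑ i, hp.Xj hδ β v0 j x i) (gm ι) := by
    intro j
    refine integrable_finsetSum _ fun i _ => ?_
    refine integrable_of_le_lin _ (hp.continuous_Xj hδ β v0 j i).aestronglyMeasurable 1 0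
      zero_le_one le_rfl (fun x => ?_)
    rw [abs_of_nonneg (hp.Xj_nonneg hδ β v0 j x i)]
    simpa using hp.Xj_le_one hδ β v0 j x i
  have hmass : ∀ j, ∫ x, ∑ i, hp.Xj hδ β v0 j x i ∂(gm ι) ≤
      (L p β (v0 + 2 ^ (j + 2) * δ) - L p β (v0 + δ)) / (2 ^ j * δ) := by
    intro j
    have i1 := hp.integrable_logZ β (v0 + 2 ^ (j + 2) * δ)
    have i2 := hp.integrable_logZ β (v0 + δ)
    have h := integral_mono (hXi j) ((i1.sub i2).div_const (2 ^ j * δ))
      (fun x => hp.Xj_sum_le hδ β v0 j x)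
    rw [integral_div, integral_sub' i1 i2] at h
    exact h
  -- cost 1
  have hcost1 : ∫ x, (A x * A x).trace ∂(gm ι)
      ≤ (c * β)^2 * ∑ j ∈ Finset.range J, 4 *
        ((((L p β (v0 + 2 ^ (j + 2) * δ) - L p β (v0 + δ)) / (2 ^ j * δ)) / δ) * ((1:ℝ)/2)^j) := by
    have hint : Integrable (fun x => (c * β)^2 * ∑ j ∈ Finset.range J,
        4 * (((∑ i, hp.Xj hδ β v0 j x i) / δ) * ((1:ℝ)/2)^j)) (gm ι) :=
      (integrable_finsetSum _ fun j _ =>
        ((((hXi j).div_const δ).mul_const _).const_mul 4)).const_mul _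
    have h1 : ∫ x, (A x * A x).trace ∂(gm ι) ≤ ∫ x, (c * β)^2 * ∑ j ∈ Finset.range J,
        4 * (((∑ i, hp.Xj hδ β v0 j x i) / δ) * ((1:ℝ)/2)^j) ∂(gm ι) := by
      apply integral_mono_of_nonneg _ hint (Filter.Eventually.of_forall fun x =>
        hp.AF_trace hδ β v0 c J x)
      refine Filter.Eventually.of_forall fun x => ?_
      have hpsd := hp.AF_psd hδ hβ.le v0 hc0.le J x
      exact trace_mul_nonneg _ _ hpsd hpsd
    refine h1.trans ?_
    rw [integral_const_mul, integral_finsetSum _ (fun j _ =>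
        ((((hXi j).div_const δ).mul_const _).const_mul 4))]
    apply mul_le_mul_of_nonneg_left _ (sq_nonneg _)
    apply Finset.sum_le_sum
    intro j _
    rw [integral_const_mul, integral_mul_const, integral_div]
    have := hmass j
    gcongr
  have hcost2 : ∫ x, ∑ i, S x i ^ 2 ∂(gm ι) ≤ κ ^ 2 / J * (∑ j ∈ Finset.range J,
      (L p β (v0 + 2 ^ (j + 2) * δ) - L p β (v0 + δ)) / (2 ^ j * δ)) := by
    have h1 : ∫ x, ∑ i, S x i ^ 2 ∂(gm ι) ≤
        ∫ x, κ * ∑ j ∈ Finset.range J, c * ∑ i, hp.Xj hδ β v0 j x i ∂(gm ι) := by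
      apply integral_mono_of_nonneg _
        ((integrable_finsetSum _ fun j _ => (hXi j).const_mul c).const_mul κ)
      · refine Filter.Eventually.of_forall fun x => ?_
        simp only
        have e : ∑ j ∈ Finset.range J, c * ∑ i, hp.Xj hδ β v0 j x i = ∑ i, S x i := by
          rw [hS]
          unfold SF
          simp_rw [Finset.mul_sum]
          rw [Finset.sum_comm]
        rw [e, Finset.mul_sum]
        apply Finset.sum_le_sum
        intro i _
        have a1 := hS0 x i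
        have a2 := hSκ x i
        rw [_root_.sq]
        exact mul_le_mul_of_nonneg_right a2 a1
      · exact Filter.Eventually.of_forall fun x => Finset.sum_nonneg fun i _ => sq_nonneg _
    refine h1.trans ?_
    rw [integral_const_mul, integral_finsetSum _ (fun j _ => (hXi j).const_mul c)]
    simp_rw [integral_const_mul]
    rw [← Finset.mul_sum]
    have e : κ ^ 2 / J = κ * c := by rw [hc]; ring
    rw [e, mul_assoc]
    apply mul_le_mul_of_nonneg_left _ hκ.le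
    apply mul_le_mul_of_nonneg_left _ hc0.le
    exact Finset.sum_le_sum fun j _ => hmass j
  have hfin := htr
  linarith

end PN

end H98G
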