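import Pool.Agent.Helper98.CopG.PrQM
import Pool.Agent.Helper98.CopG.FVMain
import Pool.Agent.Helper98.Cop.Crit
import Pool.Agent.Helper98.Cop.FracMom

set_option autoImplicit false

/-! # Bridge between the path model and the finite Gibbs model -/

namespace H98G

open MeasureTheory ProbabilityTheory Filter Topology
open Cop764 (Data)
open H98Cop (gm)

/-- all the data with standard Gaussian disorder -/
noncomputable def Ker.D (k : Ker) (lam : ℝ) (hlam : 0 < lam) : Data where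
  κ := k.κ
  κ0 := k.κ0
  α := k.α
  cK := k.cK
  hα := k.hα
  hcK := k.hcK
  htail := k.htail
  ν := gaussianReal 0 1
  hν := inferInstance
  mean := by simp
  var := by
    have h := variance_fun_id_gaussianReal (μ := 0) (v := 1)
    rw [variance_eq_integral (by fun_prop)] at h
    simpa using h
  expm := fun t => integrable_exp_mul_gaussianReal t
  lam := lam
  hlam := hlam

/-- restriction and sign flip of the disorder -/
noncomputable def flipR (ℓ : ℕ) (ω : ℕ → ℝ) : Ix ℓ → ℝ := fun i => -ω i.1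

theorem flipR_mp (ℓ : ℕ) :
    MeasurePreserving (flipR ℓ) (Cop764.disorder (gaussianReal 0 1)) (gm (Ix ℓ)) := by
  have h1 : MeasurePreserving ((Finset.Ioc 0 ℓ).restrict (π := fun _ : ℕ => ℝ))
      (Cop764.disorder (gaussianReal 0 1)) (Measure.pi fun _ : Ix ℓ => gaussianReal 0 1) := by
    refine ⟨by fun_prop, ?_⟩
    unfold Cop764.disorder
    exact Measure.infinitePi_map_restrict (fun _ : ℕ => gaussianReal 0 1)
  have h2 : MeasurePreserving (fun (x : Ix ℓ → ℝ) (i : Ix ℓ) => -x i)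
      (Measure.pi fun _ : Ix ℓ => gaussianReal 0 1) (Measure.pi fun _ : Ix ℓ => gaussianReal 0 1) := by
    apply measurePreserving_pi _ _ (f := fun (_ : Ix ℓ) (y : ℝ) => -y)
    intro i
    refine ⟨by fun_prop, ?_⟩
    have := gaussianReal_map_neg (μ := 0) (v := 1)
    simpa using this
  exact h2.comp h1

theorem Ker.G_bs (k : Ker) (lam : ℝ) (hlam : 0 < lam) (h : ℝ) (ℓ : ℕ) (ω : ℕ → ℝ) :
    Cop764.G (k.D lam hlam).K ((k.D lam hlam).w h ω) 0 ℓ
      = Zq (k.p ℓ) (bs (2 * lam) (-(2 * lam) * h) (flipR ℓ ω)) := by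
  have e : (k.D lam hlam).K = fun n => (k.κ n).toReal := rfl
  rw [e, k.G_eq]
  congr 1
  funext i
  unfold Cop764.Data.w bs flipR
  have : (k.D lam hlam).lam = lam := rfl
  rw [this]; ring

theorem Ker.integral_bridge (k : Ker) (lam : ℝ) (hlam : 0 < lam) (h : ℝ) (ℓ : ℕ) (hℓ : k.nn ≤ ℓ)
    (φ : ℝ → ℝ) (hφ : ContinuousOn φ (Set.Ioi 0)) :
    ∫ ω, φ (Cop764.G (k.D lam hlam).K ((k.D lam hlam).w h ω) 0 ℓ) ∂(k.D lam hlam).P
      = ∫ x, φ (Zq (k.p ℓ) (bs (2 * lam) (-(2 * lam) * h) x)) ∂(gm (Ix ℓ)) := by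
  have hmp := flipR_mp ℓ
  have hc : Continuous (fun x => φ (Zq (k.p ℓ) (bs (2 * lam) (-(2 * lam) * h) x))) := by
    have h1 : Continuous (fun x => Zq (k.p ℓ) (bs (2 * lam) (-(2 * lam) * h) x)) :=
      (continuous_Zq _).comp (continuous_bs _ _)
    exact hφ.comp_continuous h1 fun x => (k.pn ℓ hℓ).Zpos _
  rw [← hmp.map_eq, integral_map hmp.measurable.aemeasurable hc.aestronglyMeasurable]
  unfold Cop764.Data.P
  apply integral_congr_ae
  filter_upwards with ω
  rw [k.G_bs]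

theorem Ker.integral_lG (k : Ker) (lam : ℝ) (hlam : 0 < lam) (h : ℝ) (ℓ : ℕ) (hℓ : k.nn ≤ ℓ) :
    ∫ ω, (k.D lam hlam).lG h 0 ℓ ω ∂(k.D lam hlam).P = L (k.p ℓ) (2 * lam) (-(2 * lam) * h) := by
  unfold Cop764.Data.lG L
  exact k.integral_bridge lam hlam h ℓ hℓ Real.log
    (Real.continuousOn_log.mono fun x hx => (ne_of_gt hx))

end H98G
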