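import Pool.Agent.Helper98.CopG.Rel

set_option autoImplicit false

/-! # Local comparisons of renewal weights and the two sided partition functions -/

namespace H98G

/-- further hypotheses on the kernel -/
structure KH2 (n : ℕ) (k : ℕ → ℝ) (C1 : ℝ) : Prop where
  npos : 1 ≤ n
  nonneg : ∀ m, 0 ≤ k m
  C10 : 1 ≤ C1
  le_one : ∀ m, k m ≤ 1
  h3 : ∀ r r', n ≤ r → r' ≤ r + 4 * n → r < r' + n → k r' ≤ C1 * k r
  h4 : ∀ r, n ≤ r → r ≤ 4 * n → 1 ≤ C1 * k r

section

variable {n : ℕ} {k : ℕ → ℝ} {C1 : ℝ} (hk : KH2 n k C1)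
include hk

theorem Lcomp_far (b : ℕ → ℝ) (g t : ℕ) (h1 : g + n ≤ t) (h2 : t ≤ g + 4 * n) :
    Lf k b g ≤ C1 * Lf k b t := by
  have hn := hk.npos
  have hL := Lf_nonneg k b hk.nonneg g
  have hC := hk.C10
  have h4 := hk.h4 (t - g) (by omega) (by omega)
  have h5 : Lf k b g * k (t - g) ≤ Lf k b t := by
    rw [Lf_eq k b (by omega : 0 < t)]
    have h6 : Lf k b g * (Real.exp (Sf b g t) + 1) * k (t - g) ≤
        ∑ x ∈ Finset.range t, Lf k b x * (Real.exp (Sf b x t) + 1) * k (t - x) := by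
      apply Finset.single_le_sum (f := fun x => Lf k b x * (Real.exp (Sf b x t) + 1) * k (t - x))
      · intro x _
        have := Lf_nonneg k b hk.nonneg x
        have := hk.nonneg (t - x)
        positivity
      · exact Finset.mem_range.2 (by omega)
    have h7 := Real.exp_pos (Sf b g t)
    have h8 := hk.nonneg (t - g)
    have h9 : 0 ≤ Lf k b g * k (t - g) := by positivity
    calc Lf k b g * k (t - g) ≤ Lf k b g * (Real.exp (Sf b g t) + 1) * k (t - g) := by nlinarith
      _ ≤ _ := h6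
  calc Lf k b g = Lf k b g * 1 := (mul_one _).symm
    _ ≤ Lf k b g * (C1 * k (t - g)) := mul_le_mul_of_nonneg_left h4 hL
    _ = C1 * (Lf k b g * k (t - g)) := by ring
    _ ≤ C1 * Lf k b t := mul_le_mul_of_nonneg_left h5 (by linarith)

theorem Lcomp_near (b : ℕ → ℝ) (lo hi t : ℕ) (σ : ℝ) (hσ0 : 0 ≤ σ)
    (hσ : ∀ m1 m2, lo ≤ m1 → m1 ≤ m2 → m2 ≤ hi → |Sf b m1 m2| ≤ σ)
    (hlo : lo + n ≤ t + 1) (ht : t ≤ hi) (hn : n ≤ t) (g : ℕ) :
    t < g + n → g ≤ hi → g ≤ t + 4 * n →
    Lf k b g ≤ C1 * Real.exp σ * (2 + Real.exp σ) ^ (g + n - t - 1) * Lf k b t := by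
  have hn1 := hk.npos
  have hC := hk.C10
  set E := Real.exp σ with hE
  have hE1 : 1 ≤ E := Real.one_le_exp hσ0
  induction g using Nat.strong_induction_on with
  | _ g ih =>
    intro h1 h2 h3
    have hg0 : 0 < g := by omega
    have hLt := Lf_nonneg k b hk.nonneg t
    rw [Lf_eq k b hg0]
    -- bound each term
    have hterm : ∀ x ∈ Finset.range g, Lf k b x * (Real.exp (Sf b x g) + 1) * k (g - x) ≤
        (if x + n ≤ t then C1 * E * (Lf k b x * (Real.exp (Sf b x t) + 1) * k (t - x)) else 0) +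
        (if t < x + n then (1 + E) * (C1 * E * (2 + E) ^ (x + n - t - 1) * Lf k b t) else 0) := by
      intro x hx
      have hx' := Finset.mem_range.1 hx
      have hLx := Lf_nonneg k b hk.nonneg x
      have hkx := hk.nonneg (g - x)
      have hkt := hk.nonneg (t - x)
      by_cases hxt : x + n ≤ t
      · rw [if_pos hxt, if_neg (by omega), add_zero]
        have a1 := hk.h3 (t - x) (g - x) (by omega) (by omega) (by omega)
        have a2 : Real.exp (Sf b x g) ≤ E * Real.exp (Sf b x t) := by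
          rw [hE, ← Real.exp_add]
          apply Real.exp_le_exp.2
          rcases le_total t g with h | h
          · have e := Sf_add b (by omega : x ≤ t) h
            have := hσ t g (by omega) h h2
            have := le_abs_self (Sf b t g)
            linarith
          · have e := Sf_add b (by omega : x ≤ g) h
            have := hσ g t (by omega) h (by omega)
            have := neg_abs_le (Sf b g t)
            linarith
        have a3 : Real.exp (Sf b x g) + 1 ≤ E * (Real.exp (Sf b x t) + 1) := by linarith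
        have a4 := Real.exp_pos (Sf b x t)
        calc Lf k b x * (Real.exp (Sf b x g) + 1) * k (g - x)
            ≤ Lf k b x * (E * (Real.exp (Sf b x t) + 1)) * (C1 * k (t - x)) := by gcongr
          _ = _ := by ring
      · rw [if_neg hxt, if_pos (by omega), zero_add]
        have a1 := ih x hx' (by omega) (by omega) (by omega)
        have a2 : Real.exp (Sf b x g) ≤ E := by
          apply Real.exp_le_exp.2
          exact (le_abs_self _).trans (hσ x g (by omega) (by omega) h2)
        have a3 := hk.le_one (g - x)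
        have a4 : 0 ≤ C1 * E * (2 + E) ^ (x + n - t - 1) * Lf k b t := by positivity
        calc Lf k b x * (Real.exp (Sf b x g) + 1) * k (g - x)
            ≤ Lf k b x * (Real.exp (Sf b x g) + 1) * 1 := by gcongr
          _ = (Real.exp (Sf b x g) + 1) * Lf k b x := by ring
          _ ≤ (1 + E) * (C1 * E * (2 + E) ^ (x + n - t - 1) * Lf k b t) := by
              apply mul_le_mul _ a1 hLx (by positivity)
              linarith
    refine (Finset.sum_le_sum hterm).trans ?_
    rw [Finset.sum_add_distrib]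
    -- first sum
    have s1 : (∑ x ∈ Finset.range g, if x + n ≤ t then
        C1 * E * (Lf k b x * (Real.exp (Sf b x t) + 1) * k (t - x)) else 0) ≤ C1 * E * Lf k b t := by
      rw [Lf_eq k b (by omega : 0 < t), Finset.mul_sum, ← Finset.sum_filter]
      apply Finset.sum_le_sum_of_subset_of_nonneg
      · intro x hx
        rw [Finset.mem_filter, Finset.mem_range] at hx
        rw [Finset.mem_range]; omega
      · intro x _ _
        have := Lf_nonneg k b hk.nonneg x
        have := hk.nonneg (t - x)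
        positivity
    -- second sum
    have s2 : (∑ x ∈ Finset.range g, if t < x + n then
        (1 + E) * (C1 * E * (2 + E) ^ (x + n - t - 1) * Lf k b t) else 0) =
        C1 * E * Lf k b t * ((2 + E) ^ (g + n - t - 1) - 1) := by
      rw [← Finset.sum_filter]
      have e1 : (Finset.range g).filter (fun x => t < x + n) = Finset.Ico (t + 1 - n) g := by
        ext x; simp only [Finset.mem_filter, Finset.mem_range, Finset.mem_Ico]; omega
      rw [e1, Finset.sum_Ico_eq_sum_range]
      have e2 : ∀ i ∈ Finset.range (g - (t + 1 - n)),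
          (1 + E) * (C1 * E * (2 + E) ^ (t + 1 - n + i + n - t - 1) * Lf k b t) =
          ((1 + E) * (C1 * E * Lf k b t)) * (2 + E) ^ i := by
        intro i _
        rw [show t + 1 - n + i + n - t - 1 = i by omega]; ring
      rw [Finset.sum_congr rfl e2, ← Finset.mul_sum]
      have e3 : g - (t + 1 - n) = g + n - t - 1 := by omega
      rw [e3]
      have e4 := geom_sum_eq (x := 2 + E) (by linarith) (g + n - t - 1)
      rw [e4]
      have : 2 + E - 1 ≠ 0 := by linarith
      field_simp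
      ring
    rw [s2]
    calc _ ≤ C1 * E * Lf k b t + C1 * E * Lf k b t * ((2 + E) ^ (g + n - t - 1) - 1) := by linarith
      _ = _ := by ring

/-- the comparison constant -/
noncomputable def Mc (n : ℕ) (C1 σ : ℝ) : ℝ := C1 * Real.exp σ * (2 + Real.exp σ) ^ (5 * n)

omit hk in
theorem Mc_ge (n : ℕ) {C1 σ : ℝ} (hC : 1 ≤ C1) (hσ0 : 0 ≤ σ) : C1 ≤ Mc n C1 σ := by
  have h1 : 1 ≤ Real.exp σ := Real.one_le_exp hσ0
  have h2 : 1 ≤ (2 + Real.exp σ) ^ (5 * n) := one_le_pow₀ (by linarith)
  unfold Mc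
  calc C1 = C1 * 1 * 1 := by ring
    _ ≤ C1 * Real.exp σ * (2 + Real.exp σ) ^ (5 * n) := by gcongr

theorem Lcomp (b : ℕ → ℝ) (lo hi t : ℕ) (σ : ℝ) (hσ0 : 0 ≤ σ)
    (hσ : ∀ m1 m2, lo ≤ m1 → m1 ≤ m2 → m2 ≤ hi → |Sf b m1 m2| ≤ σ)
    (hlo : lo + n ≤ t + 1) (ht : t ≤ hi) (hn : n ≤ t) (g : ℕ)
    (h1 : t ≤ g + 4 * n) (h2 : g ≤ hi) (h3 : g ≤ t + 4 * n) :
    Lf k b g ≤ Mc n C1 σ * Lf k b t := by
  have hC := hk.C10
  have hLt := Lf_nonneg k b hk.nonneg t
  rcases le_or_gt (g + n) t with h | h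
  · exact (Lcomp_far hk b g t h h1).trans (mul_le_mul_of_nonneg_right (Mc_ge n hC hσ0) hLt)
  · refine (Lcomp_near hk b lo hi t σ hσ0 hσ hlo ht hn g h h2 h3).trans ?_
    apply mul_le_mul_of_nonneg_right _ hLt
    unfold Mc
    have h1 : 1 ≤ Real.exp σ := Real.one_le_exp hσ0
    have : (2 + Real.exp σ) ^ (g + n - t - 1) ≤ (2 + Real.exp σ) ^ (5 * n) :=
      pow_le_pow_right₀ (by linarith) (by omega)
    gcongr

/-- one excursion leaving the system -/
noncomputable def Uf (k c : ℕ → ℝ) (J r : ℕ) : ℝ := ∑ y ∈ Finset.range (J + 1), Lf k c y * k (J - y + r)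

theorem Ucomp (c : ℕ → ℝ) (J r : ℕ) (σ : ℝ) (hσ0 : 0 ≤ σ)
    (hσ : ∀ m1 m2, J - 2 * n ≤ m1 → m1 ≤ m2 → m2 ≤ J → |Sf c m1 m2| ≤ σ)
    (hJ : 2 * n ≤ J) (hr : r ≤ 4 * n) :
    Uf k c J r ≤ (n + 1) * Mc n C1 σ * Lf k c J := by
  have hn1 := hk.npos
  have hC := hk.C10
  have hM := Mc_ge n hC hσ0
  have hLJ := Lf_nonneg k c hk.nonneg J
  unfold Uf
  have hterm : ∀ y ∈ Finset.range (J + 1), Lf k c y * k (J - y + r) ≤
      (if y + n ≤ J then C1 * (Lf k c y * (Real.exp (Sf c y J) + 1) * k (J - y)) else 0) +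
      (if J < y + n then Mc n C1 σ * Lf k c J else 0) := by
    intro y hy
    have hy' := Finset.mem_range.1 hy
    have hLy := Lf_nonneg k c hk.nonneg y
    have hky := hk.nonneg (J - y)
    by_cases h : y + n ≤ J
    · rw [if_pos h, if_neg (by omega), add_zero]
      have a1 := hk.h3 (J - y) (J - y + r) (by omega) (by omega) (by omega)
      have a2 := Real.exp_pos (Sf c y J)
      have a3 : 0 ≤ Lf k c y * k (J - y) := by positivity
      calc Lf k c y * k (J - y + r) ≤ Lf k c y * (C1 * k (J - y)) := by gcongr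
        _ = C1 * (Lf k c y * 1 * k (J - y)) := by ring
        _ ≤ C1 * (Lf k c y * (Real.exp (Sf c y J) + 1) * k (J - y)) := by
            have : (1:ℝ) ≤ Real.exp (Sf c y J) + 1 := by linarith
            gcongr
    · rw [if_neg h, if_pos (by omega), zero_add]
      have a1 := Lcomp hk c (J - 2 * n) J J σ hσ0 hσ (by omega) le_rfl (by omega) y (by omega)
        (by omega) (by omega)
      have a2 := hk.le_one (J - y + r)
      calc Lf k c y * k (J - y + r) ≤ Lf k c y * 1 := by gcongr
        _ = Lf k c y := mul_one _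
        _ ≤ _ := a1
  refine (Finset.sum_le_sum hterm).trans ?_
  rw [Finset.sum_add_distrib]
  have s1 : (∑ y ∈ Finset.range (J + 1), if y + n ≤ J then
      C1 * (Lf k c y * (Real.exp (Sf c y J) + 1) * k (J - y)) else 0) ≤ C1 * Lf k c J := by
    rw [Lf_eq k c (by omega : 0 < J), Finset.mul_sum, ← Finset.sum_filter]
    apply Finset.sum_le_sum_of_subset_of_nonneg
    · intro x hx
      rw [Finset.mem_filter, Finset.mem_range] at hx
      rw [Finset.mem_range]; omega
    · intro x _ _
      have := Lf_nonneg k c hk.nonneg x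
      have := hk.nonneg (J - x)
      positivity
  have s2 : (∑ y ∈ Finset.range (J + 1), if J < y + n then Mc n C1 σ * Lf k c J else 0) =
      n * (Mc n C1 σ * Lf k c J) := by
    rw [← Finset.sum_filter, Finset.sum_const, nsmul_eq_mul]
    congr 2
    have e1 : (Finset.range (J + 1)).filter (fun x => J < x + n) = Finset.Ico (J + 1 - n) (J + 1) := by
      ext x; simp only [Finset.mem_filter, Finset.mem_range, Finset.mem_Ico]; omega
    rw [e1, Nat.card_Ico]; omega
  rw [s2]
  have s3 : C1 * Lf k c J ≤ Mc n C1 σ * Lf k c J := mul_le_mul_of_nonneg_right hM hLJ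
  calc _ ≤ Mc n C1 σ * Lf k c J + n * (Mc n C1 σ * Lf k c J) := by linarith
    _ = _ := by ring

end

/-! ## two sided partition functions -/

/-- two sided partition function with an excursion of colour `ε` over the middle site -/
noncomputable def Tf (k b c : ℕ → ℝ) (ε : ℝ) (I J : ℕ) : ℝ :=
  ∑ x ∈ Finset.range (I + 1), ∑ y ∈ Finset.range (J + 1),
    (Lf k b x * Real.exp (ε * Sf b x I)) * (Lf k c y * Real.exp (ε * Sf c y J)) * k (I - x + (J - y) + 1)

theorem Tf_symm (k b c : ℕ → ℝ) (ε : ℝ) (I J : ℕ) : Tf k b c ε I J = Tf k c b ε J I := by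
  unfold Tf
  rw [Finset.sum_comm]
  apply Finset.sum_congr rfl
  intro y _
  apply Finset.sum_congr rfl
  intro x _
  rw [show J - y + (I - x) + 1 = I - x + (J - y) + 1 by omega]
  ring

theorem Tf_nonneg (k b c : ℕ → ℝ) (hk : ∀ m, 0 ≤ k m) (ε : ℝ) (I J : ℕ) : 0 ≤ Tf k b c ε I J :=
  Finset.sum_nonneg fun x _ => Finset.sum_nonneg fun y _ => by
    have := Lf_nonneg k b hk x
    have := Lf_nonneg k c hk y
    have := hk (I - x + (J - y) + 1)
    positivity

theorem Tf_eq (k b c : ℕ → ℝ) (ε : ℝ) (I J : ℕ) :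
    Tf k b c ε I J = ∑ y ∈ Finset.range (J + 1),
      (Lf k c y * Real.exp (ε * Sf c y J)) * Ff k b ε I (I + 1 + (J - y)) := by
  unfold Tf Ff
  rw [Finset.sum_comm]
  apply Finset.sum_congr rfl
  intro y _
  rw [Finset.mul_sum]
  apply Finset.sum_congr rfl
  intro x hx
  have hx' := Finset.mem_range.1 hx
  unfold af
  rw [show I + 1 + (J - y) - x = I - x + (J - y) + 1 by omega]
  ring

/-- the part with a long zero excursion around the middle site -/
noncomputable def Tfar (n : ℕ) (k b c : ℕ → ℝ) (I J : ℕ) : ℝ :=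
  ∑ x ∈ Finset.range (I + 1), ∑ y ∈ Finset.range (J + 1),
    if x + 3 * n ≤ I + 1 ∧ y + 3 * n ≤ J + 1 then
      Lf k b x * Lf k c y * k (I - x + (J - y) + 1) else 0

/-- the star inequality -/
theorem star {n : ℕ} {k : ℕ → ℝ} {CP C0 : ℝ} (hk : KH n k CP C0) (C : ℝ) (hC1 : CP ≤ C)
    (hC2 : C0 ^ 2 + 2 * C0 ≤ C) (b1 b2 c : ℕ → ℝ) (I J : ℕ) (hb : ∀ j, 1 ≤ j → j ≤ I → b2 j ≤ b1 j) :
    Tf k b2 c 1 I J * Tfar n k b1 c I J ≤ C * (Tf k b1 c 1 I J * Tf k b2 c 0 I J) := by
  have hn := hk.npos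
  have hrel := Rel_all hk b1 b2 C hC1 hC2 I hb
  have hC0 : 0 ≤ C := by have := hk.CP0; linarith
  have hfar : Tfar n k b1 c I J = ∑ y ∈ Finset.range (J + 1), Lf k c y *
      (∑ s ∈ Finset.range (I + 1), if s + 3 * n ≤ I + 1 ∧ y + 3 * n ≤ J + 1 then
        af k b1 0 I s (I + 1 + (J - y)) else 0) := by
    unfold Tfar
    rw [Finset.sum_comm]
    apply Finset.sum_congr rfl
    intro y _
    rw [Finset.mul_sum]
    apply Finset.sum_congr rfl
    intro s hs
    have hs' := Finset.mem_range.1 hs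
    unfold af
    rw [show I + 1 + (J - y) - s = I - s + (J - y) + 1 by omega]
    split_ifs
    · simp; ring
    · simp
  rw [hfar, Tf_eq k b2 c 1, Tf_eq k b1 c 1, Tf_eq k b2 c 0, Finset.sum_mul_sum, Finset.sum_mul_sum,
    Finset.mul_sum]
  apply Finset.sum_le_sum
  intro y hy
  rw [Finset.mul_sum]
  apply Finset.sum_le_sum
  intro y' hy'
  have g1 := Lf_nonneg k c hk.nonneg y
  have g2 := Lf_nonneg k c hk.nonneg y'
  set u := I + 1 + (J - y) with hu
  set v := I + 1 + (J - y') with hv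
  have hkey : Ff k b2 1 I u * (∑ s ∈ Finset.range (I + 1),
      if s + 3 * n ≤ I + 1 ∧ y' + 3 * n ≤ J + 1 then af k b1 0 I s v else 0) ≤
      C * (Ff k b1 1 I u * Ff k b2 0 I v) := by
    have hr := (hrel u v (by omega) (by omega)).1
    refine le_trans ?_ hr
    unfold Ff LH
    rw [Finset.sum_mul_sum]
    apply Finset.sum_le_sum
    intro x hx
    apply Finset.sum_le_sum
    intro s hs
    have hx' := Finset.mem_range.1 hx
    have hs' := Finset.mem_range.1 hs
    have p1 := af_nonneg k b2 hk.nonneg 1 I x u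
    have p2 := af_nonneg k b1 hk.nonneg 0 I s v
    by_cases h : s + 3 * n ≤ I + 1 ∧ y' + 3 * n ≤ J + 1
    · rw [if_pos h, if_pos (by unfold inc; omega)]
    · rw [if_neg h, mul_zero]
      split_ifs
      · positivity
      · exact le_rfl
  have q : 0 ≤ Lf k c y * Real.exp (1 * Sf c y J) * Lf k c y' := by positivity
  calc Lf k c y * Real.exp (1 * Sf c y J) * Ff k b2 1 I u * (Lf k c y' *
        ∑ s ∈ Finset.range (I + 1), if s + 3 * n ≤ I + 1 ∧ y' + 3 * n ≤ J + 1 then
          af k b1 0 I s v else 0)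
      = (Lf k c y * Real.exp (1 * Sf c y J) * Lf k c y') * (Ff k b2 1 I u *
        ∑ s ∈ Finset.range (I + 1), if s + 3 * n ≤ I + 1 ∧ y' + 3 * n ≤ J + 1 then
          af k b1 0 I s v else 0) := by ring
    _ ≤ (Lf k c y * Real.exp (1 * Sf c y J) * Lf k c y') * (C * (Ff k b1 1 I u * Ff k b2 0 I v)) :=
        mul_le_mul_of_nonneg_left hkey q
    _ = _ := by simp only [zero_mul, Real.exp_zero]; ring

end H98G
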