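import Mathlib

set_option autoImplicit false

/-! # Finite Gibbs measures on `Finset ι` with an external field -/

namespace H98G

open Finset

variable {ι : Type*} [Fintype ι] [DecidableEq ι]

/-- hypotheses on the reference weights -/
structure PN (p : Finset ι → ℝ) : Prop where
  nonneg : ∀ A, 0 ≤ p A
  pos : ∃ A, 0 < p A

/-- `Z_q(x) = ∑_A q_A exp(x·A)` -/
noncomputable def Zq (q : Finset ι → ℝ) (x : ι → ℝ) : ℝ := ∑ A, q A * Real.exp (∑ i ∈ A, x i)

/-- restriction of the weights to the sets containing `i` -/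
def qi (p : Finset ι → ℝ) (i : ι) : Finset ι → ℝ := fun A => if i ∈ A then p A else 0

/-- Gibbs probability of `i ∈ A` -/
noncomputable def Pr (p : Finset ι → ℝ) (i : ι) (x : ι → ℝ) : ℝ := Zq (qi p i) x / Zq p x

/-- Gibbs covariance -/
noncomputable def Cv (p : Finset ι → ℝ) (i j : ι) (x : ι → ℝ) : ℝ :=
  Zq (qi (qi p i) j) x / Zq p x - Pr p i x * Pr p j x

/-- shift of a field by a constant -/
def sh (x : ι → ℝ) (v : ℝ) : ι → ℝ := fun i => x i + v

omit [DecidableEq ι] in
theorem Zq_nonneg {q : Finset ι → ℝ} (hq : ∀ A, 0 ≤ q A) (x : ι → ℝ) : 0 ≤ Zq q x :=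
  Finset.sum_nonneg fun A _ => mul_nonneg (hq A) (Real.exp_pos _).le

omit [DecidableEq ι] in
theorem Zq_mono {q q' : Finset ι → ℝ} (hq : ∀ A, q A ≤ q' A) (x : ι → ℝ) : Zq q x ≤ Zq q' x :=
  Finset.sum_le_sum fun A _ => mul_le_mul_of_nonneg_right (hq A) (Real.exp_pos _).le

omit [DecidableEq ι] in
theorem Zq_pos {p : Finset ι → ℝ} (h0 : ∀ A, 0 ≤ p A) (h1 : ∃ A, 0 < p A) (x : ι → ℝ) :
    0 < Zq p x := by
  obtain ⟨A, hA⟩ := h1
  exact Finset.sum_pos' (fun A _ => mul_nonneg (h0 A) (Real.exp_pos _).le)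
    ⟨A, Finset.mem_univ _, mul_pos hA (Real.exp_pos _)⟩

omit [Fintype ι] in
theorem qi_nonneg {p : Finset ι → ℝ} (h0 : ∀ A, 0 ≤ p A) (i : ι) (A : Finset ι) : 0 ≤ qi p i A := by
  unfold qi; split_ifs; exacts [h0 A, le_rfl]

omit [Fintype ι] in
theorem qi_le {p : Finset ι → ℝ} (h0 : ∀ A, 0 ≤ p A) (i : ι) (A : Finset ι) : qi p i A ≤ p A := by
  unfold qi; split_ifs; exacts [le_rfl, h0 A]

omit [Fintype ι] in
theorem qi_comm (p : Finset ι → ℝ) (i j : ι) : qi (qi p i) j = qi (qi p j) i := by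
  funext A; unfold qi; split_ifs <;> rfl

omit [Fintype ι] in
theorem qi_self (p : Finset ι → ℝ) (i : ι) : qi (qi p i) i = qi p i := by
  funext A; unfold qi; split_ifs <;> rfl

namespace PN

variable {p : Finset ι → ℝ} (hp : PN p)
include hp

theorem Zpos (x : ι → ℝ) : 0 < Zq p x := Zq_pos hp.nonneg hp.pos x

theorem Pr_nonneg (i : ι) (x : ι → ℝ) : 0 ≤ Pr p i x :=
  div_nonneg (Zq_nonneg (qi_nonneg hp.nonneg i) x) (hp.Zpos x).le

theorem Pr_le_one (i : ι) (x : ι → ℝ) : Pr p i x ≤ 1 := by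
  unfold Pr
  rw [div_le_one (hp.Zpos x)]
  exact Zq_mono (qi_le hp.nonneg i) x

theorem Qij_nonneg (i j : ι) (x : ι → ℝ) : 0 ≤ Zq (qi (qi p i) j) x / Zq p x :=
  div_nonneg (Zq_nonneg (qi_nonneg (qi_nonneg hp.nonneg i) j) x) (hp.Zpos x).le

theorem Qij_le (i j : ι) (x : ι → ℝ) : Zq (qi (qi p i) j) x / Zq p x ≤ Pr p i x := by
  unfold Pr
  apply div_le_div_of_nonneg_right _ (hp.Zpos x).le
  exact Zq_mono (qi_le (qi_nonneg hp.nonneg i) j) x

omit hp in
theorem Cv_symm (i j : ι) (x : ι → ℝ) : Cv p i j x = Cv p j i x := by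
  unfold Cv; rw [qi_comm, mul_comm (Pr p i x)]

theorem Cv_self (i : ι) (x : ι → ℝ) : Cv p i i x = Pr p i x - Pr p i x ^ 2 := by
  unfold Cv; rw [qi_self, sq]; rfl

theorem Cv_self_le (i : ι) (x : ι → ℝ) : Cv p i i x ≤ Pr p i x := by
  rw [hp.Cv_self]; nlinarith [sq_nonneg (Pr p i x)]

theorem Cv_le_one (i j : ι) (x : ι → ℝ) : Cv p i j x ≤ 1 := by
  unfold Cv
  have h1 := hp.Qij_le i j x
  have h2 := hp.Pr_le_one i x
  have h3 := mul_nonneg (hp.Pr_nonneg i x) (hp.Pr_nonneg j x)
  linarith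

/-- supporting hyperplane for `log Z` -/
theorem log_convex (x y : ι → ℝ) :
    Real.log (Zq p x) + ∑ i, Pr p i x * (y i - x i) ≤ Real.log (Zq p y) := by
  have hZ := hp.Zpos x
  set m := ∑ i, Pr p i x * (y i - x i) with hm
  have hsum : ∑ A, p A * Real.exp (∑ i ∈ A, x i) * (∑ i ∈ A, (y i - x i)) = m * Zq p x := by
    rw [hm, Finset.sum_mul]
    have : ∀ i, Pr p i x * (y i - x i) * Zq p x = Zq (qi p i) x * (y i - x i) := by
      intro i; unfold Pr; field_simp
    simp_rw [this]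
    unfold Zq qi
    simp_rw [Finset.sum_mul]
    rw [Finset.sum_comm]
    apply Finset.sum_congr rfl
    intro A _
    rw [Finset.mul_sum]
    rw [← Finset.sum_filter_add_sum_filter_not (Finset.univ) (fun i => i ∈ A)]
    have h0 : ∑ i ∈ Finset.univ.filter (fun i => ¬ i ∈ A),
        (if i ∈ A then p A else 0) * Real.exp (∑ i ∈ A, x i) * (y i - x i) = 0 := by
      apply Finset.sum_eq_zero
      intro i hi
      rw [Finset.mem_filter] at hi
      rw [if_neg hi.2]; ring
    rw [h0, add_zero]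
    have : Finset.univ.filter (fun i => i ∈ A) = A := by ext; simp
    rw [this]
    apply Finset.sum_congr rfl
    intro i hi
    rw [if_pos hi]
  have hmain : Real.exp m * Zq p x ≤ Zq p y := by
    have e0 : ∀ A : Finset ι, Real.exp (∑ i ∈ A, y i)
        = Real.exp (∑ i ∈ A, x i) * Real.exp (∑ i ∈ A, (y i - x i)) := by
      intro A
      rw [← Real.exp_add, Finset.sum_sub_distrib]; congr 1; ring
    have h1 : ∀ A : Finset ι, p A * Real.exp (∑ i ∈ A, x i) * (Real.exp m * (1 + (∑ i ∈ A, (y i - x i)) - m))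
        ≤ p A * Real.exp (∑ i ∈ A, y i) := by
      intro A
      rw [e0, ← mul_assoc (p A)]
      apply mul_le_mul_of_nonneg_left _ (mul_nonneg (hp.nonneg A) (Real.exp_pos _).le)
      set t := ∑ i ∈ A, (y i - x i)
      have := Real.add_one_le_exp (t - m)
      calc Real.exp m * (1 + t - m) ≤ Real.exp m * Real.exp (t - m) := by
            apply mul_le_mul_of_nonneg_left _ (Real.exp_pos _).le; linarith
        _ = Real.exp t := by rw [← Real.exp_add]; congr 1; ring
    have h2 : ∑ A, p A * Real.exp (∑ i ∈ A, x i) * (Real.exp m * (1 + (∑ i ∈ A, (y i - x i)) - m))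
        = Real.exp m * Zq p x := by
      have : ∀ A : Finset ι, p A * Real.exp (∑ i ∈ A, x i) * (Real.exp m * (1 + (∑ i ∈ A, (y i - x i)) - m))
          = Real.exp m * (1 - m) * (p A * Real.exp (∑ i ∈ A, x i))
            + Real.exp m * (p A * Real.exp (∑ i ∈ A, x i) * (∑ i ∈ A, (y i - x i))) := by
        intro A; ring
      simp_rw [this]
      rw [Finset.sum_add_distrib, ← Finset.mul_sum, ← Finset.mul_sum, hsum]
      unfold Zq; ring
    rw [← h2]
    exact Finset.sum_le_sum fun A _ => h1 A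
  have := Real.log_le_log (by positivity) hmain
  rw [Real.log_mul (Real.exp_pos _).ne' hZ.ne', Real.log_exp] at this
  linarith

/-- monotonicity of the gradient -/
theorem grad_mono (x y : ι → ℝ) : 0 ≤ ∑ i, (Pr p i x - Pr p i y) * (x i - y i) := by
  have h1 := hp.log_convex x y
  have h2 := hp.log_convex y x
  have : ∑ i, (Pr p i x - Pr p i y) * (x i - y i)
      = - (∑ i, Pr p i x * (y i - x i)) - ∑ i, Pr p i y * (x i - y i) := by
    rw [← Finset.sum_neg_distrib, ← Finset.sum_sub_distrib]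
    apply Finset.sum_congr rfl; intro i _; ring
  linarith

theorem log_lip (x y : ι → ℝ) : |Real.log (Zq p y) - Real.log (Zq p x)| ≤ ∑ i, |y i - x i| := by
  have key : ∀ x y : ι → ℝ, Real.log (Zq p x) - Real.log (Zq p y) ≤ ∑ i, |y i - x i| := by
    intro x y
    have h1 := hp.log_convex x y
    have : -(∑ i, Pr p i x * (y i - x i)) ≤ ∑ i, |y i - x i| := by
      rw [← Finset.sum_neg_distrib]
      apply Finset.sum_le_sum
      intro i _
      have a := hp.Pr_nonneg i x
      have b := hp.Pr_le_one i x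
      calc -(Pr p i x * (y i - x i)) ≤ |Pr p i x * (y i - x i)| := neg_le_abs _
        _ = Pr p i x * |y i - x i| := by rw [abs_mul, abs_of_nonneg a]
        _ ≤ 1 * |y i - x i| := mul_le_mul_of_nonneg_right b (abs_nonneg _)
        _ = _ := one_mul _
    linarith
  rw [abs_le]
  constructor
  · have := key x y; linarith
  · have := key y x
    have e : ∑ i, |x i - y i| = ∑ i, |y i - x i| :=
      Finset.sum_congr rfl fun i _ => abs_sub_comm _ _
    linarith

/-- variance form: the covariance matrix is positive semidefinite -/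
theorem Cv_psd (x c : ι → ℝ) : 0 ≤ ∑ i, ∑ j, c i * c j * Cv p i j x := by
  have hZ := hp.Zpos x
  set t : Finset ι → ℝ := fun A => ∑ i ∈ A, c i with ht
  set m := ∑ i, c i * Pr p i x with hm
  have hlin : ∑ A, p A * Real.exp (∑ i ∈ A, x i) * t A = m * Zq p x := by
    rw [hm, Finset.sum_mul]
    have : ∀ i, c i * Pr p i x * Zq p x = c i * Zq (qi p i) x := by
      intro i; unfold Pr; field_simp
    simp_rw [this]
    unfold Zq qi
    simp_rw [Finset.mul_sum]
    rw [Finset.sum_comm]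
    apply Finset.sum_congr rfl
    intro A _
    rw [ht]
    simp only
    rw [Finset.mul_sum]
    rw [← Finset.sum_filter_add_sum_filter_not (Finset.univ) (fun i => i ∈ A)]
    have h0 : ∑ i ∈ Finset.univ.filter (fun i => ¬ i ∈ A),
        c i * ((if i ∈ A then p A else 0) * Real.exp (∑ i ∈ A, x i)) = 0 := by
      apply Finset.sum_eq_zero
      intro i hi
      rw [Finset.mem_filter] at hi
      rw [if_neg hi.2]; ring
    rw [h0, add_zero]
    have : Finset.univ.filter (fun i => i ∈ A) = A := by ext; simp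
    rw [this]
    apply Finset.sum_congr rfl
    intro i hi
    rw [if_pos hi]; ring
  have hquad : ∑ A, p A * Real.exp (∑ i ∈ A, x i) * (t A)^2
      = (∑ i, ∑ j, c i * c j * (Zq (qi (qi p i) j) x / Zq p x)) * Zq p x := by
    rw [Finset.sum_mul]
    simp_rw [Finset.sum_mul]
    have : ∀ i j, c i * c j * (Zq (qi (qi p i) j) x / Zq p x) * Zq p x
        = c i * c j * Zq (qi (qi p i) j) x := by
      intro i j; field_simp
    simp_rw [this]
    unfold Zq qi
    simp_rw [Finset.mul_sum]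
    -- swap
    have h1 : ∀ i, ∑ j, ∑ A : Finset ι, c i * c j * ((if j ∈ A then if i ∈ A then p A else 0 else 0)
        * Real.exp (∑ i ∈ A, x i)) = ∑ A : Finset ι, ∑ j, c i * c j * ((if j ∈ A then if i ∈ A then p A else 0 else 0)
        * Real.exp (∑ i ∈ A, x i)) := fun i => Finset.sum_comm
    simp_rw [h1]
    rw [Finset.sum_comm]
    apply Finset.sum_congr rfl
    intro A _
    have h2 : ∀ i j, c i * c j * ((if j ∈ A then if i ∈ A then p A else 0 else 0) * Real.exp (∑ i ∈ A, x i))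
        = (p A * Real.exp (∑ i ∈ A, x i)) * ((if i ∈ A then c i else 0) * (if j ∈ A then c j else 0)) := by
      intro i j; split_ifs <;> ring
    simp_rw [h2, ← Finset.mul_sum, ← Finset.sum_mul]
    have h3 : ∑ i, (if i ∈ A then c i else 0) = t A := by
      rw [ht]; simp
    rw [h3]; ring
  have hvar : 0 ≤ ∑ A, p A * Real.exp (∑ i ∈ A, x i) * (t A - m)^2 :=
    Finset.sum_nonneg fun A _ => mul_nonneg (mul_nonneg (hp.nonneg A) (Real.exp_pos _).le) (sq_nonneg _)
  have hexp : ∑ A, p A * Real.exp (∑ i ∈ A, x i) * (t A - m)^2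
      = (∑ i, ∑ j, c i * c j * (Zq (qi (qi p i) j) x / Zq p x)) * Zq p x - m^2 * Zq p x := by
    have : ∀ A : Finset ι, p A * Real.exp (∑ i ∈ A, x i) * (t A - m)^2
        = p A * Real.exp (∑ i ∈ A, x i) * (t A)^2 - 2 * m * (p A * Real.exp (∑ i ∈ A, x i) * t A)
          + m^2 * (p A * Real.exp (∑ i ∈ A, x i)) := by intro A; ring
    simp_rw [this]
    rw [Finset.sum_add_distrib, Finset.sum_sub_distrib, ← Finset.mul_sum, ← Finset.mul_sum, hlin, hquad]
    unfold Zq; ring
  rw [hexp, ← sub_mul] at hvar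
  have h4 := nonneg_of_mul_nonneg_left hvar hZ
  have h5 : ∑ i, ∑ j, c i * c j * Cv p i j x
      = ∑ i, ∑ j, c i * c j * (Zq (qi (qi p i) j) x / Zq p x) - m^2 := by
    have : m^2 = ∑ i, ∑ j, c i * c j * (Pr p i x * Pr p j x) := by
      rw [sq, hm, Finset.sum_mul_sum]
      apply Finset.sum_congr rfl; intro i _
      apply Finset.sum_congr rfl; intro j _; ring
    rw [this, ← Finset.sum_sub_distrib]
    apply Finset.sum_congr rfl; intro i _
    rw [← Finset.sum_sub_distrib]
    apply Finset.sum_congr rfl; intro j _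
    unfold Cv; ring
  rw [h5]; exact h4

theorem Cv_le_half (i j : ι) (x : ι → ℝ) : 2 * Cv p i j x ≤ Cv p i i x + Cv p j j x := by
  by_cases hij : i = j
  · subst hij; linarith
  · have h := hp.Cv_psd x (Pi.single i 1 - Pi.single j 1)
    have e : ∑ k, ∑ l, (Pi.single i (1:ℝ) - Pi.single j 1 : ι → ℝ) k * (Pi.single i (1:ℝ) - Pi.single j 1 : ι → ℝ) l * Cv p k l x
        = Cv p i i x - Cv p i j x - Cv p j i x + Cv p j j x := by
      have h1 : ∀ k, ∑ l, (Pi.single i (1:ℝ) - Pi.single j 1 : ι → ℝ) k * (Pi.single i (1:ℝ) - Pi.single j 1 : ι → ℝ) l * Cv p k l x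
          = (Pi.single i (1:ℝ) - Pi.single j 1 : ι → ℝ) k * (Cv p k i x - Cv p k j x) := by
        intro k
        simp only [Pi.sub_apply, mul_sub, sub_mul, Finset.sum_sub_distrib, Pi.single_apply]
        simp
      simp_rw [h1]
      simp only [Pi.sub_apply, mul_sub, sub_mul, Finset.sum_sub_distrib, Pi.single_apply]
      simp
      ring
    rw [e] at h
    rw [Cv_symm j i] at h
    linarith

end PN

/-! ## derivatives -/

theorem hasFDerivAt_Zq (q : Finset ι → ℝ) (x : ι → ℝ) :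
    HasFDerivAt (Zq q) (∑ j, Zq (qi q j) x • (ContinuousLinearMap.proj (R := ℝ) (φ := fun _ : ι => ℝ) j)) x := by
  have h1 : HasFDerivAt (Zq q) (∑ A : Finset ι, (q A * Real.exp (∑ i ∈ A, x i)) •
      ∑ j ∈ A, (ContinuousLinearMap.proj (R := ℝ) (φ := fun _ : ι => ℝ) j)) x := by
    unfold Zq
    apply HasFDerivAt.fun_sum
    intro A _
    have h2 : HasFDerivAt (fun x : ι → ℝ => ∑ i ∈ A, x i)
        (∑ j ∈ A, (ContinuousLinearMap.proj (R := ℝ) (φ := fun _ : ι => ℝ) j)) x := by
      apply HasFDerivAt.fun_sum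
      intro i _
      exact (ContinuousLinearMap.proj (R := ℝ) (φ := fun _ : ι => ℝ) i).hasFDerivAt
    have h3 := (h2.exp).const_mul (q A)
    rw [smul_smul] at h3
    exact h3
  have h2 : (∑ A : Finset ι, (q A * Real.exp (∑ i ∈ A, x i)) •
      ∑ j ∈ A, (ContinuousLinearMap.proj (R := ℝ) (φ := fun _ : ι => ℝ) j))
      = ∑ j, Zq (qi q j) x • (ContinuousLinearMap.proj (R := ℝ) (φ := fun _ : ι => ℝ) j) := by
    unfold Zq qi
    simp_rw [Finset.sum_smul]
    rw [Finset.sum_comm]
    apply Finset.sum_congr rfl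
    intro A _
    rw [Finset.smul_sum]
    rw [← Finset.sum_filter_add_sum_filter_not (Finset.univ) (fun i => i ∈ A)]
    have h0 : ∑ i ∈ Finset.univ.filter (fun i => ¬ i ∈ A),
        ((if i ∈ A then q A else 0) * Real.exp (∑ i ∈ A, x i)) •
          (ContinuousLinearMap.proj (R := ℝ) (φ := fun _ : ι => ℝ) i) = 0 := by
      apply Finset.sum_eq_zero
      intro i hi
      rw [Finset.mem_filter] at hi
      rw [if_neg hi.2]; simp
    rw [h0, add_zero]
    have : Finset.univ.filter (fun i => i ∈ A) = A := by ext; simp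
    rw [this]
    apply Finset.sum_congr rfl
    intro i hi
    rw [if_pos hi]
  rw [← h2]; exact h1

omit [DecidableEq ι] in
theorem continuous_Zq (q : Finset ι → ℝ) : Continuous (Zq q) := by
  unfold Zq; fun_prop

theorem PN.continuous_Pr {p : Finset ι → ℝ} (hp : PN p) (i : ι) : Continuous (Pr p i) := by
  unfold Pr
  exact (continuous_Zq _).div (continuous_Zq _) fun x => (hp.Zpos x).ne'

theorem PN.continuous_Cv {p : Finset ι → ℝ} (hp : PN p) (i j : ι) : Continuous (Cv p i j) := by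
  unfold Cv
  exact ((continuous_Zq _).div (continuous_Zq _) fun x => (hp.Zpos x).ne').sub
    ((hp.continuous_Pr i).mul (hp.continuous_Pr j))

theorem PN.hasFDerivAt_Pr {p : Finset ι → ℝ} (hp : PN p) (i : ι) (x : ι → ℝ) :
    HasFDerivAt (Pr p i) (∑ j, Cv p i j x • (ContinuousLinearMap.proj (R := ℝ) (φ := fun _ : ι => ℝ) j)) x := by
  have hZ := hp.Zpos x
  have h1 := hasFDerivAt_Zq (qi p i) x
  have h2 := hasFDerivAt_Zq p x
  have h3 : HasFDerivAt (fun y => (Zq p y)⁻¹)
      (-(Zq p x ^ 2)⁻¹ • ∑ j, Zq (qi p j) x • (ContinuousLinearMap.proj (R := ℝ) (φ := fun _ : ι => ℝ) j)) x := by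
    have := (hasDerivAt_inv hZ.ne').comp_hasFDerivAt x h2
    exact this
  have h4 := h1.mul h3
  have e : Pr p i = (fun y => Zq (qi p i) y * (Zq p y)⁻¹) := by
    funext y; unfold Pr; rw [div_eq_mul_inv]
  rw [e]
  refine h4.congr_fderiv ?_
  rw [Finset.smul_sum, Finset.smul_sum, Finset.smul_sum, ← Finset.sum_add_distrib]
  apply Finset.sum_congr rfl
  intro j _
  rw [smul_smul, smul_smul, smul_smul, ← add_smul]
  congr 1
  unfold Cv Pr
  field_simp
  ring

/-- derivative of `v ↦ P_i(y + v)` -/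
theorem PN.hasDerivAt_Pr_sh {p : Finset ι → ℝ} (hp : PN p) (i : ι) (y : ι → ℝ) (v : ℝ) :
    HasDerivAt (fun v => Pr p i (sh y v)) (∑ j, Cv p i j (sh y v)) v := by
  have h1 : HasDerivAt (fun v => sh y v) (fun _ => 1) v := by
    rw [hasDerivAt_pi]
    intro j
    unfold sh
    simpa using (hasDerivAt_id v).const_add (y j)
  have h2 := (hp.hasFDerivAt_Pr i (sh y v)).comp_hasDerivAt v h1
  refine h2.congr_deriv ?_
  simp [ContinuousLinearMap.sum_apply]

end H98G
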