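import Pool.Agent.Helper98.CopG.QM

set_option autoImplicit false

/-! # Kernel estimates from the tail asymptotics -/

namespace H98G

open Filter Topology

/-- the kernel data -/
structure Ker where
  κ : PMF ℕ
  κ0 : κ 0 = 0
  α : ℝ
  cK : ℝ
  hα : 0 < α
  hcK : 0 < cK
  htail : Tendsto (fun n : ℕ => (n : ℝ) ^ (1 + α) * (κ n).toReal) atTop (𝓝 cK)

/-- the halved kernel -/
noncomputable def Ker.f (k : Ker) : ℕ → ℝ := fun n => (k.κ n).toReal / 2

theorem Ker.f_nonneg (k : Ker) (n : ℕ) : 0 ≤ k.f n := by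
  unfold Ker.f; positivity

theorem Ker.f_le_one (k : Ker) (n : ℕ) : k.f n ≤ 1 := by
  unfold Ker.f
  have := ENNReal.toReal_mono ENNReal.one_ne_top (k.κ.coe_le_one n)
  rw [ENNReal.toReal_one] at this
  linarith

theorem Ker.two_sided (k : Ker) : ∃ (n : ℕ) (c C : ℝ), 1 ≤ n ∧ 0 < c ∧ c ≤ C ∧
    ∀ m : ℕ, n ≤ m → c * (m:ℝ) ^ (-(1 + k.α)) ≤ k.f m ∧ k.f m ≤ C * (m:ℝ) ^ (-(1 + k.α)) := by
  have hc := k.hcK
  have h1 : ∀ᶠ n : ℕ in atTop, k.cK / 2 < (n : ℝ) ^ (1 + k.α) * (k.κ n).toReal :=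
    k.htail.eventually_const_lt (by linarith)
  have h2 : ∀ᶠ n : ℕ in atTop, (n : ℝ) ^ (1 + k.α) * (k.κ n).toReal < 2 * k.cK :=
    k.htail.eventually_lt_const (by linarith)
  obtain ⟨N, hN⟩ := eventually_atTop.1 (h1.and h2)
  refine ⟨max N 1, k.cK / 4, k.cK, le_max_right _ _, by positivity, by linarith, ?_⟩
  intro m hm
  have hm1 : 1 ≤ m := (le_max_right _ _).trans hm
  have hmr : (0:ℝ) < m := by exact_mod_cast hm1
  obtain ⟨a1, a2⟩ := hN m ((le_max_left _ _).trans hm)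
  have hp : 0 < (m:ℝ) ^ (1 + k.α) := by positivity
  unfold Ker.f
  rw [Real.rpow_neg hmr.le]
  constructor
  · rw [← div_eq_mul_inv, div_le_iff₀ hp]; linarith
  · rw [← div_eq_mul_inv, le_div_iff₀ hp]; linarith

theorem rpow_anti {a : ℝ} (ha : 0 < a) {x y : ℝ} (hx : 0 < x) (hxy : x ≤ y) : y ^ (-a) ≤ x ^ (-a) :=
  Real.rpow_le_rpow_of_nonpos hx hxy (by linarith)

/-- all the kernel hypotheses hold -/
theorem Ker.hyps (k : Ker) : ∃ (n : ℕ) (CP C0 C1 : ℝ), KH n k.f CP C0 ∧ KH2 n k.f C1 ∧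
    ∀ m, n ≤ m → 0 < k.f m := by
  obtain ⟨n, c, C, hn, hc, hcC, h⟩ := k.two_sided
  have hα := k.hα
  set a : ℝ := 1 + k.α with ha
  have ha0 : 0 < a := by rw [ha]; linarith
  have hC : 0 < C := hc.trans_le hcC
  have hnr : (1:ℝ) ≤ n := by exact_mod_cast hn
  have hpos : ∀ m, n ≤ m → 0 < k.f m := by
    intro m hm
    have hm' : (0:ℝ) < m := by exact_mod_cast (by omega : 0 < m)
    exact lt_of_lt_of_le (by positivity) (h m hm).1
  refine ⟨n, (C / c) ^ 2, max 1 (C / c * ((3 * n : ℝ) ^ a / c)),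
    max 1 (max (C / c * (2:ℝ) ^ a) ((4 * n : ℝ) ^ a / c)), ?_, ?_, hpos⟩
  · refine ⟨hn, k.f_nonneg, ?_, le_max_left _ _, ?_, ?_⟩
    · apply one_le_pow₀
      rw [le_div_iff₀ hc]; linarith
    · intro x j u v hxj hju huv
      have e1 := (h (u - x) (by omega)).2
      have e2 := (h (v - j) (by omega)).2
      have e3 := (h (v - x) (by omega)).1
      have e4 := (h (u - j) (by omega)).1
      have p1 : (0:ℝ) < ((u - x : ℕ) : ℝ) := by exact_mod_cast (by omega : 0 < u - x)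
      have p2 : (0:ℝ) < ((v - j : ℕ) : ℝ) := by exact_mod_cast (by omega : 0 < v - j)
      have p3 : (0:ℝ) < ((v - x : ℕ) : ℝ) := by exact_mod_cast (by omega : 0 < v - x)
      have p4 : (0:ℝ) < ((u - j : ℕ) : ℝ) := by exact_mod_cast (by omega : 0 < u - j)
      have hprod : ((v - x : ℕ) : ℝ) * ((u - j : ℕ) : ℝ) ≤ ((u - x : ℕ) : ℝ) * ((v - j : ℕ) : ℝ) := by
        rw [Nat.cast_sub (by omega), Nat.cast_sub (by omega), Nat.cast_sub (by omega),
          Nat.cast_sub (by omega)]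
        have g1 : (x:ℝ) ≤ j := by exact_mod_cast (by omega : x ≤ j)
        have g2 : (u:ℝ) ≤ v := by exact_mod_cast huv
        nlinarith [mul_nonneg (sub_nonneg.2 g1) (sub_nonneg.2 g2)]
      have hpow : (((u - x : ℕ) : ℝ) * ((v - j : ℕ) : ℝ)) ^ (-a) ≤
          (((v - x : ℕ) : ℝ) * ((u - j : ℕ) : ℝ)) ^ (-a) := rpow_anti ha0 (by positivity) hprod
      calc k.f (u - x) * k.f (v - j)
          ≤ (C * ((u - x : ℕ) : ℝ) ^ (-a)) * (C * ((v - j : ℕ) : ℝ) ^ (-a)) :=
            mul_le_mul e1 e2 (k.f_nonneg _) (by positivity)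
        _ = C ^ 2 * (((u - x : ℕ) : ℝ) * ((v - j : ℕ) : ℝ)) ^ (-a) := by
            rw [Real.mul_rpow p1.le p2.le]; ring
        _ ≤ C ^ 2 * (((v - x : ℕ) : ℝ) * ((u - j : ℕ) : ℝ)) ^ (-a) := by gcongr
        _ = (C / c) ^ 2 * ((c * ((v - x : ℕ) : ℝ) ^ (-a)) * (c * ((u - j : ℕ) : ℝ) ^ (-a))) := by
            rw [Real.mul_rpow p3.le p4.le]; field_simp
        _ ≤ (C / c) ^ 2 * (k.f (v - x) * k.f (u - j)) := by
            apply mul_le_mul_of_nonneg_left _ (by positivity)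
            exact mul_le_mul e3 e4 (by positivity) (k.f_nonneg _)
    · intro x j u hxj hjx hju
      have e1 := (h (u - x) (by omega)).2
      have e2 := (h (j - x) (by omega)).1
      have e3 := (h (u - j) (by omega)).1
      have p1 : (0:ℝ) < ((u - x : ℕ) : ℝ) := by exact_mod_cast (by omega : 0 < u - x)
      have p2 : (0:ℝ) < ((j - x : ℕ) : ℝ) := by exact_mod_cast (by omega : 0 < j - x)
      have p3 : (0:ℝ) < ((u - j : ℕ) : ℝ) := by exact_mod_cast (by omega : 0 < u - j)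
      have q1 : ((u - x : ℕ) : ℝ) ^ (-a) ≤ ((u - j : ℕ) : ℝ) ^ (-a) :=
        rpow_anti ha0 p3 (by exact_mod_cast (by omega : u - j ≤ u - x))
      have q2 : (3 * n : ℝ) ^ (-a) ≤ ((j - x : ℕ) : ℝ) ^ (-a) :=
        rpow_anti ha0 p2 (by exact_mod_cast (by omega : j - x ≤ 3 * n))
      have h3n : (0:ℝ) < 3 * n := by positivity
      have q3 : 1 ≤ ((3 * n : ℝ) ^ a / c) * k.f (j - x) := by
        have : 1 = ((3 * n : ℝ) ^ a / c) * (c * (3 * n : ℝ) ^ (-a)) := by
          rw [Real.rpow_neg h3n.le]; field_simp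
        rw [this]
        apply mul_le_mul_of_nonneg_left _ (by positivity)
        exact (mul_le_mul_of_nonneg_left q2 hc.le).trans e2
      have q4 : k.f (u - x) ≤ C / c * k.f (u - j) := by
        calc k.f (u - x) ≤ C * ((u - x : ℕ) : ℝ) ^ (-a) := e1
          _ ≤ C * ((u - j : ℕ) : ℝ) ^ (-a) := mul_le_mul_of_nonneg_left q1 hC.le
          _ = C / c * (c * ((u - j : ℕ) : ℝ) ^ (-a)) := by field_simp
          _ ≤ _ := mul_le_mul_of_nonneg_left e3 (by positivity)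
      have f1 := k.f_nonneg (u - j)
      have f2 := k.f_nonneg (j - x)
      calc k.f (u - x) ≤ C / c * k.f (u - j) := q4
        _ = (C / c * k.f (u - j)) * 1 := (mul_one _).symm
        _ ≤ (C / c * k.f (u - j)) * (((3 * n : ℝ) ^ a / c) * k.f (j - x)) :=
            mul_le_mul_of_nonneg_left q3 (by positivity)
        _ = (C / c * ((3 * n : ℝ) ^ a / c)) * (k.f (j - x) * k.f (u - j)) := by ring
        _ ≤ _ := mul_le_mul_of_nonneg_right (le_max_right _ _) (by positivity)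
  · have h4n : (0:ℝ) < 4 * n := by positivity
    have key : ∀ r, n ≤ r → r ≤ 4 * n → 1 ≤ ((4 * n : ℝ) ^ a / c) * k.f r := by
      intro r h1 h2
      have p2 : (0:ℝ) < r := by exact_mod_cast (by omega : 0 < r)
      have q2 : (4 * n : ℝ) ^ (-a) ≤ (r : ℝ) ^ (-a) :=
        rpow_anti ha0 p2 (by exact_mod_cast h2)
      have : 1 = ((4 * n : ℝ) ^ a / c) * (c * (4 * n : ℝ) ^ (-a)) := by
        rw [Real.rpow_neg h4n.le]; field_simp
      rw [this]
      apply mul_le_mul_of_nonneg_left _ (by positivity)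
      exact (mul_le_mul_of_nonneg_left q2 hc.le).trans (h r h1).1
    refine ⟨hn, k.f_nonneg, le_max_left _ _, k.f_le_one, ?_, ?_⟩
    · intro r r' h1 _ h3
      have fr := k.f_nonneg r
      rcases lt_or_ge r (2 * n) with hr | hr
      · have := key r h1 (by omega)
        calc k.f r' ≤ 1 := k.f_le_one r'
          _ ≤ ((4 * n : ℝ) ^ a / c) * k.f r := this
          _ ≤ _ := mul_le_mul_of_nonneg_right ((le_max_right _ _).trans (le_max_right _ _)) fr
      · have p1 : (0:ℝ) < r := by exact_mod_cast (by omega : 0 < r)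
        have p2 : (0:ℝ) < r' := by exact_mod_cast (by omega : 0 < r')
        have q1 : (r':ℝ) ^ (-a) ≤ ((r:ℝ) / 2) ^ (-a) := by
          apply rpow_anti ha0 (by positivity)
          rw [div_le_iff₀ (by norm_num)]
          exact_mod_cast (by omega : r ≤ r' * 2)
        have q2 : ((r:ℝ) / 2) ^ (-a) = (2:ℝ) ^ a * (r:ℝ) ^ (-a) := by
          rw [Real.div_rpow p1.le (by norm_num), Real.rpow_neg (by norm_num : (0:ℝ) ≤ 2)]
          field_simp
        calc k.f r' ≤ C * (r':ℝ) ^ (-a) := (h r' (by omega)).2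
          _ ≤ C * ((2:ℝ) ^ a * (r:ℝ) ^ (-a)) := by rw [← q2]; gcongr
          _ = (C / c * (2:ℝ) ^ a) * (c * (r:ℝ) ^ (-a)) := by field_simp
          _ ≤ (C / c * (2:ℝ) ^ a) * k.f r := mul_le_mul_of_nonneg_left (h r h1).1 (by positivity)
          _ ≤ _ := mul_le_mul_of_nonneg_right ((le_max_left _ _).trans (le_max_right _ _)) fr
    · intro r h1 h2
      have fr := k.f_nonneg r
      exact (key r h1 h2).trans
        (mul_le_mul_of_nonneg_right ((le_max_right _ _).trans (le_max_right _ _)) fr)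

end H98G
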