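import Pool.Agent.Helper98.CopG.Kern
import Pool.Graph.R_seed8.Helper764.CopDefs

set_option autoImplicit false

/-! # The pinned partition function as a two sided partition function -/

namespace H98G

theorem Sf_congr {b b' : ℕ → ℝ} {i j : ℕ} (h : ∀ n ∈ Finset.Ioc i j, b n = b' n) : Sf b i j = Sf b' i j :=
  Finset.sum_congr rfl h

theorem Lf_congr (k : ℕ → ℝ) {b b' : ℕ → ℝ} (j : ℕ) (h : ∀ n, 1 ≤ n → n ≤ j → b n = b' n) :
    Lf k b j = Lf k b' j := by
  induction j using Nat.strong_induction_on with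
  | _ j ih =>
    rcases Nat.eq_zero_or_pos j with rfl | hj
    · rw [Lf_zero, Lf_zero]
    · rw [Lf_eq k b hj, Lf_eq k b' hj]
      apply Finset.sum_congr rfl
      intro x hx
      have hx' := Finset.mem_range.1 hx
      rw [ih x hx' (fun n h1 h2 => h n h1 (by omega)), Sf_congr (b := b) (b' := b') (i := x) (j := j)
        (fun n hn => by rw [Finset.mem_Ioc] at hn; exact h n (by omega) (by omega))]

theorem Tf_congr (k : ℕ → ℝ) {b b' c c' : ℕ → ℝ} (ε : ℝ) (I J : ℕ)
    (hb : ∀ n, 1 ≤ n → n ≤ I → b n = b' n) (hc : ∀ n, 1 ≤ n → n ≤ J → c n = c' n) :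
    Tf k b c ε I J = Tf k b' c' ε I J := by
  unfold Tf
  apply Finset.sum_congr rfl
  intro x hx
  apply Finset.sum_congr rfl
  intro y hy
  have hx' := Finset.mem_range.1 hx
  have hy' := Finset.mem_range.1 hy
  rw [Lf_congr k x (fun n h1 h2 => hb n h1 (by omega)), Lf_congr k y (fun n h1 h2 => hc n h1 (by omega)),
    Sf_congr (b := b) (b' := b') (i := x) (j := I)
      (fun n hn => by rw [Finset.mem_Ioc] at hn; exact hb n (by omega) (by omega)),
    Sf_congr (b := c) (b' := c') (i := y) (j := J)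
      (fun n hn => by rw [Finset.mem_Ioc] at hn; exact hc n (by omega) (by omega))]

/-- reversed field -/
def rv (ℓ : ℕ) (w : ℕ → ℝ) : ℕ → ℝ := fun n => w (ℓ + 1 - n)

theorem Sf_rv (ℓ : ℕ) (w : ℕ → ℝ) (y' y : ℕ) (h : y ≤ ℓ) :
    Cop764.S w (ℓ - y) (ℓ - y') = Sf (rv ℓ w) y' y := by
  unfold Cop764.S Sf rv
  apply Finset.sum_nbij' (fun n => ℓ + 1 - n) (fun n => ℓ + 1 - n)
  · intro n hn; rw [Finset.mem_Ioc] at *; omega
  · intro n hn; rw [Finset.mem_Ioc] at *; omega
  · intro n hn; rw [Finset.mem_Ioc] at *; omega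
  · intro n hn; rw [Finset.mem_Ioc] at *; omega
  · intro n hn
    rw [Finset.mem_Ioc] at hn
    rw [show ℓ + 1 - (ℓ + 1 - n) = n by omega]

theorem G_rev (K w : ℕ → ℝ) (ℓ y : ℕ) (h : y ≤ ℓ) :
    Cop764.G K w (ℓ - y) ℓ = Lf (fun n => K n / 2) (rv ℓ w) y := by
  induction y using Nat.strong_induction_on with
  | _ y ih =>
    rcases Nat.eq_zero_or_pos y with rfl | hy
    · rw [Lf_zero, Cop764.G_eq]; simp
    · rw [Lf_eq _ _ hy, Cop764.G_eq, if_neg (by omega)]
      symm
      apply Finset.sum_nbij' (fun y' => ℓ - y') (fun q => ℓ - q)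
      · intro y' hy'; rw [Finset.mem_range] at hy'; rw [Finset.mem_Ioc]; omega
      · intro q hq; rw [Finset.mem_Ioc] at hq; rw [Finset.mem_range]; omega
      · intro y' hy'; rw [Finset.mem_range] at hy'; omega
      · intro q hq; rw [Finset.mem_Ioc] at hq; omega
      · intro y' hy'
        rw [Finset.mem_range] at hy'
        rw [ih y' hy' (by omega)]
        unfold Cop764.phi
        rw [Sf_rv ℓ w y' y h, show ℓ - y' - (ℓ - y) = y - y' by omega]
        ring

theorem G_dec (K w : ℕ → ℝ) (ℓ i : ℕ) (hi : i ≤ ℓ) (a : ℕ) (ha : a < i) :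
    Cop764.G K w a ℓ = ∑ x ∈ Finset.Ico a i, ∑ q ∈ Finset.Icc i ℓ,
      Cop764.G K w a x * (K (q - x) * Cop764.phi w x q * Cop764.G K w q ℓ) := by
  induction hd : i - a using Nat.strong_induction_on generalizing a with
  | _ d ih =>
    have hG0 : ∀ x, Cop764.G K w x x = 1 := fun x => by rw [Cop764.G_eq]; simp
    rw [Cop764.G_eq, if_neg (by omega)]
    have hsplit : Finset.Ioc a ℓ = Finset.Ioo a i ∪ Finset.Icc i ℓ := by
      ext q; simp only [Finset.mem_union, Finset.mem_Ioo, Finset.mem_Icc, Finset.mem_Ioc]; omega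
    have hdisj : Disjoint (Finset.Ioo a i) (Finset.Icc i ℓ) := by
      rw [Finset.disjoint_left]; intro q; rw [Finset.mem_Ioo, Finset.mem_Icc]; omega
    rw [hsplit, Finset.sum_union hdisj]
    have h1 : ∑ q ∈ Finset.Ioo a i, K (q - a) * Cop764.phi w a q * Cop764.G K w q ℓ =
        ∑ x ∈ Finset.Ioo a i, ∑ q ∈ Finset.Icc i ℓ,
          Cop764.G K w a x * (K (q - x) * Cop764.phi w x q * Cop764.G K w q ℓ) := by
      have h2 : ∀ q ∈ Finset.Ioo a i, K (q - a) * Cop764.phi w a q * Cop764.G K w q ℓ =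
          ∑ x ∈ Finset.Ioo a i, if q ≤ x then (K (q - a) * Cop764.phi w a q * Cop764.G K w q x) *
            ∑ q' ∈ Finset.Icc i ℓ, (K (q' - x) * Cop764.phi w x q' * Cop764.G K w q' ℓ) else 0 := by
        intro q hq
        rw [Finset.mem_Ioo] at hq
        rw [ih (i - q) (by omega) q hq.2 rfl, ← Finset.sum_filter, Finset.mul_sum]
        apply Finset.sum_congr
        · ext x; simp only [Finset.mem_filter, Finset.mem_Ioo, Finset.mem_Ico]; omega
        · intro x _
          rw [← Finset.mul_sum]; ring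
      rw [Finset.sum_congr rfl h2, Finset.sum_comm]
      apply Finset.sum_congr rfl
      intro x hx
      rw [Finset.mem_Ioo] at hx
      rw [← Finset.sum_filter, ← Finset.sum_mul, Finset.mul_sum]
      apply Finset.sum_congr rfl
      intro q' _
      congr 1
      rw [Cop764.G_eq K w a x, if_neg (by omega)]
      apply Finset.sum_congr
      · ext q; simp only [Finset.mem_filter, Finset.mem_Ioo, Finset.mem_Ioc]; omega
      · intro _ _; rfl
    rw [h1]
    have h3 : Finset.Ico a i = insert a (Finset.Ioo a i) := by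
      ext x; simp only [Finset.mem_insert, Finset.mem_Ioo, Finset.mem_Ico]; omega
    rw [h3, Finset.sum_insert (by simp), add_comm]
    congr 1
    apply Finset.sum_congr rfl
    intro q _
    rw [hG0, one_mul]

theorem G_left (K w : ℕ → ℝ) (x : ℕ) : Cop764.G K w 0 x = Lf (fun n => K n / 2) w x := by
  induction x using Nat.strong_induction_on with
  | _ x ih =>
    rcases Nat.eq_zero_or_pos x with rfl | hx
    · rw [Lf_zero, Cop764.G_eq]; simp
    · rw [Lf_eq _ _ hx, G_dec K w x x le_rfl 0 hx]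
      have e : Finset.Icc x x = {x} := Finset.Icc_self x
      rw [e]
      simp only [Finset.sum_singleton]
      have hG0 : Cop764.G K w x x = 1 := by rw [Cop764.G_eq]; simp
      rw [hG0, Finset.range_eq_Ico]
      apply Finset.sum_congr rfl
      intro x' hx'
      rw [Finset.mem_Ico] at hx'
      rw [ih x' hx'.2]
      unfold Cop764.phi Cop764.S Sf
      ring

/-- the pinned partition function, seen from site `I + 1` -/
theorem G_ZZ (K w : ℕ → ℝ) (I J : ℕ) :
    Cop764.G K w 0 (I + 1 + J) =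
      ZZ (fun n => K n / 2) w (rv (I + 1 + J) w) (w (I + 1)) I J := by
  set ℓ := I + 1 + J with hℓ
  rw [G_dec K w ℓ (I + 1) (by omega) 0 (by omega)]
  unfold ZZ Tf
  rw [Finset.mul_sum, ← Finset.sum_add_distrib, ← Finset.range_eq_Ico]
  apply Finset.sum_congr rfl
  intro x hx
  have hx' := Finset.mem_range.1 hx
  rw [Finset.mul_sum, ← Finset.sum_add_distrib]
  apply Finset.sum_nbij' (fun q => ℓ - q) (fun y => ℓ - y)
  · intro q hq; rw [Finset.mem_Icc] at hq; rw [Finset.mem_range]; omega
  · intro y hy; rw [Finset.mem_range] at hy; rw [Finset.mem_Icc]; omega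
  · intro q hq; rw [Finset.mem_Icc] at hq; omega
  · intro y hy; rw [Finset.mem_range] at hy; omega
  · intro q hq
    rw [Finset.mem_Icc] at hq
    have e1 : Cop764.G K w q ℓ = Lf (fun n => K n / 2) (rv ℓ w) (ℓ - q) := by
      have := G_rev K w ℓ (ℓ - q) (by omega)
      rwa [show ℓ - (ℓ - q) = q by omega] at this
    rw [G_left, e1]
    have e2 : Cop764.S w x q = Sf w x I + w (I + 1) + Sf (rv ℓ w) (ℓ - q) J := by
      have h1 : Cop764.S w x q = Sf w x q := rfl
      have h2 := Sf_add w (by omega : x ≤ I + 1) hq.1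
      have h3 := Sf_succ w (by omega : x ≤ I)
      have h4 : Sf w (I + 1) q = Sf (rv ℓ w) (ℓ - q) J := by
        have := Sf_rv ℓ w (ℓ - q) J (by omega)
        rw [show ℓ - J = I + 1 by omega, show ℓ - (ℓ - q) = q by omega] at this
        exact this
      rw [h1, ← h2, h3, h4]
    unfold Cop764.phi
    rw [e2, Real.exp_add, Real.exp_add, show I - x + (J - (ℓ - q)) + 1 = q - x by omega]
    simp only [zero_mul, Real.exp_zero, one_mul, mul_one]
    ring

end H98G
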