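import Pool.Agent.Helper98.CopG.Strong
import Pool.Agent.Helper98.Cop.Rec
import Pool.Agent.Helper98.Cop.Crit
import Pool.Agent.Helper98.Cop.Main

set_option autoImplicit false

/-! # The recursion at a good coupling, and the improved exponent -/

namespace H98G

open MeasureTheory ProbabilityTheory Filter Topology
open Cop764 (Data)
open H98Cop (gm rec_exponent telescope)

/-- the model at inverse temperature parameter `b` -/
noncomputable def Ker.M (k : Ker) (b : ℝ) (hb : 0 < b) : Data := k.D (b / 2) (half_pos hb)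

/-- critical point in the `h` variable -/
noncomputable def Ker.hc (k : Ker) (b : ℝ) (hb : 0 < b) : ℝ := (Cop764.M_hc.J_hc (k.M b hb)).choose

theorem Ker.hc_spec (k : Ker) (b : ℝ) (hb : 0 < b) : 0 < k.hc b hb ∧
    (∀ h, 0 ≤ h → (0 < (k.M b hb).f h ↔ h < k.hc b hb)) :=
  ⟨(Cop764.M_hc.J_hc (k.M b hb)).choose_spec.1, (Cop764.M_hc.J_hc (k.M b hb)).choose_spec.2.1⟩

/-- critical point in the `v` variable -/
noncomputable def Ker.vc (k : Ker) (b : ℝ) : ℝ := if hb : 0 < b then -b * k.hc b hb else 0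

theorem Ker.vc_eq (k : Ker) (b : ℝ) (hb : 0 < b) : k.vc b = -b * k.hc b hb := by
  unfold Ker.vc; rw [dif_pos hb]

theorem Ker.vc_neg (k : Ker) (b : ℝ) (hb : 0 < b) : k.vc b < 0 := by
  rw [k.vc_eq b hb]
  have := (k.hc_spec b hb).1
  nlinarith

/-- free energy in the `v` variable -/
noncomputable def Ker.Fv (k : Ker) (b : ℝ) (hb : 0 < b) (v : ℝ) : ℝ := (k.M b hb).f (-v / b)

theorem Ker.Fv_nonneg (k : Ker) (b : ℝ) (hb : 0 < b) (v : ℝ) (hv : v ≤ 0) : 0 ≤ k.Fv b hb v := by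
  unfold Ker.Fv
  apply Cop764.M_fnn.J_fnn
  apply div_nonneg _ hb.le
  linarith

theorem Ker.Fv_pos_iff (k : Ker) (b : ℝ) (hb : 0 < b) (v : ℝ) (hv : v ≤ 0) :
    0 < k.Fv b hb v ↔ k.vc b < v := by
  unfold Ker.Fv
  rw [(k.hc_spec b hb).2 (-v / b) (div_nonneg (by linarith) hb.le), k.vc_eq b hb,
    div_lt_iff₀ hb]
  constructor <;> intro h <;> nlinarith

theorem Ker.Fv_vc (k : Ker) (b : ℝ) (hb : 0 < b) : k.Fv b hb (k.vc b) = 0 := by
  apply le_antisymm _ (k.Fv_nonneg b hb _ (k.vc_neg b hb).le)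
  by_contra h
  rw [not_le, k.Fv_pos_iff b hb _ (k.vc_neg b hb).le] at h
  exact lt_irrefl _ h

theorem Ker.Fv_mono (k : Ker) (b : ℝ) (hb : 0 < b) (v v' : ℝ) (hv : v ≤ v') (hv' : v' ≤ 0) :
    k.Fv b hb v ≤ k.Fv b hb v' := by
  unfold Ker.Fv
  apply (Cop764.M_fanti.J_fanti (k.M b hb) (-v' / b) (-v / b) (div_nonneg (by linarith) hb.le) _).1
  apply div_le_div_of_nonneg_right _ hb.le
  linarith

theorem Ker.exists_KHyp (k : Ker) (b : ℝ) (hb : 0 < b) :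
    ∃ (c0 : ℝ) (n0 : ℕ), Cop764.KHyp (k.M b hb).K (k.M b hb).α c0 n0 :=
  Cop764.M_K.J_K (k.M b hb)

theorem Ker.L_eq (k : Ker) (b : ℝ) (hb : 0 < b) (v : ℝ) (ℓ : ℕ) (hℓ : k.nn ≤ ℓ) :
    ∫ ω, (k.M b hb).lG (-v / b) 0 ℓ ω ∂(k.M b hb).P = L (k.p ℓ) b v := by
  unfold Ker.M
  rw [k.integral_lG (b / 2) (half_pos hb) (-v / b) ℓ hℓ]
  congr 1
  · ring
  · field_simp

theorem Ker.L_tendsto (k : Ker) (b : ℝ) (hb : 0 < b) (v : ℝ) (hv : v ≤ 0) :
    Tendsto (fun ℓ : ℕ => L (k.p ℓ) b v / ℓ) atTop (𝓝 (k.Fv b hb v)) := by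
  obtain ⟨c0, n0, hK⟩ := k.exists_KHyp b hb
  have := Cop764.h98_tendsto (k.M b hb) c0 n0 hK (-v / b) (div_nonneg (by linarith) hb.le)
  refine this.congr' ?_
  filter_upwards [eventually_ge_atTop k.nn] with ℓ hℓ
  rw [k.L_eq b hb v ℓ hℓ]

theorem Ker.L_le (k : Ker) (b : ℝ) (hb : 0 < b) (v : ℝ) (hv : v ≤ 0) :
    ∀ᶠ ℓ : ℕ in atTop, L (k.p ℓ) b v ≤ ℓ * k.Fv b hb v := by
  obtain ⟨c0, n0, hK⟩ := k.exists_KHyp b hb
  filter_upwards [eventually_ge_atTop n0, eventually_ge_atTop k.nn] with ℓ hℓ hℓ'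
  rw [← k.L_eq b hb v ℓ hℓ']
  exact Cop764.h98_E_lG_le (k.M b hb) c0 n0 hK (-v / b) (div_nonneg (by linarith) hb.le) ℓ hℓ

theorem Ker.crit (k : Ker) (b : ℝ) (hb : 0 < b) :
    ∃ C, 0 ≤ C ∧ ∀ᶠ ℓ : ℕ in atTop,
      Real.log (∫ x, Real.exp ((2 * (1 + k.α))⁻¹ * Real.log (Zq (k.p ℓ) (bs b (k.vc b) x)))
        ∂(gm (Ix ℓ))) ≤ C * (1 + Real.log ℓ) := by
  obtain ⟨c0, n0, hK⟩ := k.exists_KHyp b hb
  have hv := k.vc_neg b hb
  obtain ⟨C, hC, h1⟩ := Cop764.h98_crit (k.M b hb) c0 n0 hK (-k.vc b / b)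
    (div_nonneg (by linarith) hb.le) (k.Fv_vc b hb).le
  refine ⟨C, hC, ?_⟩
  filter_upwards [eventually_ge_atTop n0, eventually_ge_atTop k.nn] with ℓ hℓ hℓ'
  have h2 := h1 ℓ hℓ
  have h3 := k.integral_bridge (b / 2) (half_pos hb) (-k.vc b / b) ℓ hℓ'
    (fun y => Real.exp ((2 * (1 + k.α))⁻¹ * Real.log y))
    (Real.continuous_exp.comp_continuousOn (continuousOn_const.mul
      (Real.continuousOn_log.mono fun x hx => (ne_of_gt hx))))
  have e1 : 2 * (b / 2) = b := by ring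
  have e2 : -(2 * (b / 2)) * (-k.vc b / b) = k.vc b := by field_simp
  rw [e2, e1] at h3
  rw [← h3]
  exact h2

end H98G
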