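import Pool.Agent.Helper98.CopG.Gibbs
import Pool.Agent.Helper98.Cop.Gauss

set_option autoImplicit false

/-! # Moreau envelopes of the Gibbs potential -/

namespace H98G

open MeasureTheory ProbabilityTheory Filter Topology Matrix
open H98Cop (pj)

variable {ι : Type*} [Fintype ι] [DecidableEq ι]

/-- trace of the product of two positive semidefinite matrices -/
theorem trace_mul_nonneg (A B : Matrix ι ι ℝ) (hA : A.PosSemidef) (hB : B.PosSemidef) :
    0 ≤ (A * B).trace := by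
  have hH := hA.isHermitian
  set U : Matrix ι ι ℝ := (hH.eigenvectorUnitary : Matrix ι ι ℝ) with hU
  set D : Matrix ι ι ℝ := diagonal hH.eigenvalues with hD
  have hAe : A = U * D * star U := by
    have := hH.spectral_theorem
    rw [Unitary.conjStarAlgAut_apply] at this
    exact this
  have h1 : (A * B).trace = (D * (star U * B * U)).trace := by
    rw [hAe]
    calc (U * D * star U * B).trace = (U * (D * star U * B)).trace := by simp only [mul_assoc]
      _ = ((D * star U * B) * U).trace := trace_mul_comm _ _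
      _ = _ := by simp only [mul_assoc]
  rw [h1]
  have h2 : (star U * B * U).PosSemidef := by
    have := hB.conjTranspose_mul_mul_same U
    rwa [star_eq_conjTranspose]
  unfold Matrix.trace
  apply Finset.sum_nonneg
  intro i _
  rw [Matrix.diag_apply, hD, Matrix.diagonal_mul]
  exact mul_nonneg (hA.eigenvalues_nonneg i) (h2.diag_nonneg)

omit [DecidableEq ι] in
theorem dp_self_nonneg (y : ι → ℝ) : 0 ≤ y ⬝ᵥ y :=
  Finset.sum_nonneg fun _ _ => mul_self_nonneg _

omit [DecidableEq ι] in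
theorem psd_of_quad (A : Matrix ι ι ℝ) (hs : A.IsHermitian) (h : ∀ w : ι → ℝ, 0 ≤ w ⬝ᵥ (A *ᵥ w)) :
    A.PosSemidef := by
  apply Matrix.PosSemidef.of_dotProduct_mulVec_nonneg hs
  intro w
  simpa using h w

omit [DecidableEq ι] in
theorem quad_of_psd {A : Matrix ι ι ℝ} (h : A.PosSemidef) (w : ι → ℝ) : 0 ≤ w ⬝ᵥ (A *ᵥ w) := by
  have := h.dotProduct_mulVec_nonneg w
  simpa using this

/-- resolvent facts -/
theorem resolvent (C : Matrix ι ι ℝ) (hC : C.PosSemidef) {s : ℝ} (hs : 0 < s) :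
    (1 + s • C) * (1 + s • C)⁻¹ = 1 ∧ (1 + s • C)⁻¹ * (1 + s • C) = 1 ∧
    (1 + s • C)⁻¹.PosSemidef ∧ (s⁻¹ • (1 - (1 + s • C)⁻¹)).PosSemidef ∧
    (s⁻¹ • (1 - (1 + s • C)⁻¹)).trace ≤ C.trace := by
  set M := 1 + s • C with hM
  have hsC : (s • C).PosSemidef := hC.smul hs.le
  have hdet : 0 < M.det := (H98Cop.logdet_ge (s • C) hsC).1
  have hu : IsUnit M.det := hdet.ne'.isUnit
  have e1 : M * M⁻¹ = 1 := Matrix.mul_nonsing_inv M hu
  have e2 : M⁻¹ * M = 1 := Matrix.nonsing_inv_mul M hu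
  have hMH : M.IsHermitian := Matrix.isHermitian_one.add hsC.isHermitian
  have hNH : M⁻¹.IsHermitian := hMH.inv
  have hHH : (s⁻¹ • (1 - M⁻¹)).IsHermitian := by
    have := Matrix.isHermitian_one.sub hNH
    rw [Matrix.IsHermitian, Matrix.conjTranspose_smul, this.eq]; simp
  have eH : s⁻¹ • (1 - M⁻¹) = C * M⁻¹ := by
    have h1 : 1 - M⁻¹ = s • (C * M⁻¹) := by
      calc 1 - M⁻¹ = M * M⁻¹ - M⁻¹ := by rw [e1]
        _ = (M - 1) * M⁻¹ := by rw [sub_mul, one_mul]
        _ = s • (C * M⁻¹) := by rw [hM, add_sub_cancel_left, Matrix.smul_mul]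
    rw [h1, smul_smul, inv_mul_cancel₀ hs.ne', one_smul]
  -- vectors
  have hvec : ∀ w : ι → ℝ, w = M⁻¹ *ᵥ w + s • (C *ᵥ (M⁻¹ *ᵥ w)) := by
    intro w
    have : M *ᵥ (M⁻¹ *ᵥ w) = w := by rw [Matrix.mulVec_mulVec, e1, Matrix.one_mulVec]
    rw [hM, Matrix.add_mulVec, Matrix.one_mulVec, Matrix.smul_mulVec] at this
    exact this.symm
  have hN : M⁻¹.PosSemidef := by
    apply psd_of_quad _ hNH
    intro w
    have h1 := hvec w
    set y := M⁻¹ *ᵥ w with hy
    have h2 := quad_of_psd hC y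
    rw [h1, add_dotProduct, smul_dotProduct, dotProduct_comm (C *ᵥ y) y]
    have h3 : 0 ≤ y ⬝ᵥ y := dp_self_nonneg y
    rw [smul_eq_mul]
    have := mul_nonneg hs.le h2
    linarith
  have hH : (s⁻¹ • (1 - M⁻¹)).PosSemidef := by
    apply psd_of_quad _ hHH
    intro w
    rw [eH, ← Matrix.mulVec_mulVec]
    have h1 := hvec w
    set y := M⁻¹ *ᵥ w with hy
    have h2 := quad_of_psd hC y
    have h3 : 0 ≤ (C *ᵥ y) ⬝ᵥ (C *ᵥ y) := dp_self_nonneg _
    have h4 : w ⬝ᵥ (C *ᵥ y) = y ⬝ᵥ (C *ᵥ y) + s * ((C *ᵥ y) ⬝ᵥ (C *ᵥ y)) := by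
      conv_lhs => rw [h1]
      rw [add_dotProduct, smul_dotProduct, smul_eq_mul]
    rw [h4]
    have := mul_nonneg hs.le h3
    linarith
  refine ⟨e1, e2, hN, hH, ?_⟩
  have h1 := trace_mul_nonneg C _ hC hH
  have h2 : C.trace - (s⁻¹ • (1 - M⁻¹)).trace = s * (C * (s⁻¹ • (1 - M⁻¹))).trace := by
    rw [← Matrix.trace_sub]
    have h3 : C - s⁻¹ • (1 - M⁻¹) = s • (C * (s⁻¹ • (1 - M⁻¹))) := by
      rw [Matrix.mul_smul, smul_smul, mul_inv_cancel₀ hs.ne', one_smul, mul_sub, mul_one, eH]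
    rw [h3, Matrix.trace_smul, smul_eq_mul]
  have := mul_nonneg hs.le h1
  linarith

/-! ## the proximal map -/

/-- squared distance -/
noncomputable def sq (x y : ι → ℝ) : ℝ := ∑ i, (x i - y i) ^ 2

/-- the covariance matrix -/
noncomputable def CM (p : Finset ι → ℝ) (z : ι → ℝ) : Matrix ι ι ℝ := Matrix.of fun i j => Cv p i j z

namespace PN

variable {p : Finset ι → ℝ} (hp : PN p)
include hp

theorem CM_psd (z : ι → ℝ) : (CM p z).PosSemidef := by
  apply psd_of_quad
  · ext i j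
    simp only [CM, Matrix.conjTranspose_apply, Matrix.of_apply, star_trivial]
    exact Cv_symm j i z
  · intro w
    have h := hp.Cv_psd z w
    have e : w ⬝ᵥ (CM p z *ᵥ w) = ∑ i, ∑ j, w i * w j * Cv p i j z := by
      unfold CM dotProduct mulVec dotProduct
      apply Finset.sum_congr rfl
      intro i _
      rw [Finset.mul_sum]
      apply Finset.sum_congr rfl
      intro j _
      simp only [Matrix.of_apply]; ring
    rw [e]; exact h

theorem continuous_logZ : Continuous (fun y => Real.log (Zq p y)) :=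
  (continuous_Zq p).log fun y => (hp.Zpos y).ne'

theorem hasFDerivAt_logZ (z : ι → ℝ) :
    HasFDerivAt (fun y => Real.log (Zq p y)) (∑ j, Pr p j z • (pj j : (ι → ℝ) →L[ℝ] ℝ)) z := by
  have h := (hasFDerivAt_Zq p z).log (hp.Zpos z).ne'
  refine h.congr_fderiv ?_
  rw [Finset.smul_sum]
  apply Finset.sum_congr rfl
  intro j _
  rw [smul_smul]
  congr 1
  unfold Pr
  rw [mul_comm, div_eq_mul_inv]

/-- existence of the proximal point -/
theorem exists_prox {s : ℝ} (hs : 0 < s) (b : ι → ℝ) : ∃ z : ι → ℝ, ∀ i, z i + s * Pr p i z = b i := by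
  set Φ : (ι → ℝ) → ℝ := fun z => Real.log (Zq p z) + (2 * s)⁻¹ * ∑ i, (z i - b i) ^ 2 with hΦ
  have hcont : Continuous Φ := by
    have := hp.continuous_logZ
    have h2 : Continuous (fun z : ι → ℝ => ∑ i, (z i - b i) ^ 2) := by fun_prop
    exact this.add (h2.const_mul _)
  have hbdd : Bornology.IsBounded {z | Φ z ≤ Φ b} := by
    apply (Metric.isBounded_closedBall (x := b) (r := 4 * s + Fintype.card ι * s)).subset
    intro z hz
    have hz' : Φ z ≤ Φ b := hz
    rw [Metric.mem_closedBall, dist_pi_le_iff (by positivity)]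
    intro m
    rw [Real.dist_eq]
    by_contra hm
    push Not at hm
    have h1 := hp.log_lip b z
    have h2 := (abs_le.1 h1).1
    have h3 : ∑ i, |z i - b i| < (2 * s)⁻¹ * ∑ i, (z i - b i) ^ 2 := by
      rw [← sub_pos, Finset.mul_sum, ← Finset.sum_sub_distrib]
      rw [← Finset.add_sum_erase _ _ (Finset.mem_univ m)]
      have h4 : ∀ i ∈ Finset.univ.erase m, -(s / 2) ≤ (2 * s)⁻¹ * (z i - b i) ^ 2 - |z i - b i| := by
        intro i _
        have : (2 * s)⁻¹ * (z i - b i) ^ 2 - |z i - b i| + s / 2 =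
            (2 * s)⁻¹ * (|z i - b i| - s) ^ 2 := by
          rw [← sq_abs (z i - b i)]; field_simp; ring
        have h5 : 0 ≤ (2 * s)⁻¹ * (|z i - b i| - s) ^ 2 := by positivity
        linarith
      have h5 := Finset.sum_le_sum h4
      rw [Finset.sum_const, nsmul_eq_mul] at h5
      have h6 : ((Finset.univ.erase m).card : ℝ) ≤ Fintype.card ι := by
        exact_mod_cast Finset.card_le_univ _
      set t := |z m - b m| with ht
      have h7 : (2 * s)⁻¹ * (z m - b m) ^ 2 = t * (t / (2 * s)) := by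
        rw [ht, ← sq_abs]; field_simp
      have hcard : (0:ℝ) ≤ Fintype.card ι := Nat.cast_nonneg _
      have h8 : 2 ≤ t / (2 * s) := by
        rw [le_div_iff₀ (by positivity)]
        nlinarith [mul_nonneg hcard hs.le]
      have h9 : 0 < t := by
        have := mul_nonneg hcard hs.le
        linarith
      have h10 : t ≤ t * (t / (2 * s)) - t := by nlinarith
      rw [h7]
      have h11 : ((Finset.univ.erase m).card : ℝ) * -(s / 2) ≥ -(Fintype.card ι * s) := by
        nlinarith [mul_nonneg hcard hs.le, mul_le_mul_of_nonneg_right h6 hs.le]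
      linarith
    have h5 : Φ b = Real.log (Zq p b) := by rw [hΦ]; simp
    rw [h5] at hz'
    have h6 : Φ z = Real.log (Zq p z) + (2 * s)⁻¹ * ∑ i, (z i - b i) ^ 2 := rfl
    linarith
  obtain ⟨z, hz⟩ := hcont.exists_forall_le_of_isBounded b hbdd
  refine ⟨z, fun i => ?_⟩
  have hd1 : HasFDerivAt (fun z : ι → ℝ => ∑ i, (z i - b i) ^ 2)
      (∑ j, (2 * (z j - b j)) • (pj j : (ι → ℝ) →L[ℝ] ℝ)) z := by
    apply HasFDerivAt.fun_sum
    intro j _
    have h2 := (((pj j : (ι → ℝ) →L[ℝ] ℝ).hasFDerivAt (x := z)).sub_const (b j)).pow 2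
    convert! h2 using 1
    simp
  have hd := (hp.hasFDerivAt_logZ z).add (hd1.const_mul (2 * s)⁻¹)
  have hmin : IsLocalMin Φ z := Filter.Eventually.of_forall hz
  have h0 := hmin.hasFDerivAt_eq_zero hd
  have h1 := congrArg (fun L : (ι → ℝ) →L[ℝ] ℝ => L (Pi.single i 1)) h0
  simp [Pi.single_apply] at h1
  field_simp at h1
  linarith

/-- the proximal point -/
noncomputable def prox {s : ℝ} (hs : 0 < s) (b : ι → ℝ) : ι → ℝ := (hp.exists_prox hs b).choose

theorem prox_spec {s : ℝ} (hs : 0 < s) (b : ι → ℝ) (i : ι) :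
    hp.prox hs b i + s * Pr p i (hp.prox hs b) = b i := (hp.exists_prox hs b).choose_spec i

theorem prox_lip {s : ℝ} (hs : 0 < s) (b b' : ι → ℝ) :
    sq (hp.prox hs b) (hp.prox hs b') ≤ sq b b' := by
  set z := hp.prox hs b with hz
  set z' := hp.prox hs b' with hz'
  have h1 := hp.grad_mono z z'
  have e : ∀ i, b i - b' i = (z i - z' i) + s * (Pr p i z - Pr p i z') := by
    intro i
    rw [← hp.prox_spec hs b i, ← hp.prox_spec hs b' i]; ring
  unfold sq
  simp_rw [e]
  have h2 : ∀ i, ((z i - z' i) + s * (Pr p i z - Pr p i z')) ^ 2 =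
      (z i - z' i) ^ 2 + 2 * s * ((Pr p i z - Pr p i z') * (z i - z' i)) +
        s ^ 2 * (Pr p i z - Pr p i z') ^ 2 := by intro i; ring
  simp_rw [h2]
  rw [Finset.sum_add_distrib, Finset.sum_add_distrib, ← Finset.mul_sum, ← Finset.mul_sum]
  have h3 : 0 ≤ ∑ i, (Pr p i z - Pr p i z') ^ 2 := Finset.sum_nonneg fun i _ => sq_nonneg _
  have := mul_nonneg (mul_nonneg (by norm_num : (0:ℝ) ≤ 2) hs.le) h1
  have := mul_nonneg (sq_nonneg s) h3
  linarith

theorem continuous_prox {s : ℝ} (hs : 0 < s) : Continuous (hp.prox hs) := by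
  apply continuous_pi
  intro i
  rw [continuous_iff_continuousAt]
  intro b
  unfold ContinuousAt
  rw [tendsto_iff_dist_tendsto_zero]
  have h1 : Tendsto (fun b' => Real.sqrt (sq b' b)) (𝓝 b) (𝓝 0) := by
    have hc : Continuous (fun b' : ι → ℝ => Real.sqrt (sq b' b)) := by
      unfold sq; fun_prop
    have := hc.tendsto b
    have h0 : Real.sqrt (sq b b) = 0 := by unfold sq; simp
    rwa [h0] at this
  refine squeeze_zero (fun _ => dist_nonneg) (fun b' => ?_) h1
  rw [Real.dist_eq, ← Real.sqrt_sq_eq_abs]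
  apply Real.sqrt_le_sqrt
  refine le_trans ?_ (hp.prox_lip hs b' b)
  unfold sq
  exact Finset.single_le_sum (f := fun i => (hp.prox hs b' i - hp.prox hs b i) ^ 2)
    (fun i _ => sq_nonneg _) (Finset.mem_univ i)

/-- resolvent of the covariance matrix at the proximal point -/
noncomputable def Nm {s : ℝ} (hs : 0 < s) (b : ι → ℝ) : Matrix ι ι ℝ :=
  (1 + s • CM p (hp.prox hs b))⁻¹

/-- derivative matrix of the envelope gradient -/
noncomputable def Hm {s : ℝ} (hs : 0 < s) (b : ι → ℝ) : Matrix ι ι ℝ :=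
  s⁻¹ • (1 - hp.Nm hs b)

/-- gradient of the envelope -/
noncomputable def Xf {s : ℝ} (hs : 0 < s) (b : ι → ℝ) (i : ι) : ℝ := Pr p i (hp.prox hs b)

theorem Xf_eq {s : ℝ} (hs : 0 < s) (b : ι → ℝ) (i : ι) :
    hp.Xf hs b i = s⁻¹ * (b i - hp.prox hs b i) := by
  have := hp.prox_spec hs b i
  unfold Xf
  rw [← this]
  field_simp
  ring

theorem prox_eq {s : ℝ} (hs : 0 < s) (b : ι → ℝ) (i : ι) :
    hp.prox hs b i = b i - s * hp.Xf hs b i := by
  have := hp.prox_spec hs b i
  unfold Xf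
  linarith

theorem Xf_nonneg {s : ℝ} (hs : 0 < s) (b : ι → ℝ) (i : ι) : 0 ≤ hp.Xf hs b i := hp.Pr_nonneg i _

theorem Xf_le_one {s : ℝ} (hs : 0 < s) (b : ι → ℝ) (i : ι) : hp.Xf hs b i ≤ 1 := hp.Pr_le_one i _

theorem Xf_mono {s : ℝ} (hs : 0 < s) (b b' : ι → ℝ) :
    0 ≤ ∑ i, (hp.Xf hs b i - hp.Xf hs b' i) * (b i - b' i) := by
  have h1 := hp.grad_mono (hp.prox hs b) (hp.prox hs b')
  have h2 : ∀ i, (hp.Xf hs b i - hp.Xf hs b' i) * (b i - b' i) =
      (Pr p i (hp.prox hs b) - Pr p i (hp.prox hs b')) * (hp.prox hs b i - hp.prox hs b' i) +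
        s * (hp.Xf hs b i - hp.Xf hs b' i) ^ 2 := by
    intro i
    rw [hp.prox_eq hs b i, hp.prox_eq hs b' i]
    unfold Xf; ring
  simp_rw [h2]
  rw [Finset.sum_add_distrib]
  have h3 : 0 ≤ ∑ i, s * (hp.Xf hs b i - hp.Xf hs b' i) ^ 2 :=
    Finset.sum_nonneg fun i _ => by positivity
  linarith

theorem hasFDerivAt_T (s : ℝ) (z : ι → ℝ) :
    HasFDerivAt (fun z : ι → ℝ => fun i => z i + s * Pr p i z)
      (LinearMap.toContinuousLinearMap (Matrix.toLin' (1 + s • CM p z))) z := by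
  rw [hasFDerivAt_pi']
  intro i
  have h1 : HasFDerivAt (fun x : ι → ℝ => x i + s * Pr p i x)
      (pj i + s • ∑ j, Cv p i j z • pj j) z :=
    ((pj i).hasFDerivAt).add ((hp.hasFDerivAt_Pr i z).const_mul s)
  refine h1.congr_fderiv ?_
  ext v
  simp only [_root_.add_apply, ContinuousLinearMap.proj_apply,
    ContinuousLinearMap.coe_comp, Function.comp_apply, LinearMap.coe_toContinuousLinearMap',
    Matrix.toLin'_apply, Matrix.add_mulVec, Matrix.one_mulVec, Pi.add_apply, Matrix.mulVec, dotProduct]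
  simp [CM, Finset.mul_sum, mul_assoc]

theorem resolv {s : ℝ} (hs : 0 < s) (b : ι → ℝ) :
    (1 + s • CM p (hp.prox hs b)) * hp.Nm hs b = 1 ∧ hp.Nm hs b * (1 + s • CM p (hp.prox hs b)) = 1 ∧
    (hp.Nm hs b).PosSemidef ∧ (hp.Hm hs b).PosSemidef ∧
    (hp.Hm hs b).trace ≤ (CM p (hp.prox hs b)).trace :=
  resolvent (CM p (hp.prox hs b)) (hp.CM_psd _) hs

theorem hasFDerivAt_prox {s : ℝ} (hs : 0 < s) (b : ι → ℝ) :
    HasFDerivAt (hp.prox hs) (LinearMap.toContinuousLinearMap (Matrix.toLin' (hp.Nm hs b))) b := by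
  obtain ⟨e1, e2, -, -, -⟩ := hp.resolv hs b
  set M := 1 + s • CM p (hp.prox hs b) with hM
  set N := hp.Nm hs b with hN
  set f1 : (ι → ℝ) →L[ℝ] (ι → ℝ) := LinearMap.toContinuousLinearMap (Matrix.toLin' M) with hf1
  set f2 : (ι → ℝ) →L[ℝ] (ι → ℝ) := LinearMap.toContinuousLinearMap (Matrix.toLin' N) with hf2
  have l1 : Function.LeftInverse f2 f1 := by
    intro v
    simp only [hf1, hf2, LinearMap.coe_toContinuousLinearMap', Matrix.toLin'_apply]
    rw [Matrix.mulVec_mulVec, e2, Matrix.one_mulVec]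
  have l2 : Function.RightInverse f2 f1 := by
    intro v
    simp only [hf1, hf2, LinearMap.coe_toContinuousLinearMap', Matrix.toLin'_apply]
    rw [Matrix.mulVec_mulVec, e1, Matrix.one_mulVec]
  set e : (ι → ℝ) ≃L[ℝ] (ι → ℝ) := ContinuousLinearEquiv.equivOfInverse f1 f2 l1 l2 with he
  have hd : HasFDerivAt (fun z : ι → ℝ => fun i => z i + s * Pr p i z)
      (e : (ι → ℝ) →L[ℝ] (ι → ℝ)) (hp.prox hs b) := hp.hasFDerivAt_T s (hp.prox hs b)
  have h := HasFDerivAt.of_local_left_inverse (hp.continuous_prox hs).continuousAt hd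
    (Filter.Eventually.of_forall fun y => funext fun i => hp.prox_spec hs y i)
  exact h

theorem hasFDerivAt_Xf {s : ℝ} (hs : 0 < s) (b : ι → ℝ) (i : ι) :
    HasFDerivAt (fun b => hp.Xf hs b i) (∑ j, hp.Hm hs b i j • (pj j : (ι → ℝ) →L[ℝ] ℝ)) b := by
  have e : (fun b => hp.Xf hs b i) = fun b => s⁻¹ * (b i - hp.prox hs b i) :=
    funext fun b => hp.Xf_eq hs b i
  rw [e]
  have h1 := (hasFDerivAt_pi'.1 (hp.hasFDerivAt_prox hs b)) i
  have h2 := (((pj i : (ι → ℝ) →L[ℝ] ℝ).hasFDerivAt (x := b)).sub h1).const_mul s⁻¹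
  refine h2.congr_fderiv ?_
  ext v
  simp only [_root_.smul_apply, _root_.sub_apply,
    ContinuousLinearMap.proj_apply, ContinuousLinearMap.coe_comp, Function.comp_apply,
    LinearMap.coe_toContinuousLinearMap', Matrix.toLin'_apply, Matrix.mulVec, dotProduct, smul_eq_mul]
  unfold Hm
  simp only [Matrix.smul_apply, Matrix.sub_apply, smul_eq_mul]
  simp [Matrix.one_apply, sub_mul, mul_sub, Finset.sum_sub_distrib, Finset.mul_sum, mul_assoc]

theorem continuous_Xf {s : ℝ} (hs : 0 < s) (i : ι) : Continuous (fun b => hp.Xf hs b i) :=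
  (hp.continuous_Pr i).comp (hp.continuous_prox hs)

theorem continuous_Hm {s : ℝ} (hs : 0 < s) (i j : ι) : Continuous (fun b => hp.Hm hs b i j) := by
  have hM : Continuous (fun b => (1 : Matrix ι ι ℝ) + s • CM p (hp.prox hs b)) := by
    have hCM : Continuous (fun b => CM p (hp.prox hs b)) := by
      apply continuous_matrix
      intro i j
      unfold CM
      simp only [Matrix.of_apply]
      exact (hp.continuous_Cv i j).comp (hp.continuous_prox hs)
    exact continuous_const.add (hCM.const_smul s)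
  have hdet : ∀ b, ((1 : Matrix ι ι ℝ) + s • CM p (hp.prox hs b)).det ≠ 0 := fun b =>
    (H98Cop.logdet_ge (s • CM p (hp.prox hs b)) ((hp.CM_psd _).smul hs.le)).1.ne'
  unfold Hm Nm
  simp only [Matrix.smul_apply, Matrix.sub_apply, smul_eq_mul]
  apply Continuous.const_mul
  apply Continuous.sub continuous_const
  have e : (fun b => ((1 : Matrix ι ι ℝ) + s • CM p (hp.prox hs b))⁻¹ i j) =
      fun b => (((1 : Matrix ι ι ℝ) + s • CM p (hp.prox hs b)).det)⁻¹ *
        ((1 : Matrix ι ι ℝ) + s • CM p (hp.prox hs b)).adjugate i j := by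
    funext b
    rw [Matrix.inv_def, Matrix.smul_apply, Ring.inverse_eq_inv', smul_eq_mul]
  rw [e]
  apply Continuous.mul
  · exact (hM.matrix_det).inv₀ hdet
  · exact (hM.matrix_adjugate).matrix_elem i j

omit hp in
theorem psd_entry {A : Matrix ι ι ℝ} (hA : A.PosSemidef) {B : ℝ} (hB : ∀ i, A i i ≤ B) (i j : ι) :
    |A i j| ≤ B := by
  have hsymm : A j i = A i j := by
    have := congrFun (congrFun hA.isHermitian.eq i) j
    simpa using this
  by_cases hij : i = j
  · subst hij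
    rw [abs_of_nonneg hA.diag_nonneg]; exact hB i
  · have key : ∀ c : ℝ, 0 ≤ A i i + 2 * c * A i j + c ^ 2 * A j j := by
      intro c
      have h := quad_of_psd hA (Pi.single i 1 + Pi.single j c)
      have e : (Pi.single i 1 + Pi.single j c : ι → ℝ) ⬝ᵥ (A *ᵥ (Pi.single i 1 + Pi.single j c)) =
          A i i + 2 * c * A i j + c ^ 2 * A j j := by
        rw [Matrix.mulVec_add, add_dotProduct, dotProduct_add, dotProduct_add]
        simp [Matrix.mulVec_single]
        rw [hsymm]; ring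
      rw [e] at h; exact h
    have h1 := key 1
    have h2 := key (-1)
    have hi := hB i
    have hj := hB j
    rw [abs_le]
    constructor <;> linarith

theorem Hm_entry {s : ℝ} (hs : 0 < s) (b : ι → ℝ) (i j : ι) : |hp.Hm hs b i j| ≤ s⁻¹ := by
  obtain ⟨-, -, hN, hH, -⟩ := hp.resolv hs b
  apply psd_entry hH
  intro i
  unfold Hm
  simp only [Matrix.smul_apply, Matrix.sub_apply, smul_eq_mul, Matrix.one_apply_eq]
  have := hN.diag_nonneg (i := i)
  have hs' : 0 < s⁻¹ := inv_pos.2 hs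
  nlinarith

theorem Hm_trace {s : ℝ} (hs : 0 < s) (b : ι → ℝ) : (hp.Hm hs b).trace ≤ ∑ i, hp.Xf hs b i := by
  obtain ⟨-, -, -, -, h⟩ := hp.resolv hs b
  refine h.trans ?_
  unfold Matrix.trace CM Xf
  apply Finset.sum_le_sum
  intro i _
  simp only [Matrix.diag_apply, Matrix.of_apply]
  exact hp.Cv_self_le i _

theorem Hm_trace_mul {s s' : ℝ} (hs : 0 < s) (hs' : 0 < s') (b b' : ι → ℝ) :
    (hp.Hm hs b * hp.Hm hs' b').trace ≤ (∑ i, hp.Xf hs b i) * s'⁻¹ := by
  obtain ⟨-, -, -, hH, -⟩ := hp.resolv hs b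
  obtain ⟨-, -, hN', -, -⟩ := hp.resolv hs' b'
  have h1 := trace_mul_nonneg _ _ hH (hN'.smul (inv_nonneg.2 hs'.le))
  have h2 : hp.Hm hs b * (s'⁻¹ • hp.Nm hs' b') =
      s'⁻¹ • hp.Hm hs b - hp.Hm hs b * hp.Hm hs' b' := by
    have : s'⁻¹ • hp.Nm hs' b' = s'⁻¹ • (1 : Matrix ι ι ℝ) - hp.Hm hs' b' := by
      unfold Hm; rw [smul_sub]; abel
    rw [this, mul_sub, Matrix.mul_smul, mul_one]
  rw [h2, Matrix.trace_sub, Matrix.trace_smul, smul_eq_mul] at h1
  have h3 := mul_le_mul_of_nonneg_left (hp.Hm_trace hs b) (inv_nonneg.2 hs'.le)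
  linarith

end PN

end H98G
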