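import Pool.Agent.Helper98.CopG.Recursion
import Pool.Agent.Helper98.Cop.Neg

set_option autoImplicit false

/-! # Negative `h` by the sign flip symmetry -/

namespace H98G

open MeasureTheory ProbabilityTheory Filter Topology
open Cop764 (Data)
open H98Cop (phi_flip S_split Zw_flip Z_eq_Zw Z_flip neg_mp)

/-- integrability and symmetry for negative `h` -/
theorem Ker.neg_h (k : Ker) (lam : ℝ) (hlam : 0 < lam) (h : ℝ) (hh : 0 ≤ h) :
    ∀ᶠ N in atTop, Integrable (fun ω => Real.log (Cop764.Z k.κ lam (-h) N ω))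
        (Cop764.disorder (gaussianReal 0 1)) ∧
      Cop764.feN k.κ (gaussianReal 0 1) lam (-h) N =
        2 * lam * h + Cop764.feN k.κ (gaussianReal 0 1) lam h N := by
  obtain ⟨c0, n0, hK⟩ := Cop764.M_K.J_K (k.D lam hlam)
  have hint := (Cop764.M_int.J_int (k.D lam hlam) c0 n0 hK h hh).2.2
  filter_upwards [eventually_ge_atTop n0, eventually_ge_atTop 1] with N hN hN1
  have hi := hint N hN
  have hNr : (0:ℝ) < N := by exact_mod_cast hN1
  have hlog : ∀ ω, Real.log (Cop764.Z k.κ lam (-h) N ω) =
      (-2 * lam * ∑ n ∈ Finset.Ioc 0 N, ω n + 2 * lam * h * N) +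
        Real.log (Cop764.Z k.κ lam h N (fun n => -ω n)) := by
    intro ω
    have hpos := (Cop764.M_Zmono.J_Zmono k.κ lam hlam.le (fun n => -ω n) N h h le_rfl).1
    rw [Z_flip k.κ k.κ0, Real.log_mul (Real.exp_pos _).ne' hpos.ne', Real.log_exp]
  have hi2 : Integrable (fun ω : ℕ → ℝ => Real.log (Cop764.Z k.κ lam h N (fun n => -ω n)))
      (Cop764.disorder (gaussianReal 0 1)) := neg_mp.integrable_comp_of_integrable hi
  have hid : ∀ n, Integrable (fun ω : ℕ → ℝ => ω n) (Cop764.disorder (gaussianReal 0 1)) := by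
    intro n
    have hmp := measurePreserving_eval_infinitePi (fun _ : ℕ => gaussianReal 0 1) n
    have h1 : Integrable (fun x : ℝ => x) (gaussianReal 0 1) := by
      have := memLp_id_gaussianReal (μ := 0) (v := 1) 1
      exact this.integrable (by simp)
    exact hmp.integrable_comp_of_integrable h1
  have hmean : ∀ n, ∫ ω : ℕ → ℝ, ω n ∂(Cop764.disorder (gaussianReal 0 1)) = 0 := by
    intro n
    have hmp := measurePreserving_eval_infinitePi (fun _ : ℕ => gaussianReal 0 1) n
    have h1 := integral_map (μ := Measure.infinitePi (fun _ : ℕ => gaussianReal 0 1))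
      (φ := fun ω : ℕ → ℝ => ω n) hmp.measurable.aemeasurable (f := fun x : ℝ => x)
      (by fun_prop)
    rw [hmp.map_eq] at h1
    unfold Cop764.disorder
    rw [← h1]
    simp
  have hsum : Integrable (fun ω : ℕ → ℝ => -2 * lam * ∑ n ∈ Finset.Ioc 0 N, ω n + 2 * lam * h * N)
      (Cop764.disorder (gaussianReal 0 1)) :=
    ((integrable_finsetSum _ fun n _ => hid n).const_mul _).add (integrable_const _)
  constructor
  · simp only [hlog]
    exact hsum.add hi2
  · unfold Cop764.feN
    simp only [hlog]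
    rw [integral_add hsum hi2, integral_add ((integrable_finsetSum _ fun n _ => hid n).const_mul _)
      (integrable_const _), integral_const_mul, integral_finsetSum _ (fun n _ => hid n)]
    simp only [hmean, Finset.sum_const_zero, mul_zero, integral_const, probReal_univ, smul_eq_mul,
      one_mul, zero_add]
    have hmap := integral_map (μ := Cop764.disorder (gaussianReal 0 1))
      (φ := fun (ω : ℕ → ℝ) (n : ℕ) => -ω n) neg_mp.measurable.aemeasurable
      (f := fun ω => Real.log (Cop764.Z k.κ lam h N ω))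
      (by rw [neg_mp.map_eq]; exact hi.aestronglyMeasurable)
    rw [neg_mp.map_eq] at hmap
    rw [← hmap]
    field_simp

/-- everything about the free energy on the whole line -/
theorem Ker.full (k : Ker) (lam : ℝ) (hlam : 0 < lam) :
    (∀ h, ∀ᶠ N in atTop, Integrable (fun ω => Real.log (Cop764.Z k.κ lam h N ω))
        (Cop764.disorder (gaussianReal 0 1))) ∧
    (∀ h, Tendsto (Cop764.feN k.κ (gaussianReal 0 1) lam h) atTop
      (𝓝 (Cop764.freeEnergy k.κ (gaussianReal 0 1) lam h))) ∧
    (∀ h, 0 ≤ h → Cop764.freeEnergy k.κ (gaussianReal 0 1) lam (-h) =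
      2 * lam * h + Cop764.freeEnergy k.κ (gaussianReal 0 1) lam h) := by
  obtain ⟨c0, n0, hK⟩ := Cop764.M_K.J_K (k.D lam hlam)
  have hpos : ∀ h, 0 ≤ h → Tendsto (Cop764.feN k.κ (gaussianReal 0 1) lam h) atTop
      (𝓝 (Cop764.freeEnergy k.κ (gaussianReal 0 1) lam h)) := fun h hh =>
    (Cop764.M_fe.J_fe (k.D lam hlam) h hh).1
  have hneg : ∀ h, 0 ≤ h → Tendsto (Cop764.feN k.κ (gaussianReal 0 1) lam (-h)) atTop
      (𝓝 (2 * lam * h + Cop764.freeEnergy k.κ (gaussianReal 0 1) lam h)) := by
    intro h hh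
    refine ((hpos h hh).const_add (2 * lam * h)).congr' ?_
    filter_upwards [k.neg_h lam hlam h hh] with N hN
    exact hN.2.symm
  refine ⟨fun h => ?_, fun h => ?_, fun h hh => ?_⟩
  · rcases le_or_gt 0 h with hh | hh
    · filter_upwards [eventually_ge_atTop n0] with N hN
      exact (Cop764.M_int.J_int (k.D lam hlam) c0 n0 hK h hh).2.2 N hN
    · have := k.neg_h lam hlam (-h) (by linarith)
      rw [neg_neg] at this
      exact this.mono fun N hN => hN.1
  · rcases le_or_gt 0 h with hh | hh
    · exact hpos h hh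
    · have := hneg (-h) (by linarith)
      rw [neg_neg] at this
      have h2 := this.limUnder_eq
      unfold Cop764.freeEnergy at this ⊢
      rw [h2]
      exact this
  · exact (hneg h hh).limUnder_eq

end H98G
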