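import Pool.Agent.Helper98.CopG.Link
import Pool.Agent.Helper98.CopG.Gibbs
import Pool.Agent.Helper98.Cop.Pattern

set_option autoImplicit false

/-! # Quasi-monotonicity of the Gibbs contact probabilities -/

namespace H98G

/-- index set of the finite volume model -/
abbrev Ix (ℓ : ℕ) : Type := ↥(Finset.Ioc 0 ℓ)

/-- pattern weights of the finite volume model -/
noncomputable def Ker.p (k : Ker) (ℓ : ℕ) (A : Finset (Ix ℓ)) : ℝ :=
  H98Cop.W k.f (A.map (Function.Embedding.subtype _)) 0 ℓ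

/-- pinned partition function as a finite Gibbs partition function -/
theorem Ker.G_eq (k : Ker) (ℓ : ℕ) (w : ℕ → ℝ) :
    Cop764.G (fun n => (k.κ n).toReal) w 0 ℓ = Zq (k.p ℓ) (fun i : Ix ℓ => w i.1) := by
  rw [H98Cop.G_eq_sum _ _ 0 ℓ (Nat.zero_le _)]
  unfold Zq Ker.p
  symm
  apply Finset.sum_nbij' (fun A : Finset (Ix ℓ) => A.map (Function.Embedding.subtype _))
    (fun B : Finset ℕ => B.subtype (fun n => n ∈ Finset.Ioc 0 ℓ))
  · intro A _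
    rw [Finset.mem_powerset]
    intro n hn
    rw [Finset.mem_map] at hn
    obtain ⟨a, _, rfl⟩ := hn
    exact a.2
  · intro B _; exact Finset.mem_univ _
  · intro A _
    ext a
    simp
  · intro B hB
    rw [Finset.mem_powerset] at hB
    rw [Finset.subtype_map]
    apply Finset.filter_true_of_mem
    intro n hn; exact hB hn
  · intro A _
    rw [Finset.sum_map]
    rfl

/-- positivity threshold of the kernel -/
noncomputable def Ker.nn (k : Ker) : ℕ := k.hyps.choose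

theorem Ker.nn_spec (k : Ker) : ∃ (CP C0 C1 : ℝ), KH k.nn k.f CP C0 ∧ KH2 k.nn k.f C1 ∧
    ∀ m, k.nn ≤ m → 0 < k.f m := k.hyps.choose_spec

theorem Ker.pn (k : Ker) (ℓ : ℕ) (hℓ : k.nn ≤ ℓ) : PN (k.p ℓ) where
  nonneg := fun A => H98Cop.W_nonneg k.f k.f_nonneg _ _ _
  pos := by
    obtain ⟨CP, C0, C1, hk, hk2, hpos⟩ := k.nn_spec
    have hn := hk.npos
    refine ⟨∅, ?_⟩
    unfold Ker.p
    rw [Finset.map_empty, H98Cop.W_lt k.f ∅ (by omega : 0 < ℓ)]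
    apply Finset.sum_pos'
    · intro j _
      split_ifs
      · exact mul_nonneg (k.f_nonneg _) (H98Cop.W_nonneg k.f k.f_nonneg _ _ _)
      · exact le_rfl
    · refine ⟨ℓ, Finset.mem_Ioc.2 ⟨by omega, le_rfl⟩, ?_⟩
      rw [if_pos (show H98Cop.cst ∅ 0 ℓ from Or.inr fun n _ => Finset.notMem_empty n),
        H98Cop.W_self, mul_one]
      exact hpos _ (by omega)

/-- extension of a field by zero -/
noncomputable def ex {ℓ : ℕ} (y : Ix ℓ → ℝ) : ℕ → ℝ := fun n =>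
  if h : n ∈ Finset.Ioc 0 ℓ then y ⟨n, h⟩ else 0

theorem ex_coe {ℓ : ℕ} (y : Ix ℓ → ℝ) (i : Ix ℓ) : ex y i.1 = y i := by
  unfold ex; rw [dif_pos i.2]

theorem ex_le {ℓ : ℕ} {y y' : Ix ℓ → ℝ} (h : ∀ m, y m ≤ y' m) (n : ℕ) : ex y n ≤ ex y' n := by
  unfold ex
  split_ifs with h1
  · exact h _
  · exact le_rfl

theorem Ker.Zq_ZZ (k : Ker) (ℓ : ℕ) (y : Ix ℓ → ℝ) (i : Ix ℓ) :
    Zq (k.p ℓ) y = ZZ k.f (ex y) (rv ℓ (ex y)) (y i) (i.1 - 1) (ℓ - i.1) := by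
  have hi := Finset.mem_Ioc.1 i.2
  have h1 := k.G_eq ℓ (ex y)
  have h2 : (fun j : Ix ℓ => ex y j.1) = y := funext fun j => ex_coe y j
  rw [h2] at h1
  rw [← h1]
  have h3 := G_ZZ (fun n => (k.κ n).toReal) (ex y) (i.1 - 1) (ℓ - i.1)
  rw [show i.1 - 1 + 1 + (ℓ - i.1) = ℓ by omega, show i.1 - 1 + 1 = i.1 by omega, ex_coe] at h3
  exact h3

section gen
variable {ι : Type*} [Fintype ι] [DecidableEq ι]

theorem Zq_update (p : Finset ι → ℝ) (i : ι) (y : ι → ℝ) :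
    Zq p (Function.update y i (y i + Real.log 2)) = Zq p y + Zq (qi p i) y := by
  unfold Zq qi
  rw [← Finset.sum_add_distrib]
  apply Finset.sum_congr rfl
  intro A _
  by_cases h : i ∈ A
  · rw [if_pos h, Finset.sum_update_of_mem h, Finset.sum_eq_add_sum_sdiff_singleton_of_mem h y]
    rw [Real.exp_add, Real.exp_add, Real.exp_add, Real.exp_log (by norm_num)]
    ring
  · rw [if_neg h]
    rw [Finset.sum_update_of_notMem h]
    ring

end gen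

/-- the contact probability as a two sided quantity -/
theorem Ker.Pr_PP (k : Ker) (ℓ : ℕ) (y : Ix ℓ → ℝ) (i : Ix ℓ) :
    Pr (k.p ℓ) i y = PP k.f (ex y) (rv ℓ (ex y)) (y i) (i.1 - 1) (ℓ - i.1) := by
  have hi := Finset.mem_Ioc.1 i.2
  unfold Pr PP
  rw [← k.Zq_ZZ ℓ y i]
  congr 1
  have h1 := Zq_update (k.p ℓ) i y
  set y' := Function.update y i (y i + Real.log 2) with hy'
  have h2 := k.Zq_ZZ ℓ y' i
  have h3 := k.Zq_ZZ ℓ y i
  have hyi : y' i = y i + Real.log 2 := by rw [hy']; simp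
  have hex : ∀ n, n ≠ i.1 → ex y' n = ex y n := by
    intro n hn
    unfold ex
    split_ifs with h
    · rw [hy', Function.update_of_ne]
      intro hh
      apply hn
      rw [← hh]
    · rfl
  have hT : ∀ ε, Tf k.f (ex y') (rv ℓ (ex y')) ε (i.1 - 1) (ℓ - i.1) =
      Tf k.f (ex y) (rv ℓ (ex y)) ε (i.1 - 1) (ℓ - i.1) := by
    intro ε
    apply Tf_congr
    · intro n h1 h2; exact hex n (by omega)
    · intro n h1 h2; unfold rv; exact hex _ (by omega)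
  unfold ZZ at h2 h3
  rw [hT, hT, hyi, Real.exp_add, Real.exp_log (by norm_num)] at h2
  linarith

/-- neighbourhood of a site -/
def nbh (ℓ r : ℕ) (i : Ix ℓ) : Finset (Ix ℓ) :=
  Finset.univ.filter (fun m : Ix ℓ => m.1 ≤ i.1 + r ∧ i.1 ≤ m.1 + r)

theorem abs_Sf_ex_le {ℓ : ℕ} (r : ℕ) (y : Ix ℓ → ℝ) (i : Ix ℓ) (m1 m2 : ℕ)
    (h1 : i.1 ≤ m1 + 1 + r) (h2 : m2 ≤ i.1 + r) :
    |Sf (ex y) m1 m2| ≤ ∑ m ∈ nbh ℓ r i, |y m| := by
  unfold Sf
  refine (Finset.abs_sum_le_sum_abs _ _).trans ?_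
  have h3 : ∑ n ∈ Finset.Ioc m1 m2, |ex y n| = ∑ n ∈ Finset.Ioc m1 m2 ∩ Finset.Ioc 0 ℓ, |ex y n| := by
    symm
    apply Finset.sum_subset Finset.inter_subset_left
    intro n hn hn'
    have : n ∉ Finset.Ioc 0 ℓ := fun h => hn' (Finset.mem_inter.2 ⟨hn, h⟩)
    unfold ex
    rw [dif_neg this, abs_zero]
  rw [h3]
  have h4 : ∑ m ∈ nbh ℓ r i, |y m| = ∑ n ∈ (nbh ℓ r i).map (Function.Embedding.subtype _), |ex y n| := by
    rw [Finset.sum_map]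
    apply Finset.sum_congr rfl
    intro m _
    have : ex y (Function.Embedding.subtype _ m) = y m := ex_coe y m
    rw [this]
  rw [h4]
  apply Finset.sum_le_sum_of_subset_of_nonneg
  · intro n hn
    rw [Finset.mem_inter] at hn
    rw [Finset.mem_map]
    refine ⟨⟨n, hn.2⟩, ?_, rfl⟩
    unfold nbh
    rw [Finset.mem_filter]
    have := Finset.mem_Ioc.1 hn.1
    refine ⟨Finset.mem_univ _, ?_, ?_⟩
    · simp only; omega
    · simp only; omega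
  · intro n _ _; exact abs_nonneg _

theorem Sf_rv_rv (ℓ : ℕ) (w : ℕ → ℝ) (m1 m2 : ℕ) (h : m2 ≤ ℓ) :
    Sf (rv ℓ w) m1 m2 = Sf w (ℓ - m2) (ℓ - m1) := by
  rw [← Sf_rv ℓ w m1 m2 h]; rfl

/-- size of the surgery constant -/
theorem const_bound (n : ℕ) (C1 C σ : ℝ) (hC1 : 1 ≤ C1) (hC : 1 ≤ C) (hσ : 0 ≤ σ) :
    (C + 1 + M3 n C1 σ * Real.exp σ) ^ 2 ≤
      (C + 1 + 6 * n * (n + 1) * (C1 * 3 ^ (5 * n)) ^ 3 * C1) ^ 2 *
        Real.exp ((30 * n + 10) * σ) := by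
  set e := Real.exp σ with he
  have he1 : 1 ≤ e := Real.one_le_exp hσ
  have hM : Mc n C1 σ ≤ C1 * 3 ^ (5 * n) * e ^ (5 * n + 1) := by
    unfold Mc
    have h1 : (2 + e) ^ (5 * n) ≤ (3 * e) ^ (5 * n) := pow_le_pow_left₀ (by linarith) (by linarith) _
    calc C1 * e * (2 + e) ^ (5 * n) ≤ C1 * e * (3 * e) ^ (5 * n) := by gcongr
      _ = _ := by rw [mul_pow, pow_succ]; ring
  have hM0 : 0 ≤ Mc n C1 σ := by unfold Mc; positivity
  have h2 : M3 n C1 σ * e ≤ 6 * n * (n + 1) * (C1 * 3 ^ (5 * n)) ^ 3 * C1 * e ^ (15 * n + 5) := by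
    unfold M3
    calc 6 * (n:ℝ) * (n + 1) * Mc n C1 σ ^ 3 * (C1 * Real.exp σ) * e
        ≤ 6 * (n:ℝ) * (n + 1) * (C1 * 3 ^ (5 * n) * e ^ (5 * n + 1)) ^ 3 * (C1 * Real.exp σ) * e := by
          gcongr
      _ = _ := by
          rw [← he, mul_pow, ← pow_mul, show 15 * n + 5 = (5 * n + 1) * 3 + 2 by ring, pow_add]
          ring
  have h3 : 1 ≤ e ^ (15 * n + 5) := one_le_pow₀ he1
  have h4 : C + 1 + M3 n C1 σ * e ≤
      (C + 1 + 6 * n * (n + 1) * (C1 * 3 ^ (5 * n)) ^ 3 * C1) * e ^ (15 * n + 5) := by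
    have : C + 1 ≤ (C + 1) * e ^ (15 * n + 5) := by nlinarith
    calc _ ≤ (C + 1) * e ^ (15 * n + 5) +
          6 * n * (n + 1) * (C1 * 3 ^ (5 * n)) ^ 3 * C1 * e ^ (15 * n + 5) := by linarith
      _ = _ := by ring
  have h5 : 0 ≤ C + 1 + M3 n C1 σ * e := by
    have := M3_nonneg n hC1 hσ
    positivity
  calc (C + 1 + M3 n C1 σ * e) ^ 2
      ≤ ((C + 1 + 6 * n * (n + 1) * (C1 * 3 ^ (5 * n)) ^ 3 * C1) * e ^ (15 * n + 5)) ^ 2 :=
        pow_le_pow_left₀ h5 h4 2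
    _ = _ := by
        rw [mul_pow, ← pow_mul, he, ← Real.exp_nat_mul]
        congr 2
        push_cast; ring

/-- **quasi-monotonicity of the Gibbs contact probabilities** -/
theorem Ker.Pr_QM (k : Ker) : ∃ (CQ Γ : ℝ) (r : ℕ), 1 ≤ CQ ∧ 0 ≤ Γ ∧
    ∀ (ℓ : ℕ) (y2 y1 : Ix ℓ → ℝ), (∀ m, y2 m ≤ y1 m) → ∀ i : Ix ℓ, r < i.1 → i.1 + r ≤ ℓ →
      Pr (k.p ℓ) i y2 ≤ CQ * Real.exp (Γ * ∑ m ∈ nbh ℓ r i, (|y1 m| + |y2 m|)) * Pr (k.p ℓ) i y1 := by
  obtain ⟨CP, C0, C1, hk, hk2, hpos⟩ := k.nn_spec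
  set n := k.nn with hn
  have hn1 := hk.npos
  have hCP := hk.CP0
  have hC00 := hk.C00
  set C := CP + (C0 ^ 2 + 2 * C0) with hC
  have hC1 : 1 ≤ C := by nlinarith
  refine ⟨(C + 1 + 6 * n * (n + 1) * (C1 * 3 ^ (5 * n)) ^ 3 * C1) ^ 2, 30 * n + 10, 3 * n,
    ?_, by positivity, ?_⟩
  · have h1 := hk2.C10
    apply one_le_pow₀
    have : 0 ≤ 6 * (n:ℝ) * (n + 1) * (C1 * 3 ^ (5 * n)) ^ 3 * C1 := by positivity
    linarith
  intro ℓ y2 y1 hy i hi1 hi2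
  set σ := ∑ m ∈ nbh ℓ (3 * n) i, (|y1 m| + |y2 m|) with hσ
  have hσ0 : 0 ≤ σ := Finset.sum_nonneg fun m _ => by positivity
  have hi3 := Finset.mem_Ioc.1 i.2
  have hs1 : ∑ m ∈ nbh ℓ (3 * n) i, |y1 m| ≤ σ := by
    rw [hσ]; apply Finset.sum_le_sum; intro m _; linarith [abs_nonneg (y2 m)]
  have hs2 : ∑ m ∈ nbh ℓ (3 * n) i, |y2 m| ≤ σ := by
    rw [hσ]; apply Finset.sum_le_sum; intro m _; linarith [abs_nonneg (y1 m)]
  have hmi : |y2 i| ≤ σ := by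
    refine le_trans ?_ hs2
    apply Finset.single_le_sum (f := fun m => |y2 m|) (fun m _ => abs_nonneg _)
    unfold nbh
    rw [Finset.mem_filter]
    exact ⟨Finset.mem_univ _, by omega, by omega⟩
  rw [k.Pr_PP, k.Pr_PP]
  have hmain := PP_QM hk hk2 hpos C (by rw [hC]; nlinarith) (by rw [hC]; linarith)
    (ex y1) (ex y2) (rv ℓ (ex y1)) (rv ℓ (ex y2)) (y1 i) (y2 i) (i.1 - 1) (ℓ - i.1) σ hσ0
    (by omega) (by omega) (fun j _ _ => ex_le hy j) (fun j _ _ => by unfold rv; exact ex_le hy _)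
    (hy i)
    (fun m1 m2 a1 a2 a3 => (abs_Sf_ex_le (3 * n) y1 i m1 m2 (by omega) (by omega)).trans hs1)
    (fun m1 m2 a1 a2 a3 => by
      rw [Sf_rv_rv ℓ _ m1 m2 (by omega)]
      exact (abs_Sf_ex_le (3 * n) y1 i _ _ (by omega) (by omega)).trans hs1)
    (fun m1 m2 a1 a2 a3 => by
      rw [Sf_rv_rv ℓ _ m1 m2 (by omega)]
      exact (abs_Sf_ex_le (3 * n) y2 i _ _ (by omega) (by omega)).trans hs2) hmi
  refine hmain.trans ?_
  apply mul_le_mul_of_nonneg_right _ (PP_nonneg hk _ _ _ _ _)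
  exact const_bound n C1 C σ hk2.C10 hC1 hσ0

end H98G
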