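import Pool.Agent.Helper98.CopG.Comp

set_option autoImplicit false

/-! # Quasi-monotonicity of the contact probabilities -/

namespace H98G

/-- the surgery constant -/
noncomputable def M3 (n : ℕ) (C1 σ : ℝ) : ℝ :=
  6 * n * (n + 1) * Mc n C1 σ ^ 3 * (C1 * Real.exp σ)

theorem Mc_one_le (n : ℕ) {C1 σ : ℝ} (hC : 1 ≤ C1) (hσ0 : 0 ≤ σ) : 1 ≤ Mc n C1 σ :=
  hC.trans (Mc_ge n hC hσ0)

theorem M3_nonneg (n : ℕ) {C1 σ : ℝ} (hC : 1 ≤ C1) (hσ0 : 0 ≤ σ) : 0 ≤ M3 n C1 σ := by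
  have := Mc_one_le n hC hσ0
  unfold M3; positivity

section

variable {n : ℕ} {k : ℕ → ℝ} {C1 : ℝ} (hk : KH2 n k C1)
include hk

/-- recent parts -/
theorem recent_le (b c : ℕ → ℝ) (I J : ℕ) (A B : ℝ) (hA0 : 0 ≤ A) (hI : 3 * n ≤ I)
    (hA : ∀ x, x ≤ I → I + 1 < x + 3 * n → Lf k b x ≤ A)
    (hB : ∀ r, r ≤ 4 * n → Uf k c J r ≤ B) :
    ∑ x ∈ Finset.range (I + 1), (if I + 1 < x + 3 * n then Lf k b x * Uf k c J (I - x + 1) else 0)
      ≤ 3 * n * (A * B) := by
  have hn1 := hk.npos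
  have hU : ∀ r, 0 ≤ Uf k c J r := fun r => Finset.sum_nonneg fun y _ =>
    mul_nonneg (Lf_nonneg k c hk.nonneg y) (hk.nonneg _)
  rw [← Finset.sum_filter]
  have hB0 : 0 ≤ B := (hU 0).trans (hB 0 (by omega))
  calc _ ≤ ∑ x ∈ (Finset.range (I + 1)).filter (fun x => I + 1 < x + 3 * n), A * B := by
        apply Finset.sum_le_sum
        intro x hx
        rw [Finset.mem_filter, Finset.mem_range] at hx
        exact mul_le_mul (hA x (by omega) hx.2) (hB _ (by omega)) (hU _) hA0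
    _ ≤ 3 * n * (A * B) := by
        rw [Finset.sum_const, nsmul_eq_mul]
        apply mul_le_mul_of_nonneg_right _ (mul_nonneg hA0 hB0)
        have e1 : (Finset.range (I + 1)).filter (fun x => I + 1 < x + 3 * n) =
            Finset.Ico (I + 2 - 3 * n) (I + 1) := by
          ext x; simp only [Finset.mem_filter, Finset.mem_range, Finset.mem_Ico]; omega
        rw [e1, Nat.card_Ico]
        have : I + 1 - (I + 2 - 3 * n) ≤ 3 * n := by omega
        exact_mod_cast this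

/-- **surgery** -/
theorem surgery (b c : ℕ → ℝ) (I J : ℕ) (σ : ℝ) (hσ0 : 0 ≤ σ) (hI : 3 * n ≤ I) (hJ : 3 * n ≤ J)
    (hb : ∀ m1 m2, I - 2 * n ≤ m1 → m1 ≤ m2 → m2 ≤ I → |Sf b m1 m2| ≤ σ)
    (hc : ∀ m1 m2, J - 2 * n ≤ m1 → m1 ≤ m2 → m2 ≤ J → |Sf c m1 m2| ≤ σ) :
    Tf k b c 0 I J ≤ Tfar n k b c I J + M3 n C1 σ * Tf k b c 1 I J := by
  have hn1 := hk.npos
  have hC := hk.C10
  have hM1 := Mc_one_le n hC hσ0
  set M := Mc n C1 σ with hM
  set t := I + 1 - n with ht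
  have hLt := Lf_nonneg k b hk.nonneg t
  have hLJ := Lf_nonneg k c hk.nonneg J
  have hLI := Lf_nonneg k b hk.nonneg I
  have hbt : ∀ x, x ≤ I → I + 1 < x + 3 * n → Lf k b x ≤ M * Lf k b t := fun x h1 h2 =>
    Lcomp hk b (I - 2 * n) I t σ hσ0 hb (by omega) (by omega) (by omega) x (by omega) h1 (by omega)
  have hcJ : ∀ y, y ≤ J → J + 1 < y + 3 * n → Lf k c y ≤ M * Lf k c J := fun y h1 h2 =>
    Lcomp hk c (J - 2 * n) J J σ hσ0 hc (by omega) le_rfl (by omega) y (by omega) h1 (by omega)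
  have hUc : ∀ r, r ≤ 4 * n → Uf k c J r ≤ (n + 1) * M * Lf k c J := fun r hr =>
    Ucomp hk c J r σ hσ0 hc (by omega) hr
  have hUb : ∀ r, r ≤ 4 * n → Uf k b I r ≤ (n + 1) * M * Lf k b I := fun r hr =>
    Ucomp hk b I r σ hσ0 hb (by omega) hr
  have hbI : Lf k b I ≤ M * Lf k b t := hbt I le_rfl (by omega)
  -- decomposition
  have hdec : Tf k b c 0 I J ≤ Tfar n k b c I J +
      (∑ x ∈ Finset.range (I + 1), (if I + 1 < x + 3 * n then Lf k b x * Uf k c J (I - x + 1) else 0)) +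
      (∑ y ∈ Finset.range (J + 1), (if J + 1 < y + 3 * n then Lf k c y * Uf k b I (J - y + 1) else 0)) := by
    have e1 : (∑ x ∈ Finset.range (I + 1),
        (if I + 1 < x + 3 * n then Lf k b x * Uf k c J (I - x + 1) else 0)) =
        ∑ x ∈ Finset.range (I + 1), ∑ y ∈ Finset.range (J + 1),
          if I + 1 < x + 3 * n then Lf k b x * Lf k c y * k (I - x + (J - y) + 1) else 0 := by
      apply Finset.sum_congr rfl
      intro x _
      unfold Uf
      by_cases h : I + 1 < x + 3 * n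
      · simp only [if_pos h]
        rw [Finset.mul_sum]
        apply Finset.sum_congr rfl
        intro y _
        rw [show J - y + (I - x + 1) = I - x + (J - y) + 1 by omega]; ring
      · simp only [if_neg h]; simp
    have e2 : (∑ y ∈ Finset.range (J + 1),
        (if J + 1 < y + 3 * n then Lf k c y * Uf k b I (J - y + 1) else 0)) =
        ∑ x ∈ Finset.range (I + 1), ∑ y ∈ Finset.range (J + 1),
          if J + 1 < y + 3 * n then Lf k b x * Lf k c y * k (I - x + (J - y) + 1) else 0 := by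
      rw [Finset.sum_comm]
      apply Finset.sum_congr rfl
      intro y _
      unfold Uf
      by_cases h : J + 1 < y + 3 * n
      · simp only [if_pos h]
        rw [Finset.mul_sum]
        apply Finset.sum_congr rfl
        intro x _
        rw [show I - x + (J - y + 1) = I - x + (J - y) + 1 by omega]; ring
      · simp only [if_neg h]; simp
    rw [e1, e2]
    unfold Tf Tfar
    rw [← Finset.sum_add_distrib, ← Finset.sum_add_distrib]
    apply Finset.sum_le_sum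
    intro x _
    rw [← Finset.sum_add_distrib, ← Finset.sum_add_distrib]
    apply Finset.sum_le_sum
    intro y _
    have g1 := Lf_nonneg k b hk.nonneg x
    have g2 := Lf_nonneg k c hk.nonneg y
    have g3 := hk.nonneg (I - x + (J - y) + 1)
    have g4 : 0 ≤ Lf k b x * Lf k c y * k (I - x + (J - y) + 1) := by positivity
    simp only [zero_mul, Real.exp_zero, mul_one]
    by_cases h1 : I + 1 < x + 3 * n <;> by_cases h2 : J + 1 < y + 3 * n
    · rw [if_neg (by omega), if_pos h1, if_pos h2]; linarith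
    · rw [if_neg (by omega), if_pos h1, if_neg h2]; linarith
    · rw [if_neg (by omega), if_neg h1, if_pos h2]; linarith
    · rw [if_pos (by omega), if_neg h1, if_neg h2]; linarith
  have r1 := recent_le hk b c I J (M * Lf k b t) ((n + 1) * M * Lf k c J) (by positivity) hI hbt hUc
  have r2 := recent_le hk c b J I (M * Lf k c J) ((n + 1) * M * Lf k b I) (by positivity) hJ hcJ hUb
  -- lower bound for the denominator
  have hlow : Lf k b t * Lf k c J ≤ C1 * Real.exp σ * Tf k b c 1 I J := by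
    have h1 : (Lf k b t * Real.exp (1 * Sf b t I)) * (Lf k c J * Real.exp (1 * Sf c J J)) *
        k (I - t + (J - J) + 1) ≤ Tf k b c 1 I J := by
      unfold Tf
      refine le_trans ?_ (Finset.single_le_sum (f := fun x => ∑ y ∈ Finset.range (J + 1),
        (Lf k b x * Real.exp (1 * Sf b x I)) * (Lf k c y * Real.exp (1 * Sf c y J)) *
          k (I - x + (J - y) + 1)) ?_ (Finset.mem_range.2 (by omega : t < I + 1)))
      · apply Finset.single_le_sum (f := fun y => (Lf k b t * Real.exp (1 * Sf b t I)) *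
          (Lf k c y * Real.exp (1 * Sf c y J)) * k (I - t + (J - y) + 1)) ?_
          (Finset.mem_range.2 (by omega : J < J + 1))
        intro y _
        have := Lf_nonneg k c hk.nonneg y
        have := hk.nonneg (I - t + (J - y) + 1)
        positivity
      · intro x _
        apply Finset.sum_nonneg
        intro y _
        have := Lf_nonneg k b hk.nonneg x
        have := Lf_nonneg k c hk.nonneg y
        have := hk.nonneg (I - x + (J - y) + 1)
        positivity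
    rw [Sf_self, show I - t + (J - J) + 1 = n by omega] at h1
    simp only [one_mul, Real.exp_zero, mul_one] at h1
    have h2 : Real.exp (-σ) ≤ Real.exp (Sf b t I) := by
      apply Real.exp_le_exp.2
      have := hb t I (by omega) (by omega) le_rfl
      have := neg_abs_le (Sf b t I)
      linarith
    have h3 := hk.h4 n le_rfl (by omega)
    have hkn := hk.nonneg n
    have h4 : 1 = Real.exp σ * Real.exp (-σ) := by rw [← Real.exp_add]; simp
    calc Lf k b t * Lf k c J = Lf k b t * Lf k c J * 1 * (Real.exp σ * Real.exp (-σ)) := by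
          rw [← h4]; ring
      _ ≤ Lf k b t * Lf k c J * (C1 * k n) * (Real.exp σ * Real.exp (Sf b t I)) := by gcongr
      _ = C1 * Real.exp σ * (Lf k b t * Real.exp (Sf b t I) * Lf k c J * k n) := by ring
      _ ≤ C1 * Real.exp σ * Tf k b c 1 I J := by
          apply mul_le_mul_of_nonneg_left _ (by positivity)
          linarith
  have hn0 : (0:ℝ) ≤ n := Nat.cast_nonneg n
  have q1 : 3 * (n:ℝ) * (M * Lf k b t * ((n + 1) * M * Lf k c J)) +
      3 * n * (M * Lf k c J * ((n + 1) * M * Lf k b I)) ≤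
      6 * n * (n + 1) * M ^ 3 * (Lf k b t * Lf k c J) := by
    have a1 : 3 * (n:ℝ) * (M * Lf k b t * ((n + 1) * M * Lf k c J)) ≤
        3 * n * (n + 1) * M ^ 3 * (Lf k b t * Lf k c J) := by
      have : M ^ 2 ≤ M ^ 3 := pow_le_pow_right₀ hM1 (by norm_num)
      calc _ = 3 * (n:ℝ) * (n + 1) * M ^ 2 * (Lf k b t * Lf k c J) := by ring
        _ ≤ _ := by gcongr
    have a2 : 3 * (n:ℝ) * (M * Lf k c J * ((n + 1) * M * Lf k b I)) ≤
        3 * n * (n + 1) * M ^ 3 * (Lf k b t * Lf k c J) := by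
      calc 3 * (n:ℝ) * (M * Lf k c J * ((n + 1) * M * Lf k b I))
          ≤ 3 * (n:ℝ) * (M * Lf k c J * ((n + 1) * M * (M * Lf k b t))) := by gcongr
        _ = _ := by ring
    linarith
  have q2 : 6 * (n:ℝ) * (n + 1) * M ^ 3 * (Lf k b t * Lf k c J) ≤ M3 n C1 σ * Tf k b c 1 I J := by
    calc 6 * (n:ℝ) * (n + 1) * M ^ 3 * (Lf k b t * Lf k c J)
        ≤ 6 * (n:ℝ) * (n + 1) * M ^ 3 * (C1 * Real.exp σ * Tf k b c 1 I J) := by gcongr
      _ = _ := by unfold M3; rw [← hM]; ring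
  linarith

end

/-- two sided partition function with field `w` on the middle site -/
noncomputable def ZZ (k b c : ℕ → ℝ) (w : ℝ) (I J : ℕ) : ℝ :=
  Tf k b c 0 I J + Real.exp w * Tf k b c 1 I J

/-- probability that the middle site is in a one excursion -/
noncomputable def PP (k b c : ℕ → ℝ) (w : ℝ) (I J : ℕ) : ℝ :=
  Real.exp w * Tf k b c 1 I J / ZZ k b c w I J

theorem ZZ_symm (k b c : ℕ → ℝ) (w : ℝ) (I J : ℕ) : ZZ k b c w I J = ZZ k c b w J I := by
  unfold ZZ; rw [Tf_symm, Tf_symm k b c 1]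

theorem PP_symm (k b c : ℕ → ℝ) (w : ℝ) (I J : ℕ) : PP k b c w I J = PP k c b w J I := by
  unfold PP; rw [ZZ_symm, Tf_symm]

section

variable {n : ℕ} {k : ℕ → ℝ} {CP C0 C1 : ℝ} (hk : KH n k CP C0) (hk2 : KH2 n k C1)
  (hpos : ∀ m, n ≤ m → 0 < k m)

include hk hpos in
theorem ZZ_pos (b c : ℕ → ℝ) (w : ℝ) (I J : ℕ) (h : n ≤ I + J + 1) : 0 < ZZ k b c w I J := by
  unfold ZZ
  have h1 := Tf_nonneg k b c hk.nonneg 1 I J
  have h2 : 0 < Tf k b c 0 I J := by
    unfold Tf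
    apply Finset.sum_pos'
    · intro x _
      apply Finset.sum_nonneg
      intro y _
      have := Lf_nonneg k b hk.nonneg x
      have := Lf_nonneg k c hk.nonneg y
      have := hk.nonneg (I - x + (J - y) + 1)
      positivity
    · refine ⟨0, Finset.mem_range.2 (by omega), ?_⟩
      apply Finset.sum_pos'
      · intro y _
        have := Lf_nonneg k b hk.nonneg 0
        have := Lf_nonneg k c hk.nonneg y
        have := hk.nonneg (I - 0 + (J - y) + 1)
        positivity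
      · refine ⟨0, Finset.mem_range.2 (by omega), ?_⟩
        rw [Lf_zero, Lf_zero]
        have := hpos (I - 0 + (J - 0) + 1) (by omega)
        positivity
  have := Real.exp_pos w
  positivity

include hk hk2 hpos

/-- raising the left field -/
theorem PP_left (C : ℝ) (hC1 : CP ≤ C) (hC2 : C0 ^ 2 + 2 * C0 ≤ C) (b1 b2 c : ℕ → ℝ) (w : ℝ)
    (I J : ℕ) (σ : ℝ) (hσ0 : 0 ≤ σ) (hI : 3 * n ≤ I) (hJ : 3 * n ≤ J)
    (hb : ∀ j, 1 ≤ j → j ≤ I → b2 j ≤ b1 j)
    (hbσ : ∀ m1 m2, I - 2 * n ≤ m1 → m1 ≤ m2 → m2 ≤ I → |Sf b1 m1 m2| ≤ σ)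
    (hcσ : ∀ m1 m2, J - 2 * n ≤ m1 → m1 ≤ m2 → m2 ≤ J → |Sf c m1 m2| ≤ σ) (hw : |w| ≤ σ) :
    PP k b2 c w I J ≤ (C + 1 + M3 n C1 σ * Real.exp σ) * PP k b1 c w I J := by
  have hn := hk.npos
  have hC0 : 0 ≤ C := by have := hk.CP0; linarith
  have hs := surgery hk2 b1 c I J σ hσ0 hI hJ hbσ hcσ
  have hst := star hk C hC1 hC2 b1 b2 c I J hb
  have hZ1 := ZZ_pos hk hpos b1 c w I J (by omega)
  have hZ2 := ZZ_pos hk hpos b2 c w I J (by omega)
  have hM3 := M3_nonneg n hk2.C10 hσ0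
  have t1 := Tf_nonneg k b1 c hk.nonneg 1 I J
  have t2 := Tf_nonneg k b2 c hk.nonneg 1 I J
  have t3 := Tf_nonneg k b2 c hk.nonneg 0 I J
  have hew := Real.exp_pos w
  have hes : Real.exp (-w) ≤ Real.exp σ := Real.exp_le_exp.2 (by have := neg_abs_le w; linarith)
  have hww : 1 = Real.exp (-w) * Real.exp w := by rw [← Real.exp_add]; simp
  unfold PP
  rw [← mul_div_assoc, div_le_div_iff₀ hZ2 hZ1]
  unfold ZZ
  set X1 := Tf k b1 c 1 I J
  set X2 := Tf k b2 c 1 I J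
  set Y1 := Tf k b1 c 0 I J
  set Y2 := Tf k b2 c 0 I J
  set M := M3 n C1 σ
  set e := Real.exp w
  have a1 : X2 * Y1 ≤ C * (X1 * Y2) + M * (X2 * X1) := by
    calc X2 * Y1 ≤ X2 * (Tfar n k b1 c I J + M * X1) := mul_le_mul_of_nonneg_left hs t2
      _ = X2 * Tfar n k b1 c I J + M * (X2 * X1) := by ring
      _ ≤ _ := by linarith
  have a2 : M * (X2 * X1) ≤ (M * Real.exp σ) * (e * (X2 * X1)) := by
    have : M * (X2 * X1) = M * (X2 * X1) * (Real.exp (-w) * e) := by rw [← hww, mul_one]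
    rw [this]
    have q : 0 ≤ M * (X2 * X1) * e := by positivity
    calc M * (X2 * X1) * (Real.exp (-w) * e) = (M * (X2 * X1) * e) * Real.exp (-w) := by ring
      _ ≤ (M * (X2 * X1) * e) * Real.exp σ := mul_le_mul_of_nonneg_left hes q
      _ = _ := by ring
  have p1 : 0 ≤ (1 + M * Real.exp σ) * (X1 * Y2) := by positivity
  have p2 : 0 ≤ C * (e * (X2 * X1)) := by positivity
  calc e * X2 * (Y1 + e * X1) = e * (X2 * Y1) + e * (e * (X2 * X1)) := by ring
    _ ≤ e * (C * (X1 * Y2) + (M * Real.exp σ) * (e * (X2 * X1))) + e * (e * (X2 * X1)) := by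
        gcongr; linarith
    _ ≤ e * (C * (X1 * Y2) + (M * Real.exp σ) * (e * (X2 * X1))) + e * (e * (X2 * X1))
        + e * ((1 + M * Real.exp σ) * (X1 * Y2)) + e * (C * (e * (X2 * X1))) := by
        have := mul_nonneg hew.le p1
        have := mul_nonneg hew.le p2
        linarith
    _ = (C + 1 + M * Real.exp σ) * (e * X1) * (Y2 + e * X2) := by ring

omit hk2 in
theorem PP_mid (b c : ℕ → ℝ) (w w' : ℝ) (hw : w ≤ w') (I J : ℕ) (h : n ≤ I + J + 1) :
    PP k b c w I J ≤ PP k b c w' I J := by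
  have hZ1 := ZZ_pos hk hpos b c w I J h
  have hZ2 := ZZ_pos hk hpos b c w' I J h
  have t1 := Tf_nonneg k b c hk.nonneg 1 I J
  have t0 := Tf_nonneg k b c hk.nonneg 0 I J
  have he := Real.exp_le_exp.2 hw
  unfold PP
  rw [div_le_div_iff₀ hZ1 hZ2]
  unfold ZZ
  nlinarith [mul_nonneg t1 t0, mul_le_mul_of_nonneg_right he (mul_nonneg t1 t0)]

omit hpos hk2 in
theorem PP_nonneg (b c : ℕ → ℝ) (w : ℝ) (I J : ℕ) : 0 ≤ PP k b c w I J := by
  unfold PP ZZ
  have t1 := Tf_nonneg k b c hk.nonneg 1 I J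
  have t0 := Tf_nonneg k b c hk.nonneg 0 I J
  positivity

/-- **quasi-monotonicity** -/
theorem PP_QM (C : ℝ) (hC1 : CP ≤ C) (hC2 : C0 ^ 2 + 2 * C0 ≤ C) (b1 b2 c1 c2 : ℕ → ℝ) (w1 w2 : ℝ)
    (I J : ℕ) (σ : ℝ) (hσ0 : 0 ≤ σ) (hI : 3 * n ≤ I) (hJ : 3 * n ≤ J)
    (hb : ∀ j, 1 ≤ j → j ≤ I → b2 j ≤ b1 j) (hc : ∀ j, 1 ≤ j → j ≤ J → c2 j ≤ c1 j) (hw : w2 ≤ w1)
    (hb1σ : ∀ m1 m2, I - 2 * n ≤ m1 → m1 ≤ m2 → m2 ≤ I → |Sf b1 m1 m2| ≤ σ)
    (hc1σ : ∀ m1 m2, J - 2 * n ≤ m1 → m1 ≤ m2 → m2 ≤ J → |Sf c1 m1 m2| ≤ σ)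
    (hc2σ : ∀ m1 m2, J - 2 * n ≤ m1 → m1 ≤ m2 → m2 ≤ J → |Sf c2 m1 m2| ≤ σ)
    (hw2σ : |w2| ≤ σ) :
    PP k b2 c2 w2 I J ≤ (C + 1 + M3 n C1 σ * Real.exp σ) ^ 2 * PP k b1 c1 w1 I J := by
  have hn := hk.npos
  have hC0 : 0 ≤ C := by have := hk.CP0; linarith
  have hM3 := M3_nonneg n hk2.C10 hσ0
  have s1 := PP_left hk hk2 hpos C hC1 hC2 b1 b2 c2 w2 I J σ hσ0 hI hJ hb hb1σ hc2σ hw2σ
  have s2 := PP_left hk hk2 hpos C hC1 hC2 c1 c2 b1 w2 J I σ hσ0 hJ hI hc hc1σ hb1σ hw2σ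
  rw [PP_symm k c2 b1, PP_symm k c1 b1] at s2
  have s3 := PP_mid hk hpos b1 c1 w2 w1 hw I J (by omega)
  set K := C + 1 + M3 n C1 σ * Real.exp σ with hK
  have hK0 : 0 ≤ K := by positivity
  calc PP k b2 c2 w2 I J ≤ K * PP k b1 c2 w2 I J := s1
    _ ≤ K * (K * PP k b1 c1 w2 I J) := mul_le_mul_of_nonneg_left s2 hK0
    _ ≤ K * (K * PP k b1 c1 w1 I J) := by gcongr
    _ = _ := by ring

end

end H98G
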