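import Pool.Agent.Helper98.CopG.Main

set_option autoImplicit false

/-! # Overlap, recursion and the exponent, for general kernels -/

namespace H98G

open MeasureTheory ProbabilityTheory Filter Topology
open Cop764 (Data)
open H98Cop (gm rec_exponent telescope)

/-- existence of a good coupling -/
theorem Ker.exists_good (k : Ker) : ∃ b t, 0 < b ∧ 0 < t ∧ 0 < t * b + k.vc (b + t) - k.vc b := by
  obtain ⟨lam, hlam, h1, h10, h1l, hf⟩ := k.exists_lt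
  have hb : 0 < 2 * lam := by positivity
  apply telescope k.vc (fun b hb => (k.vc_neg b hb).le) (2 * lam) hb
  rw [k.vc_eq _ hb]
  have hM : k.M (2 * lam) hb = k.D lam hlam := by
    unfold Ker.M
    congr 1
    ring
  have h2 := ((k.hc_spec (2 * lam) hb).2 h1 h10).2
  rw [hM] at h2
  have h3 : k.hc (2 * lam) hb ≤ h1 := by
    by_contra h
    exact absurd (h2 (not_le.1 h)) (not_lt.2 hf)
  nlinarith

theorem Ker.overlap (k : Ker) (b t : ℝ) (hb : 0 < b) (ht : 0 < t)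
    (_hD0 : 0 < t * b + k.vc (b + t) - k.vc b) (δ : ℝ) (hδ : 0 < δ)
    (hδD : δ ≤ (t * b + k.vc (b + t) - k.vc b) / 2) (hv : k.vc b + δ ≤ 0) :
    ∀ᶠ ℓ : ℕ in atTop, (t * b + k.vc (b + t) - k.vc b) / (2 * t * b) *
      R1 (k.p ℓ) b (k.vc b + δ) ≤ R2 (k.p ℓ) b (k.vc b + δ) := by
  have hpos : 0 < k.Fv b hb (k.vc b + δ) := (k.Fv_pos_iff b hb _ hv).2 (by linarith)
  have h1 : ∀ᶠ ℓ : ℕ in atTop, 0 < L (k.p ℓ) b (k.vc b + δ) / ℓ :=
    (k.L_tendsto b hb _ hv).eventually_const_lt hpos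
  have hbt : 0 < b + t := by positivity
  have h2 := k.L_le (b + t) hbt (k.vc (b + t)) (k.vc_neg _ hbt).le
  filter_upwards [h1, h2, eventually_ge_atTop 1, eventually_ge_atTop k.nn] with ℓ a1 a2 hℓ hℓ'
  have hℓr : (0:ℝ) < ℓ := by exact_mod_cast hℓ
  rw [k.Fv_vc, mul_zero] at a2
  have a3 : 0 < L (k.p ℓ) b (k.vc b + δ) := by
    by_contra h
    have := div_nonpos_of_nonpos_of_nonneg (not_lt.1 h) hℓr.le
    linarith
  have a4 := (k.pn ℓ hℓ').L_hyperplane b (k.vc b + δ) t (k.vc (b + t))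
  have a5 := (k.pn ℓ hℓ').R1_nonneg b (k.vc b + δ)
  set r1 := R1 (k.p ℓ) b (k.vc b + δ) with hr1
  set r2 := R2 (k.p ℓ) b (k.vc b + δ) with hr2
  set D0 := t * b + k.vc (b + t) - k.vc b with hD
  have a6 : t * (b * (r1 - r2)) + (k.vc (b + t) - (k.vc b + δ)) * r1 ≤ 0 := by linarith
  have a7 : (D0 - δ) * r1 ≤ t * b * r2 := by
    rw [hD]; nlinarith
  have a8 : D0 / 2 * r1 ≤ t * b * r2 := by nlinarith
  rw [div_mul_eq_mul_div, div_le_iff₀ (by positivity)]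
  nlinarith

theorem nbh_card (ℓ r : ℕ) (i : Ix ℓ) : (nbh ℓ r i).card ≤ 2 * r + 1 := by
  have h1 : (nbh ℓ r i).card = ((nbh ℓ r i).map (Function.Embedding.subtype _)).card :=
    (Finset.card_map _).symm
  have h2 : (nbh ℓ r i).map (Function.Embedding.subtype _) ⊆ Finset.Icc (i.1 - r) (i.1 + r) := by
    intro n hn
    rw [Finset.mem_map] at hn
    obtain ⟨m, hm, rfl⟩ := hn
    unfold nbh at hm
    rw [Finset.mem_filter] at hm
    rw [Finset.mem_Icc]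
    change i.1 - r ≤ m.1 ∧ m.1 ≤ i.1 + r
    omega
  rw [h1]
  refine (Finset.card_le_card h2).trans ?_
  rw [Nat.card_Icc]
  omega

/-- sites far from both ends -/
def bulk (ℓ r : ℕ) : Finset (Ix ℓ) := Finset.univ.filter fun i => r < i.1 ∧ i.1 + r ≤ ℓ

theorem bulk_compl_card (ℓ r : ℕ) : ((bulk ℓ r)ᶜ).card ≤ 2 * r := by
  have h1 : ((bulk ℓ r)ᶜ).card = (((bulk ℓ r)ᶜ).map (Function.Embedding.subtype _)).card :=
    (Finset.card_map _).symm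
  have h2 : ((bulk ℓ r)ᶜ).map (Function.Embedding.subtype _) ⊆
      Finset.Ioc 0 r ∪ Finset.Ioc (ℓ - r) ℓ := by
    intro n hn
    rw [Finset.mem_map] at hn
    obtain ⟨m, hm, rfl⟩ := hn
    rw [Finset.mem_compl] at hm
    unfold bulk at hm
    rw [Finset.mem_filter] at hm
    have h3 := Finset.mem_Ioc.1 m.2
    rw [Finset.mem_union, Finset.mem_Ioc, Finset.mem_Ioc]
    change (0 < m.1 ∧ m.1 ≤ r) ∨ (ℓ - r < m.1 ∧ m.1 ≤ ℓ)
    by_contra hcon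
    apply hm
    refine ⟨Finset.mem_univ _, ?_, ?_⟩ <;> omega
  rw [h1]
  refine (Finset.card_le_card h2).trans ((Finset.card_union_le _ _).trans ?_)
  rw [Nat.card_Ioc, Nat.card_Ioc]
  omega

theorem Ker.exists_QMH (k : Ker) : ∃ (CQ Γ : ℝ) (r : ℕ), 1 ≤ CQ ∧
    ∀ ℓ, QMH (k.p ℓ) (nbh ℓ r) (bulk ℓ r) (2 * r + 1) CQ Γ := by
  obtain ⟨CQ, Γ, r, h1, h2, h3⟩ := k.Pr_QM
  refine ⟨CQ, Γ, r, h1, fun ℓ => ⟨h1, h2, fun i => nbh_card ℓ r i, ?_⟩⟩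
  intro y2 y1 hy i hi
  unfold bulk at hi
  rw [Finset.mem_filter] at hi
  exact h3 ℓ y2 y1 hy i hi.2.1 hi.2.2

theorem alg1 (κ b δ W j P : ℝ) (hj : 0 < j) (hδ : 0 < δ) (hW : 0 ≤ W) (h : δ * P * j ≤ 4 * b ^ 2) :
    κ ^ 2 / j / 2 * (P / δ * W) ≤ (κ / j * b) ^ 2 / 2 * (4 / δ ^ 2 * W) := by
  have e1 : κ ^ 2 / j / 2 * (P / δ * W) = (κ ^ 2 * W / (2 * j ^ 2 * δ ^ 2)) * (δ * P * j) := by
    field_simp
  have e2 : (κ / j * b) ^ 2 / 2 * (4 / δ ^ 2 * W) = (κ ^ 2 * W / (2 * j ^ 2 * δ ^ 2)) * (4 * b ^ 2) := by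
    field_simp
  rw [e1, e2]
  exact mul_le_mul_of_nonneg_left h (by positivity)

theorem alg2 (α b c0 c2 δ W j : ℝ) (hb : b ≠ 0) (hc0 : c0 ≠ 0) (hc2 : c2 ≠ 0) (hδ : δ ≠ 0)
    (hj : j ≠ 0) :
    2 * (1 + α) * (2 * ((δ / (b * c0 * c2) / j * b) ^ 2 / 2 * (4 / δ ^ 2 * W))) =
      8 * (1 + α) / (c0 * c2) ^ 2 / j ^ 2 * W := by
  field_simp
  ring

/-- the recursive inequality for the free energy near the critical point -/
theorem Ker.recursion (k : Ker) (CQ Γ : ℝ) (r : ℕ) (hCQ : 1 ≤ CQ)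
    (hQ : ∀ ℓ, QMH (k.p ℓ) (nbh ℓ r) (bulk ℓ r) (2 * r + 1) CQ Γ)
    (b : ℝ) (hb : 0 < b) (c0 : ℝ) (hc0 : 0 < c0) (δ : ℝ) (hδ : 0 < δ)
    (hov : ∀ᶠ ℓ : ℕ in atTop, c0 * R1 (k.p ℓ) b (k.vc b + δ) ≤ R2 (k.p ℓ) b (k.vc b + δ))
    (J : ℕ) (hJ : 1 ≤ J) (hv : 2 ^ (J + 1) * δ ≤ -k.vc b)
    (hδJ : δ * 2 ^ J * J ≤ 4 * b ^ 2) :
    k.Fv b hb (k.vc b + δ) ≤
      (8 * (1 + k.α) / (c0 * c2c CQ Γ (-k.vc b) b (2 * r + 1)) ^ 2) / J ^ 2 *
        (∑ j ∈ Finset.range J, ((1:ℝ) / 4) ^ j * k.Fv b hb (k.vc b + 2 ^ (j + 2) * δ)) := by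
  have hα := k.hα
  have hJr : (0:ℝ) < J := by exact_mod_cast hJ
  set θ : ℝ := (2 * (1 + k.α))⁻¹ with hθ
  have hθp : 0 < θ := by positivity
  set c2 : ℝ := c2c CQ Γ (-k.vc b) b (2 * r + 1) with hc2
  have hc2p : 0 < c2 := c2c_pos hCQ _ _ _ _
  set κ : ℝ := δ / (b * c0 * c2) with hκ
  have hκp : 0 < κ := by positivity
  set v0 := k.vc b with hv0
  obtain ⟨C, hC, hcrit⟩ := k.crit b hb
  set g : ℕ → ℝ → ℝ := fun ℓ v => L (k.p ℓ) b v / ℓ with hg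
  have hrange : ∀ j, j ≤ J + 1 → v0 + 2 ^ j * δ ≤ 0 := by
    intro j hj
    have : (2:ℝ) ^ j ≤ 2 ^ (J + 1) := pow_le_pow_right₀ (by norm_num) hj
    nlinarith
  have hv1 : v0 + δ ≤ 0 := by
    have := hrange 0 (by omega)
    simpa using this
  have hV1 : |v0 + δ| ≤ -v0 := by
    rw [abs_of_nonpos hv1]; linarith
  have hV2 : ∀ j < J, |v0 + δ + sc δ j| ≤ -v0 := by
    intro j hj
    have h1 := hrange (j + 1) (by omega)
    have h2 : (1:ℝ) ≤ 2 ^ j := one_le_pow₀ (by norm_num)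
    have h3 : v0 + δ + sc δ j ≤ 0 := by
      unfold sc
      have e : (2:ℝ) ^ (j + 1) = 2 ^ j + 2 ^ j := by rw [pow_succ]; ring
      rw [e] at h1
      nlinarith
    have h4 := sc_pos hδ j
    rw [abs_of_nonpos h3]; linarith
  have hgt : ∀ v, v ≤ 0 → Tendsto (fun ℓ => g ℓ v) atTop (𝓝 (k.Fv b hb v)) := fun v hv =>
    k.L_tendsto b hb v hv
  -- the finite volume inequality divided by the volume
  have hfin : ∀ᶠ ℓ : ℕ in atTop, θ * g ℓ (v0 + δ) ≤ C * ((1 + Real.log ℓ) / ℓ) +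
      (κ / J * b) ^ 2 / 2 * (∑ j ∈ Finset.range J, 4 * (((g ℓ (v0 + 2 ^ (j + 2) * δ) -
        g ℓ (v0 + δ)) / (2 ^ j * δ)) / δ * (1 / 2) ^ j)) +
      κ ^ 2 / J / 2 * (∑ j ∈ Finset.range J, (g ℓ (v0 + 2 ^ (j + 2) * δ) - g ℓ (v0 + δ)) / (2 ^ j * δ))
      + (θ * (b * κ * c2) * (2 * r)) * (ℓ:ℝ)⁻¹ := by
    filter_upwards [hov, hcrit, eventually_ge_atTop 1, eventually_ge_atTop k.nn] with ℓ a1 a2 hℓ hℓ'
    have hℓr : (0:ℝ) < ℓ := by exact_mod_cast hℓ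
    have a3 : δ * R1 (k.p ℓ) b (v0 + δ) ≤ b * κ * c2 * R2 (k.p ℓ) b (v0 + δ) := by
      have h1 := mul_le_mul_of_nonneg_left a1 (by positivity : 0 ≤ δ / c0)
      have e1 : δ / c0 * (c0 * R1 (k.p ℓ) b (v0 + δ)) = δ * R1 (k.p ℓ) b (v0 + δ) := by field_simp
      have e2 : b * κ * c2 = δ / c0 := by rw [hκ]; field_simp
      rw [e1] at h1
      rw [e2]; exact h1
    have a4 := (k.pn ℓ hℓ').fv_main (hQ ℓ) hb hθp hδ hκp hJ hV1 hV2 a3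
    have hcard : (((bulk ℓ r)ᶜ).card : ℝ) ≤ 2 * r := by exact_mod_cast bulk_compl_card ℓ r
    have h9 : θ * (b * κ * c2 * (((bulk ℓ r)ᶜ).card : ℝ)) ≤ θ * (b * κ * c2) * (2 * r) := by
      rw [← mul_assoc]
      exact mul_le_mul_of_nonneg_left hcard (by positivity)
    have e3 : θ * g ℓ (v0 + δ) = (θ * L (k.p ℓ) b (v0 + δ)) / ℓ := by simp only [hg]; ring
    rw [e3, div_le_iff₀ hℓr]
    have e5 : ∑ j ∈ Finset.range J, 4 *
          ((((L (k.p ℓ) b (v0 + 2 ^ (j + 2) * δ) - L (k.p ℓ) b (v0 + δ)) / (2 ^ j * δ)) / δ) * ((1:ℝ)/2)^j)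
        = ℓ * (∑ j ∈ Finset.range J, 4 * (((g ℓ (v0 + 2 ^ (j + 2) * δ) -
        g ℓ (v0 + δ)) / (2 ^ j * δ)) / δ * (1 / 2) ^ j)) := by
      rw [Finset.mul_sum]
      apply Finset.sum_congr rfl
      intro j _
      simp only [hg]
      field_simp
    have e6 : ∑ j ∈ Finset.range J,
          (L (k.p ℓ) b (v0 + 2 ^ (j + 2) * δ) - L (k.p ℓ) b (v0 + δ)) / (2 ^ j * δ)
        = ℓ * ∑ j ∈ Finset.range J, (g ℓ (v0 + 2 ^ (j + 2) * δ) - g ℓ (v0 + δ)) / (2 ^ j * δ) := by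
      rw [Finset.mul_sum]
      apply Finset.sum_congr rfl
      intro j _
      simp only [hg]
      field_simp
    rw [e5, e6] at a4
    calc θ * L (k.p ℓ) b (v0 + δ) ≤ _ := a4
      _ ≤ C * (1 + Real.log ℓ) + (κ / J * b) ^ 2 / 2 * (ℓ * (∑ j ∈ Finset.range J,
            4 * (((g ℓ (v0 + 2 ^ (j + 2) * δ) -
            g ℓ (v0 + δ)) / (2 ^ j * δ)) / δ * (1 / 2) ^ j))) +
            κ ^ 2 / J / 2 * (ℓ * ∑ j ∈ Finset.range J,
              (g ℓ (v0 + 2 ^ (j + 2) * δ) - g ℓ (v0 + δ)) / (2 ^ j * δ)) +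
            θ * (b * κ * c2) * (2 * r) := by
          linarith
      _ = _ := by
          have hcl : C * ((1 + Real.log ℓ) / ℓ) * ℓ = C * (1 + Real.log ℓ) := by field_simp
          have hcm : (θ * (b * κ * c2) * (2 * r)) * (ℓ:ℝ)⁻¹ * ℓ = θ * (b * κ * c2) * (2 * r) := by
            field_simp
          linear_combination -hcl - hcm
  -- pass to the limit
  have hinv : Tendsto (fun ℓ : ℕ => ((ℓ:ℝ))⁻¹) atTop (𝓝 0) :=
    tendsto_inv_atTop_zero.comp tendsto_natCast_atTop_atTop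
  have hlog : Tendsto (fun ℓ : ℕ => C * ((1 + Real.log ℓ) / ℓ)) atTop (𝓝 0) := by
    have h2 : Tendsto (fun ℓ : ℕ => Real.log (ℓ:ℝ) / ℓ) atTop (𝓝 0) :=
      (Real.isLittleO_log_id_atTop.tendsto_div_nhds_zero).comp tendsto_natCast_atTop_atTop
    have h3 := (hinv.add h2).const_mul C
    rw [add_zero, mul_zero] at h3
    refine h3.congr fun ℓ => ?_
    rw [add_div, one_div]
  have hlim : Tendsto (fun ℓ : ℕ => C * ((1 + Real.log ℓ) / ℓ) +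
      (κ / J * b) ^ 2 / 2 * (∑ j ∈ Finset.range J, 4 * (((g ℓ (v0 + 2 ^ (j + 2) * δ) -
        g ℓ (v0 + δ)) / (2 ^ j * δ)) / δ * (1 / 2) ^ j)) +
      κ ^ 2 / J / 2 * (∑ j ∈ Finset.range J, (g ℓ (v0 + 2 ^ (j + 2) * δ) - g ℓ (v0 + δ)) / (2 ^ j * δ))
      + (θ * (b * κ * c2) * (2 * r)) * (ℓ:ℝ)⁻¹) atTop
      (𝓝 (0 + (κ / J * b) ^ 2 / 2 * (∑ j ∈ Finset.range J, 4 * (((k.Fv b hb (v0 + 2 ^ (j + 2) * δ) -
        k.Fv b hb (v0 + δ)) / (2 ^ j * δ)) / δ * (1 / 2) ^ j)) +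
      κ ^ 2 / J / 2 * (∑ j ∈ Finset.range J,
        (k.Fv b hb (v0 + 2 ^ (j + 2) * δ) - k.Fv b hb (v0 + δ)) / (2 ^ j * δ)) +
      (θ * (b * κ * c2) * (2 * r)) * 0)) := by
    refine ((hlog.add (Tendsto.const_mul _ (tendsto_finsetSum _ fun j hj => ?_))).add
      (Tendsto.const_mul _ (tendsto_finsetSum _ fun j hj => ?_))).add (hinv.const_mul _)
    · rw [Finset.mem_range] at hj
      exact ((((hgt _ (hrange _ (by omega))).sub (hgt _ hv1)).div_const _).div_const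
        _).mul_const _ |>.const_mul _
    · rw [Finset.mem_range] at hj
      exact ((hgt _ (hrange _ (by omega))).sub (hgt _ hv1)).div_const _
  have hmain := le_of_tendsto_of_tendsto ((hgt _ hv1).const_mul θ) hlim hfin
  rw [zero_add, mul_zero, add_zero] at hmain
  -- drop the negative terms
  have hnn : ∀ j, j ≤ J + 1 → 0 ≤ k.Fv b hb (v0 + 2 ^ j * δ) := fun j hj =>
    k.Fv_nonneg b hb _ (hrange j hj)
  have hnn1 : 0 ≤ k.Fv b hb (v0 + δ) := k.Fv_nonneg b hb _ hv1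
  have hs : (∑ j ∈ Finset.range J, 4 * (((k.Fv b hb (v0 + 2 ^ (j + 2) * δ) -
        k.Fv b hb (v0 + δ)) / (2 ^ j * δ)) / δ * (1 / 2) ^ j)) ≤
      4 / δ ^ 2 * ∑ j ∈ Finset.range J, ((1:ℝ) / 4) ^ j * k.Fv b hb (v0 + 2 ^ (j + 2) * δ) := by
    rw [Finset.mul_sum]
    apply Finset.sum_le_sum
    intro j hj
    rw [Finset.mem_range] at hj
    have h2 : (k.Fv b hb (v0 + 2 ^ (j + 2) * δ) - k.Fv b hb (v0 + δ)) ≤
      k.Fv b hb (v0 + 2 ^ (j + 2) * δ) := by linarith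
    have e0 : ((1:ℝ) / 4) ^ j = (1 / 2) ^ j * (1 / 2) ^ j := by
      rw [← mul_pow]; norm_num
    have e1 : 4 * (((k.Fv b hb (v0 + 2 ^ (j + 2) * δ)) / (2 ^ j * δ)) / δ * (1 / 2) ^ j) =
        4 / δ ^ 2 * (((1:ℝ) / 4) ^ j * k.Fv b hb (v0 + 2 ^ (j + 2) * δ)) := by
      generalize k.Fv b hb (v0 + 2 ^ (j + 2) * δ) = Y
      rw [e0, one_div, inv_pow]
      field_simp
    rw [← e1]
    gcongr
  have hl : (∑ j ∈ Finset.range J,
        (k.Fv b hb (v0 + 2 ^ (j + 2) * δ) - k.Fv b hb (v0 + δ)) / (2 ^ j * δ)) ≤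
      2 ^ J / δ * ∑ j ∈ Finset.range J, ((1:ℝ) / 4) ^ j * k.Fv b hb (v0 + 2 ^ (j + 2) * δ) := by
    rw [Finset.mul_sum]
    apply Finset.sum_le_sum
    intro j hj
    rw [Finset.mem_range] at hj
    have h0 := hnn (j + 2) (by omega)
    have h2 : (k.Fv b hb (v0 + 2 ^ (j + 2) * δ) - k.Fv b hb (v0 + δ)) ≤
      k.Fv b hb (v0 + 2 ^ (j + 2) * δ) := by linarith
    have e0 : ((1:ℝ) / 4) ^ j = (1 / 2) ^ j * (1 / 2) ^ j := by
      rw [← mul_pow]; norm_num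
    have h3 : (2:ℝ) ^ j ≤ 2 ^ J := pow_le_pow_right₀ (by norm_num) hj.le
    calc (k.Fv b hb (v0 + 2 ^ (j + 2) * δ) - k.Fv b hb (v0 + δ)) / (2 ^ j * δ)
        ≤ k.Fv b hb (v0 + 2 ^ (j + 2) * δ) / (2 ^ j * δ) := by gcongr
      _ = 2 ^ j / δ * (((1:ℝ) / 4) ^ j * k.Fv b hb (v0 + 2 ^ (j + 2) * δ)) := by
          generalize k.Fv b hb (v0 + 2 ^ (j + 2) * δ) = Y
          rw [e0, one_div, inv_pow]
          field_simp
      _ ≤ _ := by gcongr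
  set W := ∑ j ∈ Finset.range J, ((1:ℝ) / 4) ^ j * k.Fv b hb (v0 + 2 ^ (j + 2) * δ) with hW
  have hW0 : 0 ≤ W := Finset.sum_nonneg fun j hj => by
    have := hnn (j + 2) (by have := Finset.mem_range.1 hj; omega)
    positivity
  have h7 := mul_le_mul_of_nonneg_left hs (by positivity : 0 ≤ (κ / J * b) ^ 2 / 2)
  have h8 := mul_le_mul_of_nonneg_left hl (by positivity : 0 ≤ κ ^ 2 / J / 2)
  have h9 : θ * k.Fv b hb (v0 + δ) ≤ (κ / J * b) ^ 2 / 2 * (4 / δ ^ 2 * W) +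
      κ ^ 2 / J / 2 * (2 ^ J / δ * W) := by linarith
  have h10 := alg1 κ b δ W (J:ℝ) (2 ^ J) hJr hδ hW0 hδJ
  have h11 : θ * k.Fv b hb (v0 + δ) ≤ 2 * ((κ / J * b) ^ 2 / 2 * (4 / δ ^ 2 * W)) := by linarith
  have h12 := mul_le_mul_of_nonneg_left h11 (by positivity : 0 ≤ 2 * (1 + k.α))
  rw [← mul_assoc, hθ, mul_inv_cancel₀ (by positivity), one_mul] at h12
  refine h12.trans (le_of_eq ?_)
  rw [hκ]
  exact alg2 k.α b c0 c2 δ W (J:ℝ) hb.ne' hc0.ne' hc2p.ne' hδ.ne' hJr.ne'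

/-- the improved smoothing bound in the `v` variable -/
theorem Ker.exponent (k : Ker) : ∃ (b : ℝ) (hb : 0 < b) (γ B δ0 : ℝ), 2 < γ ∧ 0 < B ∧ 0 < δ0 ∧
    ∀ δ, 0 < δ → δ ≤ δ0 → k.Fv b hb (k.vc b + δ) ≤ B * δ ^ γ := by
  have hα := k.hα
  obtain ⟨b, t, hb, ht, hD0⟩ := k.exists_good
  obtain ⟨CQ, Γ, r, hCQ, hQ⟩ := k.exists_QMH
  refine ⟨b, hb, ?_⟩
  set D0 := t * b + k.vc (b + t) - k.vc b with hD
  set c0 := D0 / (2 * t * b) with hc0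
  have hc0p : 0 < c0 := by positivity
  have hvneg := k.vc_neg b hb
  set c2 := c2c CQ Γ (-k.vc b) b (2 * r + 1) with hc2
  have hc2p : 0 < c2 := c2c_pos hCQ _ _ _ _
  obtain ⟨J, hJ1⟩ := exists_nat_ge (max 1 (64 * (8 * (1 + k.α) / (c0 * c2) ^ 2)))
  have hJ : 1 ≤ J := by exact_mod_cast (le_max_left _ _).trans hJ1
  have hJC : 64 * (8 * (1 + k.α) / (c0 * c2) ^ 2) ≤ J := (le_max_right _ _).trans hJ1
  have hJr : (0:ℝ) < J := by exact_mod_cast hJ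
  set δ0 := min (min (-k.vc b) (D0 / 2)) (8 * b ^ 2 / J) with hδ0
  have hδ0p : 0 < δ0 := lt_min (lt_min (by linarith) (by positivity)) (by positivity)
  have hδ1 : δ0 ≤ -k.vc b := (min_le_left _ _).trans (min_le_left _ _)
  have hδ2 : δ0 ≤ D0 / 2 := (min_le_left _ _).trans (min_le_right _ _)
  have hδ3 : δ0 ≤ 8 * b ^ 2 / J := min_le_right _ _
  obtain ⟨B, hB, hmain⟩ := rec_exponent (fun δ => k.Fv b hb (k.vc b + δ)) δ0
    (k.Fv b hb 0 + 1) (8 * (1 + k.α) / (c0 * c2) ^ 2) 1 J hδ0p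
    (by positivity) one_pos (by have := k.Fv_nonneg b hb 0 le_rfl; linarith) hJ hJC
    (fun δ hδ hδ' => by
      have h1 : k.vc b + δ ≤ 0 := by
        have := hδ'.trans hδ1; linarith
      have := k.Fv_mono b hb (k.vc b + δ) 0 h1 le_rfl
      linarith)
    (fun δ hδ hδ' => by
      have h2 : (1:ℝ) ≤ 2 ^ (J + 1) := one_le_pow₀ (by norm_num)
      have h3 : δ ≤ δ0 := by nlinarith
      have h4 := k.overlap b t hb ht hD0 δ hδ (h3.trans hδ2)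
        (by have := h3.trans hδ1; linarith)
      have h5 : δ * 2 ^ J * J ≤ 4 * b ^ 2 := by
        have h6 := hδ'.trans hδ3
        rw [le_div_iff₀ hJr, pow_succ] at h6
        nlinarith
      have h7 := k.recursion CQ Γ r hCQ hQ b hb c0 hc0p δ hδ h4 J hJ (hδ'.trans hδ1) h5
      have h8 : 0 ≤ 1 * δ / 2 ^ J * k.Fv b hb (k.vc b + 2 ^ (J + 1) * δ) := by
        have : 0 ≤ k.Fv b hb (k.vc b + 2 ^ (J + 1) * δ) :=
          k.Fv_nonneg b hb _ (by have := hδ'.trans hδ1; linarith)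
        positivity
      linarith)
  refine ⟨2 + 1 / ((J:ℝ) + 1), B, δ0, ?_, hB, hδ0p, hmain⟩
  have : (0:ℝ) < 1 / ((J:ℝ) + 1) := by positivity
  linarith

end H98G
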