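import Mathlib

set_option autoImplicit false

/-! # A quasi-monotonicity relation for pairs of renewal systems in ordered fields -/

namespace H98G

/-- `a + b ≤ M + X` from `a, b ≤ M` and `a b ≤ M X` -/
theorem trick {a b M X : ℝ} (ha : 0 ≤ a) (haM : a ≤ M) (hbM : b ≤ M) (hX : 0 ≤ X)
    (h : a * b ≤ M * X) : a + b ≤ M + X := by
  rcases (ha.trans haM).eq_or_lt with h0 | h0
  · rw [← h0] at haM hbM ⊢; linarith
  · by_contra hc
    push Not at hc
    have h1 := mul_nonneg (sub_nonneg.2 haM) (sub_nonneg.2 hbM)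
    nlinarith

/-- the sum of the field over `(i, j]` -/
noncomputable def Sf (b : ℕ → ℝ) (i j : ℕ) : ℝ := ∑ n ∈ Finset.Ioc i j, b n

theorem Sf_self (b : ℕ → ℝ) (i : ℕ) : Sf b i i = 0 := by simp [Sf]

theorem Sf_succ (b : ℕ → ℝ) {i j : ℕ} (h : i ≤ j) : Sf b i (j + 1) = Sf b i j + b (j + 1) := by
  unfold Sf; rw [Finset.sum_Ioc_succ_top (by omega)]

theorem Sf_add (b : ℕ → ℝ) {i j k : ℕ} (h : i ≤ j) (h' : j ≤ k) : Sf b i j + Sf b j k = Sf b i k := by
  unfold Sf; rw [Finset.sum_Ioc_consecutive _ h h']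

theorem Sf_mono {b b' : ℕ → ℝ} {i j : ℕ} (h : ∀ n ∈ Finset.Ioc i j, b n ≤ b' n) : Sf b i j ≤ Sf b' i j :=
  Finset.sum_le_sum h

/-- renewal weights in the field `b`: total weight of having a renewal at `j` -/
noncomputable def Lf (k : ℕ → ℝ) (b : ℕ → ℝ) (j : ℕ) : ℝ :=
  if j = 0 then 1 else
    ∑ x ∈ (Finset.range j).attach, Lf k b x.1 * (Real.exp (Sf b x.1 j) + 1) * k (j - x.1)
termination_by j
decreasing_by exact Finset.mem_range.1 x.2

theorem Lf_zero (k b : ℕ → ℝ) : Lf k b 0 = 1 := by rw [Lf]; simp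

theorem Lf_eq (k b : ℕ → ℝ) {j : ℕ} (h : 0 < j) :
    Lf k b j = ∑ x ∈ Finset.range j, Lf k b x * (Real.exp (Sf b x j) + 1) * k (j - x) := by
  rw [Lf, if_neg h.ne']
  exact Finset.sum_attach (Finset.range j) (fun x => Lf k b x * (Real.exp (Sf b x j) + 1) * k (j - x))

theorem Lf_nonneg (k b : ℕ → ℝ) (hk : ∀ n, 0 ≤ k n) (j : ℕ) : 0 ≤ Lf k b j := by
  induction j using Nat.strong_induction_on with
  | _ j ih =>
    rcases Nat.eq_zero_or_pos j with rfl | hj
    · rw [Lf_zero]; exact zero_le_one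
    · rw [Lf_eq k b hj]
      apply Finset.sum_nonneg
      intro x hx
      have := ih x (Finset.mem_range.1 hx)
      have := hk (j - x)
      positivity

/-- weight of the last renewal `≤ i` being at `x`, with excursion colour `ε` ending at `u` -/
noncomputable def af (k : ℕ → ℝ) (b : ℕ → ℝ) (ε : ℝ) (i x u : ℕ) : ℝ :=
  Lf k b x * Real.exp (ε * Sf b x i) * k (u - x)

theorem af_nonneg (k b : ℕ → ℝ) (hk : ∀ n, 0 ≤ k n) (ε : ℝ) (i x u : ℕ) : 0 ≤ af k b ε i x u := by
  unfold af; have := Lf_nonneg k b hk x; have := hk (u - x); positivity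

theorem af_succ (k b : ℕ → ℝ) (ε : ℝ) {i x : ℕ} (u : ℕ) (h : x ≤ i) :
    af k b ε (i + 1) x u = Real.exp (ε * b (i + 1)) * af k b ε i x u := by
  unfold af; rw [Sf_succ b h, mul_add, Real.exp_add]; ring

theorem af_self (k b : ℕ → ℝ) (ε : ℝ) (j u : ℕ) : af k b ε j j u = Lf k b j * k (u - j) := by
  unfold af; rw [Sf_self]; simp

/-- total weight at level `i` with excursion colour `ε` ending at `u` -/
noncomputable def Ff (k : ℕ → ℝ) (b : ℕ → ℝ) (ε : ℝ) (i u : ℕ) : ℝ :=
  ∑ x ∈ Finset.range (i + 1), af k b ε i x u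

theorem Ff_nonneg (k b : ℕ → ℝ) (hk : ∀ n, 0 ≤ k n) (ε : ℝ) (i u : ℕ) : 0 ≤ Ff k b ε i u :=
  Finset.sum_nonneg fun x _ => af_nonneg k b hk ε i x u

theorem Ff_succ (k b : ℕ → ℝ) (ε : ℝ) (i u : ℕ) :
    Ff k b ε (i + 1) u = Real.exp (ε * b (i + 1)) * Ff k b ε i u + Lf k b (i + 1) * k (u - (i + 1)) := by
  unfold Ff
  rw [Finset.sum_range_succ, af_self, Finset.mul_sum]
  congr 1
  apply Finset.sum_congr rfl
  intro x hx
  rw [af_succ k b ε u (by have := Finset.mem_range.1 hx; omega)]

theorem Lf_succ (k b : ℕ → ℝ) (i : ℕ) :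
    Lf k b (i + 1) = Real.exp (b (i + 1)) * Ff k b 1 i (i + 1) + Ff k b 0 i (i + 1) := by
  rw [Lf_eq k b (Nat.succ_pos i)]
  unfold Ff
  rw [Finset.mul_sum, ← Finset.sum_add_distrib]
  apply Finset.sum_congr rfl
  intro x hx
  have hx' := Finset.mem_range.1 hx
  unfold af
  rw [Sf_succ b (by omega : x ≤ i), Real.exp_add]
  simp
  ring

/-- the included pairs -/
def inc (n i x s u v : ℕ) : Prop :=
  x + n ≤ v ∧ s + n ≤ u ∧
    ((x + n ≤ s ∨ s + n ≤ x) ∨ (x + n ≤ i ∧ s + n ≤ i ∧ x + 2 * n ≤ u ∧ x + 2 * n ≤ v ∧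
      s + 2 * n ≤ u ∧ s + 2 * n ≤ v))

instance (n i x s u v : ℕ) : Decidable (inc n i x s u v) := by unfold inc; infer_instance

/-- left hand sides of the relations: system 2 has its excursion of colour `ε2` ending at `u`,
system 1 has its excursion of colour `ε1` ending at `v` -/
noncomputable def LH (n : ℕ) (k b1 b2 : ℕ → ℝ) (ε2 ε1 : ℝ) (i u v : ℕ) : ℝ :=
  ∑ x ∈ Finset.range (i + 1), ∑ s ∈ Finset.range (i + 1),
    if inc n i x s u v then af k b2 ε2 i x u * af k b1 ε1 i s v else 0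

/-- hypotheses on the kernel -/
structure KH (n : ℕ) (k : ℕ → ℝ) (CP C0 : ℝ) : Prop where
  npos : 1 ≤ n
  nonneg : ∀ m, 0 ≤ k m
  CP0 : 1 ≤ CP
  C00 : 1 ≤ C0
  hP : ∀ x j u v, x + n ≤ j → j + n ≤ u → u ≤ v → k (u - x) * k (v - j) ≤ CP * (k (v - x) * k (u - j))
  hC : ∀ x j u, x + n ≤ j → j ≤ x + 3 * n → j + n ≤ u → k (u - x) ≤ C0 * (k (j - x) * k (u - j))

section

variable {n : ℕ} {k : ℕ → ℝ} {CP C0 : ℝ} (hk : KH n k CP C0)

/-- sum over the far past -/
noncomputable def far (n : ℕ) (k b : ℕ → ℝ) (ε : ℝ) (j u : ℕ) : ℝ :=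
  ∑ x ∈ Finset.range j, if x + 3 * n ≤ j then af k b ε j x u else 0

/-- sum over the near resolvable past -/
noncomputable def near (n : ℕ) (k b : ℕ → ℝ) (ε : ℝ) (j u : ℕ) : ℝ :=
  ∑ x ∈ Finset.range j, if x + n ≤ j ∧ j ≤ x + 3 * n then af k b ε j x u else 0

include hk

theorem far_nonneg (b : ℕ → ℝ) (ε : ℝ) (j u : ℕ) : 0 ≤ far n k b ε j u :=
  Finset.sum_nonneg fun x _ => by
    split_ifs
    · exact af_nonneg k b hk.nonneg ε j x u
    · exact le_rfl

theorem near_nonneg (b : ℕ → ℝ) (ε : ℝ) (j u : ℕ) : 0 ≤ near n k b ε j u :=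
  Finset.sum_nonneg fun x _ => by
    split_ifs
    · exact af_nonneg k b hk.nonneg ε j x u
    · exact le_rfl

/-- near pasts can be cut at `j` -/
theorem near_le (b : ℕ → ℝ) (ε : ℝ) (hε : ε = 0 ∨ ε = 1) (j u : ℕ) (hj : 0 < j) (hu : j + n ≤ u) :
    near n k b ε j u ≤ C0 * (Lf k b j * k (u - j)) := by
  unfold near
  rw [Lf_eq k b hj, Finset.sum_mul, Finset.mul_sum]
  apply Finset.sum_le_sum
  intro x hx
  have hL := Lf_nonneg k b hk.nonneg x
  have h1 := hk.nonneg (j - x)
  have h2 := hk.nonneg (u - j)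
  have hC0 := hk.C00
  split_ifs with h
  · have h3 := hk.hC x j u h.1 h.2 hu
    unfold af
    have h4 : Real.exp (ε * Sf b x j) ≤ Real.exp (Sf b x j) + 1 := by
      rcases hε with rfl | rfl
      · simp only [zero_mul, Real.exp_zero]; have := Real.exp_pos (Sf b x j); linarith
      · simp only [one_mul]; linarith
    calc Lf k b x * Real.exp (ε * Sf b x j) * k (u - x)
        ≤ Lf k b x * (Real.exp (Sf b x j) + 1) * (C0 * (k (j - x) * k (u - j))) := by
          apply mul_le_mul _ h3 (hk.nonneg _) (by positivity)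
          exact mul_le_mul_of_nonneg_left h4 hL
      _ = _ := by ring
  · positivity

/-- decomposition of the left hand side at level `i + 1` -/
theorem LH_succ_le (b1 b2 : ℕ → ℝ) (ε2 ε1 : ℝ) (h2 : ε2 = 0 ∨ ε2 = 1) (h1 : ε1 = 0 ∨ ε1 = 1)
    (i u v : ℕ) :
    LH n k b1 b2 ε2 ε1 (i + 1) u v ≤
      Real.exp (ε2 * b2 (i + 1)) * Real.exp (ε1 * b1 (i + 1)) * LH n k b1 b2 ε2 ε1 i u v
      + (if i + 1 + n ≤ u then far n k b2 ε2 (i + 1) u * (Lf k b1 (i + 1) * k (v - (i + 1))) else 0)
      + (if i + 1 + n ≤ v then (Lf k b2 (i + 1) * k (u - (i + 1))) * far n k b1 ε1 (i + 1) v else 0)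
      + (C0 ^ 2 + 2 * C0) * ((Lf k b1 (i + 1) * k (u - (i + 1))) * (Lf k b2 (i + 1) * k (v - (i + 1)))) := by
  set j := i + 1 with hj
  have hn := hk.npos
  have hC0 := hk.C00
  have nn := fun b ε x u => af_nonneg k b hk.nonneg ε j x u
  have hA : ∀ b, 0 ≤ Lf k b j := fun b => Lf_nonneg k b hk.nonneg j
  have hku := hk.nonneg (u - j)
  have hkv := hk.nonneg (v - j)
  set R4 := (Lf k b1 j * k (u - j)) * (Lf k b2 j * k (v - j)) with hR4
  have hR4n : 0 ≤ R4 := by have := hA b1; have := hA b2; positivity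
  -- the four parts
  have hsplit : LH n k b1 b2 ε2 ε1 j u v =
      (∑ x ∈ Finset.range j, ∑ s ∈ Finset.range j,
        if inc n j x s u v then af k b2 ε2 j x u * af k b1 ε1 j s v else 0)
      + (∑ x ∈ Finset.range j, if inc n j x j u v then af k b2 ε2 j x u * af k b1 ε1 j j v else 0)
      + (∑ s ∈ Finset.range j, if inc n j j s u v then af k b2 ε2 j j u * af k b1 ε1 j s v else 0) := by
    unfold LH
    rw [Finset.sum_range_succ, Finset.sum_range_succ (fun s => if inc n j j s u v then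
      af k b2 ε2 j j u * af k b1 ε1 j s v else 0)]
    have h0 : ¬ inc n j j j u v := by
      unfold inc; omega
    rw [if_neg h0, add_zero]
    simp_rw [Finset.sum_range_succ]
    rw [Finset.sum_add_distrib]
  -- part A
  have hPA : (∑ x ∈ Finset.range j, ∑ s ∈ Finset.range j,
        if inc n j x s u v then af k b2 ε2 j x u * af k b1 ε1 j s v else 0) ≤
      Real.exp (ε2 * b2 j) * Real.exp (ε1 * b1 j) * LH n k b1 b2 ε2 ε1 i u v
      + (if j + n ≤ u ∧ j + n ≤ v then near n k b2 ε2 j u * near n k b1 ε1 j v else 0) := by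
    have e1 : Real.exp (ε2 * b2 j) * Real.exp (ε1 * b1 j) * LH n k b1 b2 ε2 ε1 i u v =
        ∑ x ∈ Finset.range j, ∑ s ∈ Finset.range j,
          if inc n i x s u v then af k b2 ε2 j x u * af k b1 ε1 j s v else 0 := by
      unfold LH
      rw [Finset.mul_sum]
      apply Finset.sum_congr rfl
      intro x hx
      rw [Finset.mul_sum]
      apply Finset.sum_congr rfl
      intro s hs
      rw [hj, af_succ k b2 ε2 u (by have := Finset.mem_range.1 hx; omega),
        af_succ k b1 ε1 v (by have := Finset.mem_range.1 hs; omega)]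
      split_ifs
      · ring
      · ring
    have e2 : (if j + n ≤ u ∧ j + n ≤ v then near n k b2 ε2 j u * near n k b1 ε1 j v else 0) =
        ∑ x ∈ Finset.range j, ∑ s ∈ Finset.range j,
          if (j + n ≤ u ∧ j + n ≤ v) ∧ (x + n ≤ j ∧ j ≤ x + 3 * n) ∧ (s + n ≤ j ∧ j ≤ s + 3 * n) then
            af k b2 ε2 j x u * af k b1 ε1 j s v else 0 := by
      by_cases h : j + n ≤ u ∧ j + n ≤ v
      · rw [if_pos h]
        unfold near
        rw [Finset.sum_mul_sum]
        apply Finset.sum_congr rfl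
        intro x _
        apply Finset.sum_congr rfl
        intro s _
        by_cases h1 : x + n ≤ j ∧ j ≤ x + 3 * n <;> by_cases h2 : s + n ≤ j ∧ j ≤ s + 3 * n <;>
          simp [h, h1, h2]
      · rw [if_neg h]
        symm
        apply Finset.sum_eq_zero
        intro x _
        apply Finset.sum_eq_zero
        intro s _
        rw [if_neg (fun hh => h hh.1)]
    rw [e1, e2, ← Finset.sum_add_distrib]
    apply Finset.sum_le_sum
    intro x hx
    rw [← Finset.sum_add_distrib]
    apply Finset.sum_le_sum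
    intro s hs
    have hx' := Finset.mem_range.1 hx
    have hs' := Finset.mem_range.1 hs
    have hp : 0 ≤ af k b2 ε2 j x u * af k b1 ε1 j s v := mul_nonneg (nn _ _ _ _) (nn _ _ _ _)
    by_cases h : inc n j x s u v
    · rw [if_pos h]
      by_cases h' : inc n i x s u v
      · rw [if_pos h']
        have : 0 ≤ (if (j + n ≤ u ∧ j + n ≤ v) ∧ (x + n ≤ j ∧ j ≤ x + 3 * n) ∧
            (s + n ≤ j ∧ j ≤ s + 3 * n) then af k b2 ε2 j x u * af k b1 ε1 j s v else 0) := by
          split_ifs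
          · exact hp
          · exact le_rfl
        linarith
      · rw [if_neg h', if_pos (by unfold inc at h h'; omega)]
        linarith
    · rw [if_neg h]
      have h3 : 0 ≤ (if (j + n ≤ u ∧ j + n ≤ v) ∧ (x + n ≤ j ∧ j ≤ x + 3 * n) ∧
            (s + n ≤ j ∧ j ≤ s + 3 * n) then af k b2 ε2 j x u * af k b1 ε1 j s v else 0) := by
        split_ifs
        · exact hp
        · exact le_rfl
      have h4 : 0 ≤ (if inc n i x s u v then af k b2 ε2 j x u * af k b1 ε1 j s v else 0) := by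
        split_ifs
        · exact hp
        · exact le_rfl
      linarith
  have hmat : (if j + n ≤ u ∧ j + n ≤ v then near n k b2 ε2 j u * near n k b1 ε1 j v else 0) ≤
      C0 ^ 2 * R4 := by
    split_ifs with h
    · have a1 := near_le hk b2 ε2 h2 j u (by omega) h.1
      have a2 := near_le hk b1 ε1 h1 j v (by omega) h.2
      calc near n k b2 ε2 j u * near n k b1 ε1 j v
          ≤ (C0 * (Lf k b2 j * k (u - j))) * (C0 * (Lf k b1 j * k (v - j))) :=
            mul_le_mul a1 a2 (near_nonneg hk _ _ _ _) (by have := hA b2; positivity)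
        _ = C0 ^ 2 * R4 := by rw [hR4]; ring
    · positivity
  -- part B
  have hPB : (∑ x ∈ Finset.range j, if inc n j x j u v then af k b2 ε2 j x u * af k b1 ε1 j j v else 0)
      ≤ (if j + n ≤ u then far n k b2 ε2 j u * (Lf k b1 j * k (v - j)) else 0) + C0 * R4 := by
    rw [af_self]
    by_cases h : j + n ≤ u
    · rw [if_pos h]
      have a1 := near_le hk b2 ε2 h2 j u (by omega) h
      have hp : 0 ≤ Lf k b1 j * k (v - j) := by have := hA b1; positivity
      have a2 : near n k b2 ε2 j u * (Lf k b1 j * k (v - j)) ≤ C0 * R4 := by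
        calc _ ≤ (C0 * (Lf k b2 j * k (u - j))) * (Lf k b1 j * k (v - j)) :=
              mul_le_mul_of_nonneg_right a1 hp
          _ = C0 * R4 := by rw [hR4]; ring
      refine le_trans ?_ (add_le_add_right a2 _)
      rw [← add_mul]
      unfold far near
      rw [← Finset.sum_add_distrib, Finset.sum_mul]
      apply Finset.sum_le_sum
      intro x hx
      have hx' := Finset.mem_range.1 hx
      have hq := nn b2 ε2 x u
      by_cases g : inc n j x j u v
      · rw [if_pos g]
        apply mul_le_mul_of_nonneg_right _ hp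
        by_cases g1 : x + 3 * n ≤ j
        · rw [if_pos g1]
          split_ifs <;> linarith
        · rw [if_neg g1, if_pos (by unfold inc at g; omega), zero_add]
      · rw [if_neg g]
        apply mul_nonneg _ hp
        split_ifs <;> positivity
    · rw [if_neg h, zero_add]
      have : (∑ x ∈ Finset.range j, if inc n j x j u v then
          af k b2 ε2 j x u * (Lf k b1 j * k (v - j)) else 0) = 0 := by
        apply Finset.sum_eq_zero
        intro x _
        rw [if_neg]
        unfold inc; omega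
      rw [this]; positivity
  -- part C
  have hPC : (∑ s ∈ Finset.range j, if inc n j j s u v then af k b2 ε2 j j u * af k b1 ε1 j s v else 0)
      ≤ (if j + n ≤ v then (Lf k b2 j * k (u - j)) * far n k b1 ε1 j v else 0) + C0 * R4 := by
    rw [af_self]
    by_cases h : j + n ≤ v
    · rw [if_pos h]
      have a1 := near_le hk b1 ε1 h1 j v (by omega) h
      have hp : 0 ≤ Lf k b2 j * k (u - j) := by have := hA b2; positivity
      have a2 : (Lf k b2 j * k (u - j)) * near n k b1 ε1 j v ≤ C0 * R4 := by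
        calc _ ≤ (Lf k b2 j * k (u - j)) * (C0 * (Lf k b1 j * k (v - j))) :=
              mul_le_mul_of_nonneg_left a1 hp
          _ = C0 * R4 := by rw [hR4]; ring
      refine le_trans ?_ (add_le_add_right a2 _)
      rw [← mul_add]
      unfold far near
      rw [← Finset.sum_add_distrib, Finset.mul_sum]
      apply Finset.sum_le_sum
      intro s hs
      have hs' := Finset.mem_range.1 hs
      have hq := nn b1 ε1 s v
      by_cases g : inc n j j s u v
      · rw [if_pos g]
        apply mul_le_mul_of_nonneg_left _ hp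
        by_cases g1 : s + 3 * n ≤ j
        · rw [if_pos g1]
          split_ifs <;> linarith
        · rw [if_neg g1, if_pos (by unfold inc at g; omega), zero_add]
      · rw [if_neg g]
        apply mul_nonneg hp
        split_ifs <;> positivity
    · rw [if_neg h, zero_add]
      have : (∑ s ∈ Finset.range j, if inc n j j s u v then
          Lf k b2 j * k (u - j) * af k b1 ε1 j s v else 0) = 0 := by
        apply Finset.sum_eq_zero
        intro s _
        rw [if_neg]
        unfold inc; omega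
      rw [this]; positivity
  rw [hsplit]
  linarith

/-- the relations at level `i` -/
def Rel (n : ℕ) (k b1 b2 : ℕ → ℝ) (C : ℝ) (i : ℕ) : Prop :=
  ∀ u v, i < u → i < v →
    LH n k b1 b2 1 0 i u v ≤ C * (Ff k b1 1 i u * Ff k b2 0 i v) ∧
    (v ≤ u → LH n k b1 b2 1 1 i u v ≤ C * (Ff k b1 1 i u * Ff k b2 1 i v)) ∧
    (u ≤ v → LH n k b1 b2 0 0 i u v ≤ C * (Ff k b1 0 i u * Ff k b2 0 i v))

/-- a product of a far sum with a general sum is part of the left hand side -/
theorem far_mul_le (b1 b2 : ℕ → ℝ) (ε2 ε1 : ℝ) (i u v : ℕ) (hv : i < v) (hu : i + 1 + n ≤ u)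
    (hv' : i + 1 ≤ v) :
    far n k b2 ε2 (i + 1) u * (Real.exp (ε1 * b1 (i + 1)) * Ff k b1 ε1 i v) ≤
      Real.exp (ε2 * b2 (i + 1)) * Real.exp (ε1 * b1 (i + 1)) * LH n k b1 b2 ε2 ε1 i u v := by
  have hn := hk.npos
  unfold far Ff LH
  rw [Finset.mul_sum, Finset.sum_mul_sum, Finset.mul_sum]
  apply Finset.sum_le_sum
  intro x hx
  rw [Finset.mul_sum]
  apply Finset.sum_le_sum
  intro s hs
  have hx' := Finset.mem_range.1 hx
  have hs' := Finset.mem_range.1 hs
  have e1 := af_succ k b2 ε2 u (by omega : x ≤ i)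
  have p1 := af_nonneg k b2 hk.nonneg ε2 i x u
  have p2 := af_nonneg k b1 hk.nonneg ε1 i s v
  have hR : 0 ≤ Real.exp (ε2 * b2 (i + 1)) * Real.exp (ε1 * b1 (i + 1)) *
      (if inc n i x s u v then af k b2 ε2 i x u * af k b1 ε1 i s v else 0) := by
    split_ifs <;> positivity
  by_cases h : x + 3 * n ≤ i + 1
  · rw [if_pos h, e1, if_pos (by unfold inc; omega)]
    apply le_of_eq; ring
  · rw [if_neg h, zero_mul]; exact hR

theorem mul_far_le (b1 b2 : ℕ → ℝ) (ε2 ε1 : ℝ) (i u v : ℕ) (hu : i < u) (hv : i + 1 + n ≤ v)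
    (hu' : i + 1 ≤ u) :
    (Real.exp (ε2 * b2 (i + 1)) * Ff k b2 ε2 i u) * far n k b1 ε1 (i + 1) v ≤
      Real.exp (ε2 * b2 (i + 1)) * Real.exp (ε1 * b1 (i + 1)) * LH n k b1 b2 ε2 ε1 i u v := by
  have hn := hk.npos
  unfold far Ff LH
  rw [Finset.mul_sum (a := Real.exp (ε2 * b2 (i + 1)))]
  rw [Finset.sum_mul_sum, Finset.mul_sum]
  apply Finset.sum_le_sum
  intro x hx
  rw [Finset.mul_sum]
  apply Finset.sum_le_sum
  intro s hs
  have hx' := Finset.mem_range.1 hx
  have hs' := Finset.mem_range.1 hs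
  have e1 := af_succ k b1 ε1 v (by omega : s ≤ i)
  have p1 := af_nonneg k b2 hk.nonneg ε2 i x u
  have p2 := af_nonneg k b1 hk.nonneg ε1 i s v
  have hR : 0 ≤ Real.exp (ε2 * b2 (i + 1)) * Real.exp (ε1 * b1 (i + 1)) *
      (if inc n i x s u v then af k b2 ε2 i x u * af k b1 ε1 i s v else 0) := by
    split_ifs <;> positivity
  by_cases h : s + 3 * n ≤ i + 1
  · rw [if_pos h, e1, if_pos (by unfold inc; omega)]
    apply le_of_eq; ring
  · rw [if_neg h, mul_zero]; exact hR

theorem far_mul_far_le (b1 b2 : ℕ → ℝ) (ε2 ε1 : ℝ) (i u v : ℕ) (hu : i + 1 + n ≤ u)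
    (hv : i + 1 + n ≤ v) :
    far n k b2 ε2 (i + 1) u * far n k b1 ε1 (i + 1) v ≤
      Real.exp (ε2 * b2 (i + 1)) * Real.exp (ε1 * b1 (i + 1)) * LH n k b1 b2 ε2 ε1 i u v := by
  have hn := hk.npos
  unfold far LH
  rw [Finset.sum_mul_sum, Finset.mul_sum]
  apply Finset.sum_le_sum
  intro x hx
  rw [Finset.mul_sum]
  apply Finset.sum_le_sum
  intro s hs
  have hx' := Finset.mem_range.1 hx
  have hs' := Finset.mem_range.1 hs
  have e1 := af_succ k b1 ε1 v (by omega : s ≤ i)
  have e2 := af_succ k b2 ε2 u (by omega : x ≤ i)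
  have p1 := af_nonneg k b2 hk.nonneg ε2 i x u
  have p2 := af_nonneg k b1 hk.nonneg ε1 i s v
  have hR : 0 ≤ Real.exp (ε2 * b2 (i + 1)) * Real.exp (ε1 * b1 (i + 1)) *
      (if inc n i x s u v then af k b2 ε2 i x u * af k b1 ε1 i s v else 0) := by
    split_ifs <;> positivity
  by_cases h : x + 3 * n ≤ i + 1
  · by_cases h' : s + 3 * n ≤ i + 1
    · rw [if_pos h, if_pos h', e1, e2, if_pos (by unfold inc; omega)]
      apply le_of_eq; ring
    · rw [if_neg h', mul_zero]; exact hR
  · rw [if_neg h, zero_mul]; exact hR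

/-- far sums and `(P)` -/
theorem far_swap (b : ℕ → ℝ) (ε : ℝ) (j u v : ℕ) (hu : j + n ≤ u) (huv : u ≤ v) :
    far n k b ε (j + 0) u * k (v - j) ≤ CP * (far n k b ε j v * k (u - j)) := by
  have hn := hk.npos
  unfold far
  rw [Finset.sum_mul, Finset.sum_mul, Finset.mul_sum]
  apply Finset.sum_le_sum
  intro x hx
  have hL := Lf_nonneg k b hk.nonneg x
  simp only [add_zero]
  split_ifs with h
  · unfold af
    have h1 := hk.hP x j u v (by omega) hu huv
    have h2 : 0 ≤ Lf k b x * Real.exp (ε * Sf b x j) := by positivity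
    calc Lf k b x * Real.exp (ε * Sf b x j) * k (u - x) * k (v - j)
        = (Lf k b x * Real.exp (ε * Sf b x j)) * (k (u - x) * k (v - j)) := by ring
      _ ≤ (Lf k b x * Real.exp (ε * Sf b x j)) * (CP * (k (v - x) * k (u - j))) :=
          mul_le_mul_of_nonneg_left h1 h2
      _ = _ := by ring
  · simp

theorem far_le_Ff (b : ℕ → ℝ) (ε : ℝ) (i u : ℕ) :
    far n k b ε (i + 1) u ≤ Real.exp (ε * b (i + 1)) * Ff k b ε i u := by
  unfold far Ff
  rw [Finset.mul_sum]
  apply Finset.sum_le_sum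
  intro x hx
  have hx' := Finset.mem_range.1 hx
  rw [← af_succ k b ε u (by omega : x ≤ i)]
  split_ifs
  · exact le_rfl
  · exact af_nonneg k b hk.nonneg _ _ _ _

theorem Rel_zero (b1 b2 : ℕ → ℝ) (C : ℝ) (hC : 0 ≤ C) : Rel n k b1 b2 C 0 := by
  have hn := hk.npos
  have h0 : ∀ ε2 ε1 u v, LH n k b1 b2 ε2 ε1 0 u v = 0 := by
    intro ε2 ε1 u v
    unfold LH
    simp only [zero_add, Finset.range_one, Finset.sum_singleton]
    rw [if_neg]
    unfold inc; omega
  intro u v _ _
  have nn := fun b ε u => Ff_nonneg k b hk.nonneg ε 0 u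
  rw [h0, h0, h0]
  refine ⟨?_, fun _ => ?_, fun _ => ?_⟩
  · exact mul_nonneg hC (mul_nonneg (nn _ _ _) (nn _ _ _))
  · exact mul_nonneg hC (mul_nonneg (nn _ _ _) (nn _ _ _))
  · exact mul_nonneg hC (mul_nonneg (nn _ _ _) (nn _ _ _))

theorem Rel_succ (b1 b2 : ℕ → ℝ) (C : ℝ) (hC1 : CP ≤ C) (hC2 : C0 ^ 2 + 2 * C0 ≤ C) (i : ℕ)
    (hb : b2 (i + 1) ≤ b1 (i + 1)) (ih : Rel n k b1 b2 C i) : Rel n k b1 b2 C (i + 1) := by
  have hn := hk.npos
  have hCP := hk.CP0
  have hC0 : 0 ≤ C := by linarith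
  have hC01 : 1 ≤ C := by linarith
  intro u v hu hv
  set j := i + 1 with hj
  have nn := fun b ε u => Ff_nonneg k b hk.nonneg ε i u
  have fn := fun b ε u => far_nonneg hk b ε j u
  have hA : ∀ b, 0 ≤ Lf k b j := fun b => Lf_nonneg k b hk.nonneg j
  have hku := hk.nonneg (u - j)
  have hkv := hk.nonneg (v - j)
  have hb' : Real.exp (b2 j) ≤ Real.exp (b1 j) := Real.exp_le_exp.2 hb
  have hb2 := Real.exp_pos (b2 j)
  have hb1 := Real.exp_pos (b1 j)
  -- H2
  have H2 : j + n ≤ u → far n k b2 1 j u * Lf k b1 j ≤ C * (Real.exp (b1 j) * Ff k b1 1 i u * Lf k b2 j) := by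
    intro h
    have a1 := far_mul_le hk b1 b2 1 1 i u j (by omega) h (by omega)
    have a2 := far_mul_le hk b1 b2 1 0 i u j (by omega) h (by omega)
    have a3 := (ih u j (by omega) (by omega)).2.1 (by omega)
    have a4 := (ih u j (by omega) (by omega)).1
    simp only [one_mul, zero_mul, Real.exp_zero, mul_one] at a1 a2
    rw [← hj] at a1 a2
    have e1 := Lf_succ k b1 i
    have e2 := Lf_succ k b2 i
    rw [← hj] at e1 e2
    have a5 : Real.exp (b2 j) * Real.exp (b1 j) * LH n k b1 b2 1 1 i u j ≤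
        Real.exp (b2 j) * Real.exp (b1 j) * (C * (Ff k b1 1 i u * Ff k b2 1 i j)) :=
      mul_le_mul_of_nonneg_left a3 (by positivity)
    have a6 : Real.exp (b2 j) * LH n k b1 b2 1 0 i u j ≤
        Real.exp (b1 j) * (C * (Ff k b1 1 i u * Ff k b2 0 i j)) := by
      have q : 0 ≤ C * (Ff k b1 1 i u * Ff k b2 0 i j) := mul_nonneg hC0 (mul_nonneg (nn _ _ _) (nn _ _ _))
      calc _ ≤ Real.exp (b2 j) * (C * (Ff k b1 1 i u * Ff k b2 0 i j)) :=
            mul_le_mul_of_nonneg_left a4 hb2.le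
        _ ≤ _ := mul_le_mul_of_nonneg_right hb' q
    calc far n k b2 1 j u * Lf k b1 j
        = far n k b2 1 j u * (Real.exp (b1 j) * Ff k b1 1 i j) + far n k b2 1 j u * Ff k b1 0 i j := by
          rw [e1]; ring
      _ ≤ Real.exp (b2 j) * Real.exp (b1 j) * (C * (Ff k b1 1 i u * Ff k b2 1 i j)) +
          Real.exp (b1 j) * (C * (Ff k b1 1 i u * Ff k b2 0 i j)) := by linarith
      _ = C * (Real.exp (b1 j) * Ff k b1 1 i u * Lf k b2 j) := by rw [e2]; ring
  -- H3
  have H3 : j + n ≤ v → Lf k b2 j * far n k b1 0 j v ≤ C * (Lf k b1 j * Ff k b2 0 i v) := by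
    intro h
    have a1 := mul_far_le hk b1 b2 1 0 i j v (by omega) h (by omega)
    have a2 := mul_far_le hk b1 b2 0 0 i j v (by omega) h (by omega)
    have a3 := (ih j v (by omega) (by omega)).1
    have a4 := (ih j v (by omega) (by omega)).2.2 (by omega)
    simp only [one_mul, zero_mul, Real.exp_zero, mul_one] at a1 a2
    rw [← hj] at a1 a2
    have e1 := Lf_succ k b1 i
    have e2 := Lf_succ k b2 i
    rw [← hj] at e1 e2
    have a5 : Real.exp (b2 j) * LH n k b1 b2 1 0 i j v ≤
        Real.exp (b1 j) * (C * (Ff k b1 1 i j * Ff k b2 0 i v)) := by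
      have q : 0 ≤ C * (Ff k b1 1 i j * Ff k b2 0 i v) := mul_nonneg hC0 (mul_nonneg (nn _ _ _) (nn _ _ _))
      calc _ ≤ Real.exp (b2 j) * (C * (Ff k b1 1 i j * Ff k b2 0 i v)) :=
            mul_le_mul_of_nonneg_left a3 hb2.le
        _ ≤ _ := mul_le_mul_of_nonneg_right hb' q
    calc Lf k b2 j * far n k b1 0 j v
        = Real.exp (b2 j) * Ff k b2 1 i j * far n k b1 0 j v + Ff k b2 0 i j * far n k b1 0 j v := by
          rw [e2]; ring
      _ ≤ Real.exp (b1 j) * (C * (Ff k b1 1 i j * Ff k b2 0 i v)) +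
          C * (Ff k b1 0 i j * Ff k b2 0 i v) := by linarith
      _ = C * (Lf k b1 j * Ff k b2 0 i v) := by rw [e1]; ring
  -- H2 and H3 with general ends
  set R4 := (Lf k b1 j * k (u - j)) * (Lf k b2 j * k (v - j)) with hR4
  have hR4n : 0 ≤ R4 := by have := hA b1; have := hA b2; positivity
  have hR4C : (C0 ^ 2 + 2 * C0) * R4 ≤ C * R4 := mul_le_mul_of_nonneg_right hC2 hR4n
  refine ⟨?_, fun hvu => ?_, fun huv => ?_⟩
  · -- colours (1,0)
    have h0 := LH_succ_le hk b1 b2 1 0 (Or.inr rfl) (Or.inl rfl) i u v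
    rw [← hj] at h0
    simp only [one_mul, zero_mul, Real.exp_zero, mul_one] at h0
    have t1 : Real.exp (b2 j) * LH n k b1 b2 1 0 i u v ≤
        C * (Real.exp (b1 j) * Ff k b1 1 i u * Ff k b2 0 i v) := by
      have q : 0 ≤ C * (Ff k b1 1 i u * Ff k b2 0 i v) := mul_nonneg hC0 (mul_nonneg (nn _ _ _) (nn _ _ _))
      calc _ ≤ Real.exp (b2 j) * (C * (Ff k b1 1 i u * Ff k b2 0 i v)) :=
            mul_le_mul_of_nonneg_left (ih u v (by omega) (by omega)).1 hb2.le
        _ ≤ Real.exp (b1 j) * (C * (Ff k b1 1 i u * Ff k b2 0 i v)) := mul_le_mul_of_nonneg_right hb' q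
        _ = _ := by ring
    have t2 : (if j + n ≤ u then far n k b2 1 j u * (Lf k b1 j * k (v - j)) else 0) ≤
        C * (Real.exp (b1 j) * Ff k b1 1 i u * (Lf k b2 j * k (v - j))) := by
      split_ifs with h
      · calc _ = (far n k b2 1 j u * Lf k b1 j) * k (v - j) := by ring
          _ ≤ (C * (Real.exp (b1 j) * Ff k b1 1 i u * Lf k b2 j)) * k (v - j) :=
              mul_le_mul_of_nonneg_right (H2 h) hkv
          _ = _ := by ring
      · have := nn b1 1 u; have := hA b2; positivity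
    have t3 : (if j + n ≤ v then (Lf k b2 j * k (u - j)) * far n k b1 0 j v else 0) ≤
        C * ((Lf k b1 j * k (u - j)) * Ff k b2 0 i v) := by
      split_ifs with h
      · calc _ = (Lf k b2 j * far n k b1 0 j v) * k (u - j) := by ring
          _ ≤ (C * (Lf k b1 j * Ff k b2 0 i v)) * k (u - j) := mul_le_mul_of_nonneg_right (H3 h) hku
          _ = _ := by ring
      · have := nn b2 0 v; have := hA b1; positivity
    have e1 := Ff_succ k b1 1 i u
    have e2 := Ff_succ k b2 0 i v
    rw [← hj] at e1 e2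
    simp only [one_mul, zero_mul, Real.exp_zero] at e1 e2
    rw [e1, e2]
    calc _ ≤ _ := h0
      _ ≤ C * (Real.exp (b1 j) * Ff k b1 1 i u * Ff k b2 0 i v) +
          C * (Real.exp (b1 j) * Ff k b1 1 i u * (Lf k b2 j * k (v - j))) +
          C * ((Lf k b1 j * k (u - j)) * Ff k b2 0 i v) + C * R4 := by linarith
      _ = _ := by rw [hR4]; ring
  · -- colours (1,1), v ≤ u
    have h0 := LH_succ_le hk b1 b2 1 1 (Or.inr rfl) (Or.inr rfl) i u v
    rw [← hj] at h0
    simp only [one_mul] at h0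
    have hih := (ih u v (by omega) (by omega)).2.1 hvu
    have t1 : Real.exp (b2 j) * Real.exp (b1 j) * LH n k b1 b2 1 1 i u v ≤
        C * ((Real.exp (b1 j) * Ff k b1 1 i u) * (Real.exp (b2 j) * Ff k b2 1 i v)) := by
      calc _ ≤ Real.exp (b2 j) * Real.exp (b1 j) * (C * (Ff k b1 1 i u * Ff k b2 1 i v)) :=
            mul_le_mul_of_nonneg_left hih (by positivity)
        _ = _ := by ring
    set R2 := Real.exp (b1 j) * Ff k b1 1 i u * (Lf k b2 j * k (v - j)) with hR2
    set R3 := (Lf k b1 j * k (u - j)) * (Real.exp (b2 j) * Ff k b2 1 i v) with hR3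
    have hR2n : 0 ≤ R2 := by have := nn b1 1 u; have := hA b2; positivity
    have hR3n : 0 ≤ R3 := by have := nn b2 1 v; have := hA b1; positivity
    have t2 : (if j + n ≤ u then far n k b2 1 j u * (Lf k b1 j * k (v - j)) else 0) ≤ C * R2 := by
      split_ifs with h
      · calc _ = (far n k b2 1 j u * Lf k b1 j) * k (v - j) := by ring
          _ ≤ (C * (Real.exp (b1 j) * Ff k b1 1 i u * Lf k b2 j)) * k (v - j) :=
              mul_le_mul_of_nonneg_right (H2 h) hkv
          _ = _ := by rw [hR2]; ring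
      · positivity
    have t2n : 0 ≤ (if j + n ≤ u then far n k b2 1 j u * (Lf k b1 j * k (v - j)) else 0) := by
      split_ifs
      · have := fn b2 1 u; have := hA b1; positivity
      · exact le_rfl
    have t3 : (if j + n ≤ v then (Lf k b2 j * k (u - j)) * far n k b1 1 j v else 0) ≤ C * R2 := by
      split_ifs with h
      · have a1 := far_swap hk b1 1 j v u h hvu
        rw [add_zero] at a1
        have a2 := far_le_Ff hk b1 1 i u
        rw [← hj, one_mul] at a2
        have hL2 := hA b2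
        calc _ = Lf k b2 j * (far n k b1 1 j v * k (u - j)) := by ring
          _ ≤ Lf k b2 j * (CP * (far n k b1 1 j u * k (v - j))) := mul_le_mul_of_nonneg_left a1 hL2
          _ ≤ Lf k b2 j * (CP * ((Real.exp (b1 j) * Ff k b1 1 i u) * k (v - j))) := by gcongr
          _ = CP * R2 := by rw [hR2]; ring
          _ ≤ C * R2 := mul_le_mul_of_nonneg_right hC1 hR2n
      · positivity
    have t23 : (if j + n ≤ u then far n k b2 1 j u * (Lf k b1 j * k (v - j)) else 0) *
        (if j + n ≤ v then (Lf k b2 j * k (u - j)) * far n k b1 1 j v else 0) ≤ (C * R2) * R3 := by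
      by_cases h : j + n ≤ u
      · by_cases h' : j + n ≤ v
        · rw [if_pos h, if_pos h']
          have a1 := far_mul_far_le hk b1 b2 1 1 i u v h h'
          rw [← hj, one_mul, one_mul] at a1
          have q : 0 ≤ Lf k b1 j * Lf k b2 j * (k (u - j) * k (v - j)) := by
            have := hA b1; have := hA b2; positivity
          calc _ = (far n k b2 1 j u * far n k b1 1 j v) *
                (Lf k b1 j * Lf k b2 j * (k (u - j) * k (v - j))) := by ring
            _ ≤ (Real.exp (b2 j) * Real.exp (b1 j) * LH n k b1 b2 1 1 i u v) *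
                (Lf k b1 j * Lf k b2 j * (k (u - j) * k (v - j))) := mul_le_mul_of_nonneg_right a1 q
            _ ≤ (C * ((Real.exp (b1 j) * Ff k b1 1 i u) * (Real.exp (b2 j) * Ff k b2 1 i v))) *
                (Lf k b1 j * Lf k b2 j * (k (u - j) * k (v - j))) := mul_le_mul_of_nonneg_right t1 q
            _ = _ := by rw [hR2, hR3]; ring
        · rw [if_neg h', mul_zero]; positivity
      · rw [if_neg h, zero_mul]; positivity
    have t4 := trick t2n t2 t3 hR3n t23
    have t5 : R3 ≤ C * R3 := by nlinarith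
    have e1 := Ff_succ k b1 1 i u
    have e2 := Ff_succ k b2 1 i v
    rw [← hj] at e1 e2
    simp only [one_mul] at e1 e2
    rw [e1, e2]
    calc _ ≤ _ := h0
      _ ≤ C * ((Real.exp (b1 j) * Ff k b1 1 i u) * (Real.exp (b2 j) * Ff k b2 1 i v)) +
          C * R2 + C * R3 + C * R4 := by linarith
      _ = _ := by rw [hR4, hR2, hR3]; ring
  · -- colours (0,0), u ≤ v
    have h0 := LH_succ_le hk b1 b2 0 0 (Or.inl rfl) (Or.inl rfl) i u v
    rw [← hj] at h0
    simp only [zero_mul, Real.exp_zero, one_mul] at h0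
    have hih := (ih u v (by omega) (by omega)).2.2 huv
    set R2 := Ff k b1 0 i u * (Lf k b2 j * k (v - j)) with hR2
    set R3 := (Lf k b1 j * k (u - j)) * Ff k b2 0 i v with hR3
    have hR2n : 0 ≤ R2 := by have := nn b1 0 u; have := hA b2; positivity
    have hR3n : 0 ≤ R3 := by have := nn b2 0 v; have := hA b1; positivity
    have t3 : (if j + n ≤ v then (Lf k b2 j * k (u - j)) * far n k b1 0 j v else 0) ≤ C * R3 := by
      split_ifs with h
      · calc _ = (Lf k b2 j * far n k b1 0 j v) * k (u - j) := by ring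
          _ ≤ (C * (Lf k b1 j * Ff k b2 0 i v)) * k (u - j) := mul_le_mul_of_nonneg_right (H3 h) hku
          _ = _ := by rw [hR3]; ring
      · positivity
    have t3n : 0 ≤ (if j + n ≤ v then (Lf k b2 j * k (u - j)) * far n k b1 0 j v else 0) := by
      split_ifs
      · have := fn b1 0 v; have := hA b2; positivity
      · exact le_rfl
    have t2 : (if j + n ≤ u then far n k b2 0 j u * (Lf k b1 j * k (v - j)) else 0) ≤ C * R3 := by
      split_ifs with h
      · have a1 := far_swap hk b2 0 j u v h huv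
        rw [add_zero] at a1
        have a2 := far_le_Ff hk b2 0 i v
        rw [← hj, zero_mul, Real.exp_zero, one_mul] at a2
        have hL1 := hA b1
        calc _ = Lf k b1 j * (far n k b2 0 j u * k (v - j)) := by ring
          _ ≤ Lf k b1 j * (CP * (far n k b2 0 j v * k (u - j))) := mul_le_mul_of_nonneg_left a1 hL1
          _ ≤ Lf k b1 j * (CP * (Ff k b2 0 i v * k (u - j))) := by gcongr
          _ = CP * R3 := by rw [hR3]; ring
          _ ≤ C * R3 := mul_le_mul_of_nonneg_right hC1 hR3n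
      · positivity
    have t23 : (if j + n ≤ v then (Lf k b2 j * k (u - j)) * far n k b1 0 j v else 0) *
        (if j + n ≤ u then far n k b2 0 j u * (Lf k b1 j * k (v - j)) else 0) ≤ (C * R3) * R2 := by
      by_cases h : j + n ≤ u
      · by_cases h' : j + n ≤ v
        · rw [if_pos h, if_pos h']
          have a1 := far_mul_far_le hk b1 b2 0 0 i u v h h'
          rw [← hj, zero_mul, zero_mul, Real.exp_zero, one_mul, one_mul] at a1
          have q : 0 ≤ Lf k b1 j * Lf k b2 j * (k (u - j) * k (v - j)) := by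
            have := hA b1; have := hA b2; positivity
          calc _ = (far n k b2 0 j u * far n k b1 0 j v) *
                (Lf k b1 j * Lf k b2 j * (k (u - j) * k (v - j))) := by ring
            _ ≤ (LH n k b1 b2 0 0 i u v) *
                (Lf k b1 j * Lf k b2 j * (k (u - j) * k (v - j))) := mul_le_mul_of_nonneg_right a1 q
            _ ≤ (C * (Ff k b1 0 i u * Ff k b2 0 i v)) *
                (Lf k b1 j * Lf k b2 j * (k (u - j) * k (v - j))) := mul_le_mul_of_nonneg_right hih q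
            _ = _ := by rw [hR2, hR3]; ring
        · rw [if_neg h', zero_mul]; positivity
      · rw [if_neg h, mul_zero]; positivity
    have t4 := trick t3n t3 t2 hR2n t23
    have t5 : R2 ≤ C * R2 := by nlinarith
    have e1 := Ff_succ k b1 0 i u
    have e2 := Ff_succ k b2 0 i v
    rw [← hj] at e1 e2
    simp only [zero_mul, Real.exp_zero, one_mul] at e1 e2
    rw [e1, e2]
    calc _ ≤ _ := h0
      _ ≤ C * (Ff k b1 0 i u * Ff k b2 0 i v) +
          C * R2 + C * R3 + C * R4 := by linarith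
      _ = _ := by rw [hR4, hR2, hR3]; ring

/-- **the relations hold at every level** -/
theorem Rel_all (b1 b2 : ℕ → ℝ) (C : ℝ) (hC1 : CP ≤ C) (hC2 : C0 ^ 2 + 2 * C0 ≤ C) (i : ℕ)
    (hb : ∀ j, 1 ≤ j → j ≤ i → b2 j ≤ b1 j) : Rel n k b1 b2 C i := by
  induction i with
  | zero => exact Rel_zero hk b1 b2 C (by have := hk.CP0; linarith)
  | succ i ih =>
    exact Rel_succ hk b1 b2 C hC1 hC2 i (hb (i + 1) (by omega) le_rfl)
      (ih fun j h1 h2 => hb j h1 (by omega))

end

end H98G
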