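import Pool.Agent.Helper98.CopG.FiniteVol

set_option autoImplicit false

/-! # Local resampling of Gaussian coordinates -/

namespace H98G

open MeasureTheory ProbabilityTheory Filter Topology
open H98Cop (pj gm gauss_ibp integrable_of_le_lin integrable_of_le_exp integrable_exp_abs)

variable {ι : Type*} [Fintype ι] [DecidableEq ι]

/-- product formula for functions of disjoint sets of coordinates -/
theorem indep_int (N : Finset ι) (φ g : (ι → ℝ) → ℝ) (hφm : Measurable φ) (hgm : Measurable g)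
    (hφ : ∀ x x', (∀ i ∈ N, x i = x' i) → φ x = φ x')
    (hg : ∀ x x', (∀ i, i ∉ N → x i = x' i) → g x = g x') :
    ∫ x, φ x * g x ∂(gm ι) = (∫ x, φ x ∂(gm ι)) * ∫ x, g x ∂(gm ι) := by
  have h1 : iIndepFun (fun (i : ι) (ω : ι → ℝ) => ω i) (gm ι) := by
    unfold gm
    exact iIndepFun_pi (X := fun (_ : ι) (t : ℝ) => t) (fun _ => aemeasurable_id)
  have h2 := h1.indepFun_finset N Nᶜ disjoint_compl_right (fun i => measurable_pi_apply i)
  set φ' : (N → ℝ) → ℝ := fun u => φ (fun i => if h : i ∈ N then u ⟨i, h⟩ else 0) with hφ'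
  set g' : ((Nᶜ : Finset ι) → ℝ) → ℝ := fun u => g (fun i => if h : i ∈ Nᶜ then u ⟨i, h⟩ else 0) with hg'
  have m1 : Measurable φ' := by
    apply hφm.comp
    apply measurable_pi_lambda
    intro i
    by_cases h : i ∈ N
    · simp only [h, dif_pos]; fun_prop
    · simp only [h, dif_neg, not_false_iff]; fun_prop
  have m2 : Measurable g' := by
    apply hgm.comp
    apply measurable_pi_lambda
    intro i
    by_cases h : i ∈ Nᶜ
    · simp only [h, dif_pos]; fun_prop
    · simp only [h, dif_neg, not_false_iff]; fun_prop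
  have h3 := h2.comp m1 m2
  have e1 : (φ' ∘ fun (a : ι → ℝ) (i : N) => a i) = φ := by
    funext x
    simp only [hφ', Function.comp_apply]
    apply hφ
    intro i hi
    simp [hi]
  have e2 : (g' ∘ fun (a : ι → ℝ) (i : (Nᶜ : Finset ι)) => a i) = g := by
    funext x
    simp only [hg', Function.comp_apply]
    apply hg
    intro i hi
    have : i ∈ Nᶜ := Finset.mem_compl.2 hi
    simp [hi]
  rw [e1, e2] at h3
  exact h3.integral_fun_mul_eq_mul_integral hφm.aestronglyMeasurable hgm.aestronglyMeasurable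

omit [Fintype ι] [DecidableEq ι] in
theorem meas_expN (c : ℝ) (N : Finset ι) : Measurable (fun x : ι → ℝ => Real.exp (c * ∑ i ∈ N, |x i|)) := by
  fun_prop

theorem Eexp (c : ℝ) (N : Finset ι) : ∫ x, Real.exp (c * ∑ i ∈ N, |x i|) ∂(gm ι) =
    (∫ t, Real.exp (c * |t|) ∂(gaussianReal 0 1)) ^ N.card := by
  have h1 : ∀ x : ι → ℝ, Real.exp (c * ∑ i ∈ N, |x i|) =
      ∏ i, (if i ∈ N then Real.exp (c * |x i|) else 1) := by
    intro x
    rw [Finset.mul_sum, Real.exp_sum, Finset.prod_ite_mem, Finset.univ_inter]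
  simp_rw [h1]
  unfold gm
  rw [integral_fintype_prod_eq_prod (fun (i : ι) (t : ℝ) => if i ∈ N then Real.exp (c * |t|) else 1)]
  have h2 : ∀ i : ι, ∫ t, (if i ∈ N then Real.exp (c * |t|) else 1) ∂(gaussianReal 0 1) =
      if i ∈ N then ∫ t, Real.exp (c * |t|) ∂(gaussianReal 0 1) else 1 := by
    intro i
    split_ifs
    · rfl
    · simp
  rw [Finset.prod_congr rfl (fun i _ => h2 i), Finset.prod_ite_mem, Finset.univ_inter,
    Finset.prod_const]

theorem integrable_expN (c : ℝ) (N : Finset ι) :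
    Integrable (fun x : ι → ℝ => Real.exp (c * ∑ i ∈ N, |x i|)) (gm ι) := by
  apply integrable_of_le_exp _ (meas_expN c N).aestronglyMeasurable 1 |c|
  intro x
  rw [one_mul, abs_of_pos (Real.exp_pos _)]
  apply Real.exp_le_exp.2
  have h1 : ∑ i ∈ N, |x i| ≤ ∑ i, |x i| :=
    Finset.sum_le_sum_of_subset_of_nonneg (Finset.subset_univ _) fun i _ _ => abs_nonneg _
  have h2 : 0 ≤ ∑ i ∈ N, |x i| := Finset.sum_nonneg fun i _ => abs_nonneg _
  calc c * ∑ i ∈ N, |x i| ≤ |c| * ∑ i ∈ N, |x i| := mul_le_mul_of_nonneg_right (le_abs_self c) h2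
    _ ≤ _ := mul_le_mul_of_nonneg_left h1 (abs_nonneg _)

theorem exp1_integrable (c : ℝ) : Integrable (fun t : ℝ => Real.exp (c * |t|)) (gaussianReal 0 1) := by
  have h1 := integrable_exp_mul_gaussianReal (μ := 0) (v := 1) c
  have h2 := integrable_exp_mul_gaussianReal (μ := 0) (v := 1) (-c)
  refine (h1.add h2).mono' (by fun_prop) (Filter.Eventually.of_forall fun y => ?_)
  rw [Real.norm_eq_abs, abs_of_pos (Real.exp_pos _)]
  simp only [Pi.add_apply]
  rcases abs_cases y with ⟨h, _⟩ | ⟨h, _⟩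
  · rw [h]; have := Real.exp_pos (-c * y); linarith
  · rw [h]; have := Real.exp_pos (c * y)
    rw [show c * -y = -c * y by ring]; linarith

theorem exp1_pos (c : ℝ) : 0 < ∫ t, Real.exp (c * |t|) ∂(gaussianReal 0 1) := by
  apply integral_exp_pos
  exact exp1_integrable c

/-- the resampling constant -/
noncomputable def rhoc (a c : ℝ) : ℝ :=
  (∫ t, Real.exp (-(a + c) * |t|) ∂(gaussianReal 0 1)) / ∫ t, Real.exp (c * |t|) ∂(gaussianReal 0 1)

theorem rhoc_pos (a c : ℝ) : 0 < rhoc a c := div_pos (exp1_pos _) (exp1_pos _)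

theorem rhoc_le_one {a c : ℝ} (ha : 0 ≤ a) (hc : 0 ≤ c) : rhoc a c ≤ 1 := by
  unfold rhoc
  rw [div_le_one (exp1_pos _)]
  apply integral_mono (exp1_integrable _) (exp1_integrable _)
  intro t
  apply Real.exp_le_exp.2
  have := abs_nonneg t
  nlinarith

/-- **local resampling** -/
theorem resample (N : Finset ι) (f : (ι → ℝ) → ℝ) (hf : Measurable f) {a c : ℝ} (_ha : 0 ≤ a)
    (_hc : 0 ≤ c) (hf0 : ∀ x, 0 ≤ f x) (hf1 : ∀ x, f x ≤ 1)
    (hlip : ∀ x x', (∀ i, i ∉ N → x i = x' i) → f x ≤ Real.exp (c * ∑ i ∈ N, |x i - x' i|) * f x') :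
    rhoc a c ^ N.card * ∫ x, f x ∂(gm ι) ≤ ∫ x, Real.exp (-a * ∑ i ∈ N, |x i|) * f x ∂(gm ι) := by
  set z : (ι → ℝ) → (ι → ℝ) := fun x i => if i ∈ N then 0 else x i with hz
  have hzm : Measurable z := by
    apply measurable_pi_lambda
    intro i
    by_cases h : i ∈ N
    · simp only [hz, h, if_true]; fun_prop
    · simp only [hz, h, if_false]; fun_prop
  set g : (ι → ℝ) → ℝ := fun x => f (z x) with hg
  have hgm : Measurable g := hf.comp hzm
  have hgN : ∀ x x' : ι → ℝ, (∀ i, i ∉ N → x i = x' i) → g x = g x' := by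
    intro x x' h
    have : z x = z x' := by
      funext i
      simp only [hz]
      split_ifs with hi
      · rfl
      · exact h i hi
    simp only [hg, this]
  have hs : ∀ x, ∑ i ∈ N, |x i - z x i| = ∑ i ∈ N, |x i| := by
    intro x
    apply Finset.sum_congr rfl
    intro i hi
    simp only [hz, hi, if_true, sub_zero]
  have hs' : ∀ x, ∑ i ∈ N, |z x i - x i| = ∑ i ∈ N, |x i| := by
    intro x
    apply Finset.sum_congr rfl
    intro i hi
    simp only [hz, hi, if_true, zero_sub, abs_neg]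
  have hzN : ∀ x i, i ∉ N → x i = z x i := by
    intro x i hi
    simp only [hz, hi, if_false]
  have hup : ∀ x, f x ≤ Real.exp (c * ∑ i ∈ N, |x i|) * g x := by
    intro x
    have := hlip x (z x) (hzN x)
    rwa [hs] at this
  have hlow : ∀ x, Real.exp (-c * ∑ i ∈ N, |x i|) * g x ≤ f x := by
    intro x
    have h1 := hlip (z x) x (fun i hi => (hzN x i hi).symm)
    rw [hs'] at h1
    have h2 := mul_le_mul_of_nonneg_left h1 (Real.exp_pos (-c * ∑ i ∈ N, |x i|)).le
    rw [← mul_assoc, ← Real.exp_add] at h2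
    simpa using h2
  have hφ : ∀ (d : ℝ) (x x' : ι → ℝ), (∀ i ∈ N, x i = x' i) →
      Real.exp (d * ∑ i ∈ N, |x i|) = Real.exp (d * ∑ i ∈ N, |x' i|) := by
    intro d x x' h
    rw [Finset.sum_congr rfl (fun i hi => by rw [h i hi])]
  have hg0 : ∀ x, 0 ≤ g x := fun x => hf0 _
  have hg1 : ∀ x, g x ≤ 1 := fun x => hf1 _
  have hint : ∀ (d : ℝ) (h : (ι → ℝ) → ℝ), Measurable h → (∀ x, 0 ≤ h x) → (∀ x, h x ≤ 1) →
      Integrable (fun x => Real.exp (d * ∑ i ∈ N, |x i|) * h x) (gm ι) := by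
    intro d h hm h0 h1
    refine (integrable_expN d N).mono' ((meas_expN d N).mul hm).aestronglyMeasurable
      (Filter.Eventually.of_forall fun x => ?_)
    rw [Real.norm_eq_abs, abs_of_nonneg (mul_nonneg (Real.exp_pos _).le (h0 x))]
    exact mul_le_of_le_one_right (Real.exp_pos _).le (h1 x)
  have hfi : Integrable f (gm ι) := by
    have := hint 0 f hf hf0 hf1
    simpa using this
  have e1 : ∫ x, f x ∂(gm ι) ≤ (∫ t, Real.exp (c * |t|) ∂(gaussianReal 0 1)) ^ N.card *
      ∫ x, g x ∂(gm ι) := by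
    rw [← Eexp c N, ← indep_int N _ g (meas_expN c N) hgm (hφ c) hgN]
    exact integral_mono hfi (hint c g hgm hg0 hg1) hup
  have e2 : (∫ t, Real.exp (-(a + c) * |t|) ∂(gaussianReal 0 1)) ^ N.card * ∫ x, g x ∂(gm ι) ≤
      ∫ x, Real.exp (-a * ∑ i ∈ N, |x i|) * f x ∂(gm ι) := by
    rw [← Eexp (-(a + c)) N, ← indep_int N _ g (meas_expN (-(a + c)) N) hgm (hφ (-(a + c))) hgN]
    apply integral_mono (hint (-(a + c)) g hgm hg0 hg1) (hint (-a) f hf hf0 hf1)
    intro x
    have h1 := mul_le_mul_of_nonneg_left (hlow x) (Real.exp_pos (-a * ∑ i ∈ N, |x i|)).le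
    rw [← mul_assoc, ← Real.exp_add] at h1
    simp only
    rw [show -(a + c) * ∑ i ∈ N, |x i| = -a * ∑ i ∈ N, |x i| + -c * ∑ i ∈ N, |x i| by ring]
    exact h1
  have hc1 := exp1_pos c
  unfold rhoc
  rw [div_pow]
  calc _ ≤ (∫ t, Real.exp (-(a + c) * |t|) ∂(gaussianReal 0 1)) ^ N.card /
        (∫ t, Real.exp (c * |t|) ∂(gaussianReal 0 1)) ^ N.card *
        ((∫ t, Real.exp (c * |t|) ∂(gaussianReal 0 1)) ^ N.card * ∫ x, g x ∂(gm ι)) := by
        apply mul_le_mul_of_nonneg_left e1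
        have := exp1_pos (-(a + c))
        positivity
    _ = (∫ t, Real.exp (-(a + c) * |t|) ∂(gaussianReal 0 1)) ^ N.card * ∫ x, g x ∂(gm ι) := by
        field_simp
    _ ≤ _ := e2

end H98G
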